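import Pool.Agent.W_92892c_h19n.Fin

set_option autoImplicit false

open MeasureTheory Set Filter Topology

namespace BSDN

open PPM BSDX

/-- By Poisson summation `det H s^r (Σ_v exp(-π s H(v)))²` is the square of a sum of terms
`exp(-π q(w)/s)` with `q ≥ 0`, so it is nondecreasing in `s`. -/
theorem rho_mono {r : ℕ} (H : Matrix (Fin r) (Fin r) ℝ) (hH : H.PosDef) (s t : ℝ) (hs : 0 < s)
    (hst : s ≤ t) :
    H.det * s ^ r * (∑' v : Fin r → ℤ, Real.exp (-(Real.pi * s * qv H v))) ^ 2 ≤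
      H.det * t ^ r * (∑' v : Fin r → ℤ, Real.exp (-(Real.pi * t * qv H v))) ^ 2 := by
  have ht : 0 < t := hs.trans_le hst
  have hd := hH.det_pos
  obtain ⟨q, c, hc, hq0, hq, hp⟩ := W92892t.thetaH_eq hH
  have key : ∀ s : ℝ, 0 < s → s ^ ((r : ℝ) / 2) * H.det ^ (1 / 2 : ℝ) * W92892t.thetaH H s =
      ∑' w : Fin r → ℤ, Real.exp (-(Real.pi * q (fun i => (w i : ℝ)) / s)) := by
    intro s hs
    rw [hp s hs, ← mul_assoc]
    have h4 : s ^ ((r : ℝ) / 2) * H.det ^ (1 / 2 : ℝ) *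
        (s ^ (-((r : ℝ) / 2)) * H.det ^ (-(1 / 2 : ℝ))) = 1 := by
      rw [Real.rpow_neg hs.le, Real.rpow_neg hd.le]
      have h1 : s ^ ((r : ℝ) / 2) ≠ 0 := (Real.rpow_pos_of_pos hs _).ne'
      have h2 : H.det ^ (1 / 2 : ℝ) ≠ 0 := (Real.rpow_pos_of_pos hd _).ne'
      field_simp
    rw [h4, one_mul]
  rw [thetaH_eq_sum, thetaH_eq_sum, ← sq_norm H hH s hs, ← sq_norm H hH t ht, ← mul_pow,
    ← mul_pow, key s hs, key t ht]
  refine pow_le_pow_left₀ (tsum_nonneg fun _ => (Real.exp_pos _).le) ?_ 2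
  refine Summable.tsum_le_tsum (fun w => ?_) (W92892t.summable_dual hc hq hs)
    (W92892t.summable_dual hc hq ht)
  apply Real.exp_le_exp.2
  have h1 : 0 ≤ q (fun i => (w i : ℝ)) := by
    refine le_trans ?_ (hq _)
    exact mul_nonneg hc.le (Finset.sum_nonneg fun j _ => sq_nonneg _)
  have h2 : Real.pi * q (fun i => (w i : ℝ)) / t ≤ Real.pi * q (fun i => (w i : ℝ)) / s :=
    div_le_div_of_nonneg_left (mul_nonneg Real.pi_pos.le h1) hs hst
  linarith

/-- If `F` is strictly decreasing on `(1,∞)`, so is `G`. -/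
theorem lg_anti (W : WeierstrassCurve ℤ) (A : ℝ) (r : ℕ) (T : Type) [AddCommGroup T] [Finite T]
    (e : BSDX.RatPts W ≃+ (Fin r → ℤ) × T) (H : Matrix (Fin r) (Fin r) ℝ) (hH : H.PosDef)
    (h : BSDX.RatPts W → ℝ) (hh : ∀ P, h P = qv H (e P).1)
    (hF : StrictAntiOn (bsdFun W A r) (Ioi 1)) : StrictAntiOn (localGlobal W h A) (Ioi 1) := by
  intro X hX Y hY hXY
  have hX1 : (1 : ℝ) < X := hX
  have hY1 : (1 : ℝ) < Y := hY
  have hκ : 0 < Real.exp (Real.eulerMascheroniConstant - 3 / 2) := Real.exp_pos _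
  have hlX : 0 < Real.log X := Real.log_pos hX1
  have hlY : 0 < Real.log Y := Real.log_pos hY1
  have hlog : Real.log X ≤ Real.log Y := Real.log_le_log (by linarith) hXY.le
  rw [lg_eq W A r T e H hH h hh 1 one_pos X hX1, lg_eq W A r T e H hH h hh 1 one_pos Y hY1]
  have h1 : Real.exp (bsdFun W A r Y - Real.log (1 * H.det / (Nat.card T : ℝ) ^ 2)) <
      Real.exp (bsdFun W A r X - Real.log (1 * H.det / (Nat.card T : ℝ) ^ 2)) := by
    apply Real.exp_lt_exp.2
    have := hF hX hY hXY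
    linarith
  have hqX : 0 < 1 / (Real.exp (Real.eulerMascheroniConstant - 3 / 2) * Real.log X) :=
    one_div_pos.2 (mul_pos hκ hlX)
  have hqY : 0 < 1 / (Real.exp (Real.eulerMascheroniConstant - 3 / 2) * Real.log Y) :=
    one_div_pos.2 (mul_pos hκ hlY)
  have hq : 1 / (Real.exp (Real.eulerMascheroniConstant - 3 / 2) * Real.log Y) ≤
      1 / (Real.exp (Real.eulerMascheroniConstant - 3 / 2) * Real.log X) :=
    one_div_le_one_div_of_le (mul_pos hκ hlX) (mul_le_mul_of_nonneg_left hlog hκ.le)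
  have h2 := rho_mono H hH _ _ hqY hq
  have h3 := theta_ge H hH _ hqY
  have h4 := theta_ge H hH _ hqX
  have h5 := mul_lt_mul h1 h2 (by linarith) (Real.exp_pos _).le
  have e1 : ∀ x y : ℝ, 1 * x * y = x * y := fun x y => by rw [one_mul]
  rw [e1, e1]
  exact h5

/-- The conditions on the function `G`. -/
theorem fin_lg (W : WeierstrassCurve ℤ) (L : ℂ → ℂ) (hL : Differentiable ℂ L)
    (hprod : EulerProduct W L) (hgr : PolyGrowth L) (A : ℝ) (ε : ℂ) (hA : 0 < A)
    (hFE : FunEq L A ε) (r : ℕ) (T : Type) [AddCommGroup T] [Finite T]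
    (e : RatPts W ≃+ (Fin r → ℤ) × T) (H : Matrix (Fin r) (Fin r) ℝ) (hH : H.PosDef)
    (h : RatPts W → ℝ)
    (hh : ∀ P, h P = dotProduct (fun i => ((e P).1 i : ℝ)) (H.mulVec fun i => ((e P).1 i : ℝ)))
    (V : ℝ) (hV : 0 < V) :
    List.TFAE [
      NoZeros L ∧ LeadingTerm L r (V * H.det / (Nat.card T : ℝ) ^ 2),
      StrictAntiOn (localGlobal W h A) (Ioi 1) ∧ Tendsto (localGlobal W h A) atTop (𝓝 V),
      (∀ X : ℝ, 1 < X → V < localGlobal W h A X) ∧
        Tendsto (fun n : ℕ => localGlobal W h A n) atTop (𝓝 V)] := by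
  have hT : (0 : ℝ) < Nat.card T := by exact_mod_cast Nat.card_pos
  have hlam : 0 < V * H.det / (Nat.card T : ℝ) ^ 2 :=
    div_pos (mul_pos hV hH.det_pos) (pow_pos hT 2)
  have h13 := fin_free W L hL hprod hgr A ε hA hFE r T e H hH h hh V hV
  have h0 := (fin_tfae W L hL hprod hgr A ε hA hFE r _ hlam).out 0 2
  tfae_have 1 ↔ 3 := h13
  tfae_have 1 → 2 := by
    intro h1
    have h2 := h0.1 h1
    have h3 := lg_anti W A r T e H hH h hh h2.1
    refine ⟨h3, ?_⟩
    have h4 := (h13.1 h1)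
    -- an antitone function with limit `V` along the integers
    refine tendsto_order.2 ⟨fun x hx => ?_, fun x hx => ?_⟩
    · filter_upwards [eventually_gt_atTop (1 : ℝ)] with X hX
      exact hx.trans (h4.1 X hX)
    · have h5 := (tendsto_order.1 h4.2).2 x hx
      obtain ⟨n, hn1, hn2⟩ := (h5.and (eventually_ge_atTop 2)).exists
      have hn3 : (1 : ℝ) < n := by
        have : 1 < n := by omega
        exact_mod_cast this
      filter_upwards [eventually_ge_atTop (n : ℝ)] with X hX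
      exact (h3.antitoneOn (show (n : ℝ) ∈ Ioi 1 from hn3)
        (show X ∈ Ioi 1 from hn3.trans_le hX) hX).trans_lt hn1
  tfae_have 2 → 3 := by
    rintro ⟨h1, h2⟩
    refine ⟨fun X hX => ?_, h2.comp tendsto_natCast_atTop_atTop⟩
    have h3 : V ≤ localGlobal W h A (X + 1) := by
      refine le_of_tendsto h2 ?_
      filter_upwards [eventually_ge_atTop (X + 1)] with Y hY
      exact h1.antitoneOn (show X + 1 ∈ Ioi 1 by rw [Set.mem_Ioi]; linarith)
        (show Y ∈ Ioi 1 by rw [Set.mem_Ioi]; linarith) hY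
    exact h3.trans_lt (h1 (show X ∈ Ioi 1 from hX)
      (show X + 1 ∈ Ioi 1 by rw [Set.mem_Ioi]; linarith) (by linarith))
  tfae_finish

/-- The rank part: `G` is decreasing and bounded away from `0`. -/
theorem fin_lg_rank (W : WeierstrassCurve ℤ) (L : ℂ → ℂ) (hL : Differentiable ℂ L)
    (hprod : EulerProduct W L) (hgr : PolyGrowth L) (A : ℝ) (ε : ℂ) (hA : 0 < A)
    (hFE : FunEq L A ε) (r : ℕ) (T : Type) [AddCommGroup T] [Finite T]
    (e : RatPts W ≃+ (Fin r → ℤ) × T) (H : Matrix (Fin r) (Fin r) ℝ) (hH : H.PosDef)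
    (h : RatPts W → ℝ)
    (hh : ∀ P, h P = dotProduct (fun i => ((e P).1 i : ℝ)) (H.mulVec fun i => ((e P).1 i : ℝ))) :
    (NoZeros L ∧ ∃ l : ℝ, 0 < l ∧ LeadingTerm L r l) ↔
      (AntitoneOn (localGlobal W h A) (Ioi 1) ∧
        ∃ m : ℝ, 0 < m ∧ ∀ X : ℝ, 1 < X → m ≤ localGlobal W h A X) := by
  have hT : (0 : ℝ) < Nat.card T := by exact_mod_cast Nat.card_pos
  have hd := hH.det_pos
  constructor
  · rintro ⟨h1, l, hl, h2⟩
    have hV : 0 < l * (Nat.card T : ℝ) ^ 2 / H.det := by positivity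
    have e1 : l * (Nat.card T : ℝ) ^ 2 / H.det * H.det / (Nat.card T : ℝ) ^ 2 = l := by
      field_simp
    have h3 := fin_lg W L hL hprod hgr A ε hA hFE r T e H hH h hh _ hV
    rw [e1] at h3
    have h3a := h3.out 0 1
    have h3b := h3.out 0 2
    have h4 := h3a.1 ⟨h1, h2⟩
    have h5 := h3b.1 ⟨h1, h2⟩
    exact ⟨h4.1.antitoneOn, _, hV, fun X hX => (h5.1 X hX).le⟩
  · rintro ⟨h1, m, hm0, hm⟩
    have h2 : Antitone (fun n : ℕ => localGlobal W h A ((n : ℝ) + 2)) := by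
      intro n k hnk
      have hn : (0 : ℝ) ≤ n := Nat.cast_nonneg n
      have hnk' : (n : ℝ) ≤ k := by exact_mod_cast hnk
      exact h1 (show (n : ℝ) + 2 ∈ Ioi 1 from by rw [Set.mem_Ioi]; linarith)
        (show (k : ℝ) + 2 ∈ Ioi 1 from by rw [Set.mem_Ioi]; linarith) (by linarith)
    have h3 : BddBelow (Set.range fun n : ℕ => localGlobal W h A ((n : ℝ) + 2)) := by
      refine ⟨m, ?_⟩
      rintro _ ⟨n, rfl⟩
      have hn : (0 : ℝ) ≤ n := Nat.cast_nonneg n
      exact hm _ (by linarith)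
    have h4 := tendsto_atTop_ciInf h2 h3
    set g : ℝ := ⨅ n : ℕ, localGlobal W h A ((n : ℝ) + 2) with hg
    have hg0 : 0 < g := by
      refine hm0.trans_le ?_
      refine le_ciInf fun n => ?_
      have hn : (0 : ℝ) ≤ n := Nat.cast_nonneg n
      exact hm _ (by linarith)
    have h5 : Tendsto (fun n : ℕ => localGlobal W h A n) atTop (𝓝 g) := by
      rw [← tendsto_add_atTop_iff_nat 2]
      refine h4.congr fun n => ?_
      push_cast
      rfl
    obtain ⟨-, h6⟩ := rank_free W A r T e H hH h hh g hg0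
    have hlam : 0 < g * H.det / (Nat.card T : ℝ) ^ 2 :=
      div_pos (mul_pos hg0 hd) (pow_pos hT 2)
    obtain ⟨h7, h8⟩ := Fin_bwd W L hL hprod A r _ hlam (h6.2 h5)
    exact ⟨h7, _, hlam, h8⟩

end BSDN
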