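import Pool.Agent.W_92892c_h19n.Ces2
import Pool.Agent.W_92892c_h19n.Rf2
import Pool.Agent.W_92892c_h19.Bdd

set_option autoImplicit false

open MeasureTheory Set Filter Topology

namespace BSDN

open BSDS BSDC

variable {ι : Type} {c u : ι → ℝ} {a : ℝ} {L : ℂ → ℂ}

/-- If `‖L x/x^r‖` stays between two positive constants for `0 < x < 1`, the order is `r`
(end of the proof of `bdd_main`, module Bdd of W_92892c_h19). -/
theorem Bd2_ord (hL : Differentiable ℂ L) (h0 : L 1 ≠ 0) (r : ℕ) (m M : ℝ) (hm : 0 < m)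
    (hsize : ∀ x : ℝ, 0 < x → x < 1 → m ≤ ‖L x / (x : ℂ) ^ r‖ ∧ ‖L x / (x : ℂ) ^ r‖ ≤ M) :
    ∃ l : ℂ, l ≠ 0 ∧ Tendsto (fun s : ℂ => L s / s ^ r) (𝓝[≠] 0) (𝓝 l) := by
  obtain ⟨n, l, hl, ht⟩ := exists_order L hL 1 h0
  have hreal : Tendsto (fun x : ℝ => (x : ℂ)) (𝓝[>] 0) (𝓝[≠] 0) := Lead_real
  have htx : Tendsto (fun x : ℝ => ‖L x / (x : ℂ) ^ n‖) (𝓝[>] 0) (𝓝 ‖l‖) :=
    (ht.comp hreal).norm
  have hlpos : 0 < ‖l‖ := norm_pos_iff.2 hl
  have hev : ∀ᶠ x : ℝ in 𝓝[>] 0, 0 < x ∧ x < 1 :=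
    Ioo_mem_nhdsGT (zero_lt_one' ℝ)
  have hpow : ∀ k : ℕ, k ≠ 0 → Tendsto (fun x : ℝ => x ^ k) (𝓝[>] 0) (𝓝 0) := by
    intro k hk
    have h1 : Tendsto (fun x : ℝ => x ^ k) (𝓝 0) (𝓝 ((0 : ℝ) ^ k)) := (continuous_pow k).tendsto 0
    rw [zero_pow hk] at h1
    exact h1.mono_left nhdsWithin_le_nhds
  have hnr : n = r := by
    rcases lt_trichotomy n r with h1 | h1 | h1
    · exfalso
      have h2 : Tendsto (fun x : ℝ => ‖L x / (x : ℂ) ^ n‖) (𝓝[>] 0) (𝓝 0) := by
        have h3 : Tendsto (fun x : ℝ => M * x ^ (r - n)) (𝓝[>] 0) (𝓝 0) := by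
          have := (hpow (r - n) (by omega)).const_mul M
          rwa [mul_zero] at this
        refine squeeze_zero' (Eventually.of_forall fun x => norm_nonneg _) ?_ h3
        filter_upwards [hev] with x hx
        have hx0 : (x : ℂ) ≠ 0 := Complex.ofReal_ne_zero.2 hx.1.ne'
        have h4 : L x / (x : ℂ) ^ n = L x / (x : ℂ) ^ r * (x : ℂ) ^ (r - n) := by
          have h5 : (x : ℂ) ^ r = (x : ℂ) ^ (r - n) * (x : ℂ) ^ n := by
            rw [← pow_add]
            congr 1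
            omega
          rw [h5]
          field_simp
        rw [h4, norm_mul, norm_pow, Complex.norm_real, Real.norm_of_nonneg hx.1.le]
        exact mul_le_mul_of_nonneg_right (hsize x hx.1 hx.2).2 (pow_nonneg hx.1.le _)
      exact hlpos.ne' (tendsto_nhds_unique htx h2)
    · exact h1
    · exfalso
      have h2 : Tendsto (fun x : ℝ => ‖L x / (x : ℂ) ^ r‖) (𝓝[>] 0) (𝓝 0) := by
        have h3 := htx.mul (hpow (n - r) (by omega))
        rw [mul_zero] at h3
        refine h3.congr' ?_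
        filter_upwards [hev] with x hx
        have hx0 : (x : ℂ) ≠ 0 := Complex.ofReal_ne_zero.2 hx.1.ne'
        have h4 : L x / (x : ℂ) ^ r = L x / (x : ℂ) ^ n * (x : ℂ) ^ (n - r) := by
          have h5 : (x : ℂ) ^ n = (x : ℂ) ^ (n - r) * (x : ℂ) ^ r := by
            rw [← pow_add]
            congr 1
            omega
          rw [h5]
          field_simp
        rw [h4, norm_mul, norm_pow, Complex.norm_real, Real.norm_of_nonneg hx.1.le]
      have h3 : m ≤ 0 := by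
        refine ge_of_tendsto h2 ?_
        filter_upwards [hev] with x hx
        exact (hsize x hx.1 hx.2).1
      exact absurd h3 (not_le.2 hm)
  subst hnr
  exact ⟨l, hl, ht⟩

/-- A bounded second mean implies the absence of zeros and order `r`. -/
theorem bdd2_main (H : Hyp c u a L) (κ : ℝ) (r : ℕ) (B : ℝ)
    (h : ∀ U : ℝ, 0 < U → |E2 c u κ r U| ≤ B * (1 + U ^ 2)) :
    (∀ s : ℂ, 0 < s.re → L s ≠ 0) ∧
      ∃ l : ℂ, l ≠ 0 ∧ Tendsto (fun s : ℂ => L s / s ^ r) (𝓝[≠] 0) (𝓝 l) := by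
  have hB : 0 ≤ B := by
    have h1 := (abs_nonneg _).trans (h 1 one_pos)
    norm_num at h1
    linarith
  have hFi : ∀ σ : ℝ, 0 < σ → IntegrableOn (fun v : ℝ => E2 c u κ r v * Real.exp (-(σ * v)))
      (Ioi 0) := by
    intro σ hσ
    refine Integrable.mono' (Ces2_int B B σ hσ).1 ?_ ?_
    · have h1 : Continuous (fun v : ℝ => Real.exp (-(σ * v))) := by fun_prop
      exact ((E2_meas H κ r).mul h1.measurable).aestronglyMeasurable
    · refine (ae_restrict_iff' measurableSet_Ioi).2 (Eventually.of_forall fun v hv => ?_)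
      rw [norm_mul, Real.norm_eq_abs, Real.norm_eq_abs, Real.abs_exp]
      refine mul_le_mul_of_nonneg_right ?_ (Real.exp_pos _).le
      have := h v hv
      linarith
  have hrep := rep2 H κ r hFi
  have hz : ∀ s : ℂ, 0 < s.re → L s ≠ 0 := by
    intro s hs
    rw [hrep s hs]
    refine mul_ne_zero (pow_ne_zero _ ?_) (Complex.exp_ne_zero _)
    rintro rfl
    simp at hs
  refine ⟨hz, ?_⟩
  set E0 : ℝ := r * Real.eulerMascheroniConstant - κ with hE0
  refine Bd2_ord H.Lent (hz 1 (by simp)) r (Real.exp (E0 - 3 * B)) (Real.exp (E0 + 3 * B))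
    (Real.exp_pos _) fun x hx hx1 => ?_
  have h1 := hrep (x : ℂ) (by rw [Complex.ofReal_re]; exact hx)
  obtain ⟨i1, i2⟩ := Ces2_int B B x hx
  have h2 : ‖(x : ℂ) ^ 3 * ∫ v in Ioi (0 : ℝ),
      ((E2 c u κ r v : ℝ) : ℂ) * Complex.exp (-((x : ℂ) * v))‖ ≤ 3 * B := by
    have h3 : ‖∫ v in Ioi (0 : ℝ),
        ((E2 c u κ r v : ℝ) : ℂ) * Complex.exp (-((x : ℂ) * v))‖ ≤
        ∫ v in Ioi (0 : ℝ), (B + B * v ^ 2) * Real.exp (-(x * v)) := by
      apply norm_integral_le_of_norm_le i1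
      refine (ae_restrict_iff' measurableSet_Ioi).2 (Eventually.of_forall fun v hv => ?_)
      rw [norm_mul, Complex.norm_real, Ces2_norm_exp, Real.norm_eq_abs]
      refine mul_le_mul_of_nonneg_right ?_ (Real.exp_pos _).le
      have := h v hv
      linarith
    rw [i2] at h3
    rw [norm_mul, norm_pow, Complex.norm_real, Real.norm_of_nonneg hx.le]
    calc x ^ 3 * ‖∫ v in Ioi (0 : ℝ),
        ((E2 c u κ r v : ℝ) : ℂ) * Complex.exp (-((x : ℂ) * v))‖ ≤
        x ^ 3 * (B / x + 2 * B / x ^ 3) := mul_le_mul_of_nonneg_left h3 (by positivity)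
      _ = B * x ^ 2 + 2 * B := by field_simp
      _ ≤ 3 * B := by
        have : x ^ 2 ≤ 1 := by nlinarith
        nlinarith
  have hx0 : (x : ℂ) ≠ 0 := Complex.ofReal_ne_zero.2 hx.ne'
  rw [h1, mul_div_cancel_left₀ _ (pow_ne_zero _ hx0), Complex.norm_exp]
  have h3 := (Complex.abs_re_le_norm _).trans h2
  rw [abs_le] at h3
  have h4 : ((r : ℂ) * Real.eulerMascheroniConstant - κ -
      (x : ℂ) ^ 3 * ∫ v in Ioi (0 : ℝ),
      ((E2 c u κ r v : ℝ) : ℂ) * Complex.exp (-((x : ℂ) * v))).re =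
      E0 - ((x : ℂ) ^ 3 * ∫ v in Ioi (0 : ℝ),
      ((E2 c u κ r v : ℝ) : ℂ) * Complex.exp (-((x : ℂ) * v))).re := by
    rw [Complex.sub_re, Complex.sub_re, hE0, ← Complex.ofReal_natCast, ← Complex.ofReal_mul,
      Complex.ofReal_re, Complex.ofReal_re]
  rw [h4]
  exact ⟨Real.exp_le_exp.2 (by linarith [h3.2]), Real.exp_le_exp.2 (by linarith [h3.1])⟩

/-- Quadratic bounds at the integers give quadratic bounds (`osc`, `prim_bd`). -/
theorem from_int2 (W : WeierstrassCurve ℤ) (L : ℂ → ℂ) (H : Hyp (cW W) uW 3 L) (κ : ℝ) (r : ℕ)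
    (C : ℝ) (h : ∀ᶠ n : ℕ in atTop, |E2 (cW W) uW κ r (Real.log n)| ≤ C * (1 + Real.log n ^ 2)) :
    ∃ M : ℝ, ∀ U : ℝ, 0 < U → |E2 (cW W) uW κ r U| ≤ M * (1 + U ^ 2) := by
  obtain ⟨K, hK⟩ := osc W κ r
  obtain ⟨-, -, -, C', hC'⟩ := prim_bd H κ r
  obtain ⟨N0, hN0⟩ := eventually_atTop.1 h
  set N : ℕ := max N0 2 with hN
  have hN2 : 2 ≤ N := le_max_right _ _
  have hNr : (2 : ℝ) ≤ N := by exact_mod_cast hN2
  refine ⟨|C| + |K| + |C'| * Real.exp ((3 + 1) * Real.log N), fun U hU => ?_⟩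
  have h13 : 0 ≤ |C'| * Real.exp ((3 + 1) * Real.log N) := by positivity
  have h15 := abs_nonneg C
  have h16 := abs_nonneg K
  have hU2 : 0 ≤ U ^ 2 := sq_nonneg U
  rcases le_or_gt (Real.log N) U with hUN | hUN
  · have heN : (N : ℝ) ≤ Real.exp U := (Real.log_le_iff_le_exp (by linarith)).1 hUN
    set n : ℕ := ⌊Real.exp U⌋₊ with hn
    have hnN : N ≤ n := Nat.le_floor heN
    have hn2 : 2 ≤ n := hN2.trans hnN
    have hnr : (2 : ℝ) ≤ n := by exact_mod_cast hn2
    have h1 : (n : ℝ) ≤ Real.exp U := Nat.floor_le (Real.exp_pos U).le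
    have h2 : Real.exp U < n + 1 := Nat.lt_floor_add_one _
    have h3 : Real.log n ≤ U := (Real.log_le_iff_le_exp (by linarith)).2 h1
    have h4 : U ≤ Real.log (n + 1) := (Real.le_log_iff_exp_le (by linarith)).2 h2.le
    have h5 := hK n hn2 U h3 h4
    have h6 := hN0 n (le_trans (le_max_left _ _) hnN)
    have h7 := abs_sub_abs_le_abs_sub (E2 (cW W) uW κ r U) (E2 (cW W) uW κ r (Real.log n))
    have h8 : Real.log n ^ 2 ≤ U ^ 2 := pow_le_pow_left₀ (Real.log_nonneg (by linarith)) h3 2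
    have h9 : C * (1 + Real.log n ^ 2) ≤ |C| * (1 + U ^ 2) := by
      have := le_abs_self C
      have h10 : 0 ≤ 1 + Real.log n ^ 2 := by positivity
      calc C * (1 + Real.log n ^ 2) ≤ |C| * (1 + Real.log n ^ 2) :=
            mul_le_mul_of_nonneg_right this h10
        _ ≤ |C| * (1 + U ^ 2) := mul_le_mul_of_nonneg_left (by linarith) h15
    have h11 := le_abs_self K
    nlinarith [mul_nonneg h16 hU2, mul_nonneg h13 hU2]
  · have h1 := (hC' U hU.le).2
    have h2 : |E2 (cW W) uW κ r U| ≤ |C'| * Real.exp ((3 + 1) * Real.log N) := by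
      refine h1.trans ?_
      refine mul_le_mul (le_abs_self _) (Real.exp_le_exp.2 ?_) (Real.exp_pos _).le (abs_nonneg _)
      nlinarith
    nlinarith [mul_nonneg h15 hU2, mul_nonneg h16 hU2, mul_nonneg h13 hU2]

open PPM BSDX

/-- Order `r` and no zeros: `F` decreasing and bounded below; `F` bounded along the integers. -/
theorem rank_tfae (W : WeierstrassCurve ℤ) (L : ℂ → ℂ) (hL : Differentiable ℂ L)
    (hprod : EulerProduct W L) (hgr : PolyGrowth L) (A : ℝ) (ε : ℂ) (hA : 0 < A)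
    (hFE : FunEq L A ε) (r : ℕ) :
    List.TFAE [
      NoZeros L ∧ ∃ l : ℝ, 0 < l ∧ LeadingTerm L r l,
      AntitoneOn (bsdFun W A r) (Ioi 1) ∧ ∃ m : ℝ, ∀ X : ℝ, 1 < X → m ≤ bsdFun W A r X,
      ∃ B : ℝ, ∀ n : ℕ, 2 ≤ n → |bsdFun W A r n| ≤ B] := by
  have H := Fin_hyp W L hL hprod
  tfae_have 1 ↔ 2 := fin_rank W L hL hprod hgr A ε hA hFE r
  tfae_have 1 → 3 := by
    rintro ⟨h1, l, hl, h2⟩
    have h0 := (fin_tfae W L hL hprod hgr A ε hA hFE r l hl).out 0 3
    have h3 := (h0.1 ⟨h1, h2⟩).abs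
    obtain ⟨B, hB⟩ := h3.bddAbove_range
    refine ⟨B, fun n _ => hB ⟨n, rfl⟩⟩
  tfae_have 3 → 1 := by
    rintro ⟨B, hB⟩
    set b : ℝ := Real.log A - Real.eulerMascheroniConstant with hb
    have h1 : ∀ᶠ n : ℕ in atTop, |E2 (cW W) uW (kap 1 r) r (Real.log n)| ≤
        (B + |b| + 2) * (1 + Real.log n ^ 2) := by
      filter_upwards [eventually_ge_atTop 2] with n hn2
      have hn1 : (1 : ℝ) < n := by
        have : 1 < n := by omega
        exact_mod_cast this
      have h2 := fun_eq W H A r 1 n hn1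
      have hU : 0 < Real.log n := Real.log_pos hn1
      set U : ℝ := Real.log n with hUd
      have h3 := hB n hn2
      rw [Real.log_one, sub_zero] at h2
      rw [h2] at h3
      unfold Ff at h3
      have h5 : E2 (cW W) uW (kap 1 r) r U = -(-2 * E2 (cW W) uW (kap 1 r) r U /
          U ^ 2 + 2 * b / U + Real.pi ^ 2 / (6 * U ^ 2)) *
            (U ^ 2 / 2) + b * U + Real.pi ^ 2 / 12 := by
        field_simp
        ring
      rw [h5]
      have h6 : |-(-2 * E2 (cW W) uW (kap 1 r) r U /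
          U ^ 2 + 2 * b / U + Real.pi ^ 2 / (6 * U ^ 2)) * (U ^ 2 / 2)| ≤ B * (U ^ 2 / 2) := by
        rw [abs_mul, abs_neg, abs_of_nonneg (show (0 : ℝ) ≤ U ^ 2 / 2 by positivity)]
        exact mul_le_mul_of_nonneg_right h3 (by positivity)
      have h7 : |b * U| ≤ |b| * (1 + U ^ 2) := by
        rw [abs_mul, abs_of_pos hU]
        refine mul_le_mul_of_nonneg_left ?_ (abs_nonneg _)
        nlinarith [sq_nonneg (U - 1)]
      have h8 : |Real.pi ^ 2 / 12| ≤ 1 := by
        rw [abs_of_nonneg (by positivity)]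
        have := Real.pi_lt_d2
        have := Real.pi_pos
        nlinarith
      have h9 := abs_add_three (-(-2 * E2 (cW W) uW (kap 1 r) r U /
          U ^ 2 + 2 * b / U + Real.pi ^ 2 / (6 * U ^ 2)) * (U ^ 2 / 2)) (b * U) (Real.pi ^ 2 / 12)
      have hB0 : 0 ≤ B := (abs_nonneg _).trans h3
      nlinarith [sq_nonneg U]
    obtain ⟨M, hM⟩ := from_int2 W (fun s => L (1 + s)) H (kap 1 r) r _ h1
    obtain ⟨h6, l, hl, h7⟩ := bdd2_main H (kap 1 r) r M hM
    obtain ⟨lam, hlam, rfl⟩ := lead_pos H (fun x => L_real H x) h6 r l hl h7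
    exact ⟨(Fin_zeros L).2 h6, lam, hlam, (tendsto_shift L r _).2 h7⟩
  tfae_finish

/-- The same for `G`: decreasing and bounded away from `0`; bounded above and away from `0` along
the integers. -/
theorem lg_rank_tfae (W : WeierstrassCurve ℤ) (L : ℂ → ℂ) (hL : Differentiable ℂ L)
    (hprod : EulerProduct W L) (hgr : PolyGrowth L) (A : ℝ) (ε : ℂ) (hA : 0 < A)
    (hFE : FunEq L A ε) (r : ℕ) (T : Type) [AddCommGroup T] [Finite T]
    (e : RatPts W ≃+ (Fin r → ℤ) × T) (H : Matrix (Fin r) (Fin r) ℝ) (hH : H.PosDef)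
    (h : RatPts W → ℝ)
    (hh : ∀ P, h P = dotProduct (fun i => ((e P).1 i : ℝ)) (H.mulVec fun i => ((e P).1 i : ℝ))) :
    List.TFAE [
      NoZeros L ∧ ∃ l : ℝ, 0 < l ∧ LeadingTerm L r l,
      AntitoneOn (localGlobal W h A) (Ioi 1) ∧
        ∃ m : ℝ, 0 < m ∧ ∀ X : ℝ, 1 < X → m ≤ localGlobal W h A X,
      ∃ m M : ℝ, 0 < m ∧ ∀ n : ℕ, 2 ≤ n → m ≤ localGlobal W h A n ∧
        localGlobal W h A n ≤ M] := by
  have hT : (0 : ℝ) < Nat.card T := by exact_mod_cast Nat.card_pos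
  have hd := hH.det_pos
  have hκ : 0 < Real.exp (Real.eulerMascheroniConstant - 3 / 2) := Real.exp_pos _
  tfae_have 1 ↔ 2 := fin_lg_rank W L hL hprod hgr A ε hA hFE r T e H hH h hh
  tfae_have 2 → 3 := by
    rintro ⟨h1, m, hm, h2⟩
    refine ⟨m, localGlobal W h A 2, hm, fun n hn => ⟨h2 n ?_, ?_⟩⟩
    · have : 1 < n := by omega
      exact_mod_cast this
    · have h3 : (2 : ℝ) ≤ n := by exact_mod_cast hn
      exact h1 (show (2 : ℝ) ∈ Ioi 1 by rw [Set.mem_Ioi]; norm_num)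
        (show (n : ℝ) ∈ Ioi 1 by rw [Set.mem_Ioi]; linarith) h3
  tfae_have 3 → 1 := by
    rintro ⟨m, M, hm, h1⟩
    have h0 := (rank_tfae W L hL hprod hgr A ε hA hFE r).out 0 2
    refine h0.2 ?_
    have hmain := lg_eq W A r T e H hH h hh 1 one_pos
    set ℓ : ℝ := Real.log (1 * H.det / (Nat.card T : ℝ) ^ 2) with hℓ
    -- the theta factor is between `1` and its value at `n = 2`
    set ρ2 : ℝ := H.det * (1 / (Real.exp (Real.eulerMascheroniConstant - 3 / 2) *
        Real.log 2)) ^ r * (∑' v : Fin r → ℤ, Real.exp (-(Real.pi *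
          (1 / (Real.exp (Real.eulerMascheroniConstant - 3 / 2) * Real.log 2)) * qv H v))) ^ 2
      with hρ2
    have hl2 : 0 < Real.log 2 := Real.log_pos (by norm_num)
    have hρ21 : 1 ≤ ρ2 := theta_ge H hH _ (one_div_pos.2 (mul_pos hκ hl2))
    have hM0 : 0 < M := hm.trans_le ((h1 2 le_rfl).1.trans (h1 2 le_rfl).2)
    refine ⟨|ℓ| + |Real.log (m / ρ2)| + |Real.log M|, fun n hn => ?_⟩
    have hn2 : (2 : ℝ) ≤ n := by exact_mod_cast hn
    have hn1 : (1 : ℝ) < n := by linarith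
    have hlog : Real.log 2 ≤ Real.log n := Real.log_le_log (by norm_num) hn2
    have hln : 0 < Real.log n := by linarith
    have hqn : 0 < 1 / (Real.exp (Real.eulerMascheroniConstant - 3 / 2) * Real.log n) :=
      one_div_pos.2 (mul_pos hκ hln)
    have hq : 1 / (Real.exp (Real.eulerMascheroniConstant - 3 / 2) * Real.log n) ≤
        1 / (Real.exp (Real.eulerMascheroniConstant - 3 / 2) * Real.log 2) :=
      one_div_le_one_div_of_le (mul_pos hκ hl2) (mul_le_mul_of_nonneg_left hlog hκ.le)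
    have h2 := rho_mono H hH _ _ hqn hq
    have h3 := theta_ge H hH _ hqn
    have h4 := hmain n hn1
    obtain ⟨h5, h6⟩ := h1 n hn
    rw [h4, one_mul] at h5 h6
    set ρ : ℝ := H.det * (1 / (Real.exp (Real.eulerMascheroniConstant - 3 / 2) *
        Real.log n)) ^ r * (∑' v : Fin r → ℤ, Real.exp (-(Real.pi *
          (1 / (Real.exp (Real.eulerMascheroniConstant - 3 / 2) * Real.log n)) * qv H v))) ^ 2
      with hρ
    set x : ℝ := bsdFun W A r n with hx
    have h7 : Real.log (m / ρ2) ≤ x - ℓ := by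
      rw [Real.log_le_iff_le_exp (by positivity), div_le_iff₀ (by linarith)]
      exact h5.trans (mul_le_mul_of_nonneg_left h2 (Real.exp_pos _).le)
    have h8 : x - ℓ ≤ Real.log M := by
      rw [Real.le_log_iff_exp_le hM0]
      refine le_trans ?_ h6
      exact le_mul_of_one_le_right (Real.exp_pos _).le h3
    have h9 := neg_abs_le (Real.log (m / ρ2))
    have h10 := le_abs_self (Real.log M)
    have h11 := neg_abs_le ℓ
    have h12 := le_abs_self ℓ
    rw [abs_le]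
    constructor
    · have := abs_nonneg (Real.log M)
      linarith
    · have := abs_nonneg (Real.log (m / ρ2))
      linarith
  tfae_finish

end BSDN
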