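import Pool.Agent.W_92892c_h19n.Fin

set_option autoImplicit false

open MeasureTheory Set Filter Topology

namespace BSDN

open PPM BSDX

/-- The full list of equivalent conditions: `fin_tfae` together with `part1` of PrimePowerMean. -/
theorem all_tfae (W : WeierstrassCurve ℤ) (L : ℂ → ℂ) (hL : Differentiable ℂ L)
    (hprod : EulerProduct W L) (hgr : PolyGrowth L) (A : ℝ) (ε : ℂ) (hA : 0 < A)
    (hFE : FunEq L A ε) (r : ℕ) (lam : ℝ) (hlam : 0 < lam) :
    List.TFAE [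
      NoZeros L ∧ LeadingTerm L r lam,
      ∀ X : ℝ, 2 ≤ X → 0 < bsdFun W A r X - Real.log lam ∧
        bsdFun W A r X - Real.log lam < 4 * A * (L 2).re / (lam * Real.log X ^ 2),
      StrictAntiOn (bsdFun W A r) (Ioi 1) ∧
        Tendsto (bsdFun W A r) atTop (𝓝 (Real.log lam)),
      Tendsto (fun n : ℕ => bsdFun W A r n) atTop (𝓝 (Real.log lam)),
      ∀ X : ℝ, 2 ≤ X → |(∫ x in (1 : ℝ)..X, bsdError W r lam x / x) -
        (Real.log A - Real.eulerMascheroniConstant)| < 4 * A * (L 2).re / (lam * Real.log X),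
      Tendsto (logMean W r lam) atTop (𝓝 0),
      ∃ B : ℝ, ∀ X : ℝ, 2 ≤ X →
        ∫ x in (2 : ℝ)..X, (Real.log x * bsdError W r lam x) ^ 2 / x ≤ B * Real.log X] := by
  have h1 := fin_tfae W L hL hprod hgr A ε hA hFE r lam hlam
  have h2 := part1 W L hL hprod hgr r lam hlam
  have a1 := h1.out 0 1
  have a2 := h1.out 0 2
  have a3 := h1.out 0 3
  have a4 := h1.out 0 4
  have b1 := h2.out 0 1
  have b2 := h2.out 0 2
  tfae_have 1 ↔ 2 := a1
  tfae_have 1 ↔ 3 := a2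
  tfae_have 1 ↔ 4 := a3
  tfae_have 1 ↔ 5 := a4
  tfae_have 1 ↔ 6 := b1
  tfae_have 1 ↔ 7 := b2
  tfae_finish

end BSDN
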