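import Pool.Agent.W_92892c_h19n.Efm
import Pool.Agent.W_92892c.Euler
import Pool.Agent.W_92892c_h19.Trans

set_option autoImplicit false

open MeasureTheory Set Filter Topology

namespace BSDN

open BSDS BSDC

theorem Ar_root (α β : ℂ) (x P : ℝ) (hP : 1 ≤ P) (hx : |x| ≤ P) (h1 : α + β = (x : ℂ))
    (h2 : α * β = (P : ℂ)) : ‖α‖ ≤ P := by
  have re1 : α.re + β.re = x := by
    have := congrArg Complex.re h1
    simpa using this
  have im1 : α.im + β.im = 0 := by
    have := congrArg Complex.im h1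
    simpa using this
  have re2 : α.re * β.re - α.im * β.im = P := by
    have := congrArg Complex.re h2
    simpa using this
  have im2 : α.re * β.im + α.im * β.re = 0 := by
    have := congrArg Complex.im h2
    simpa using this
  have hb : β.im = -α.im := by linarith
  have hr : β.re = x - α.re := by linarith
  rw [hb, hr] at re2 im2
  have hP2 : P ≤ P ^ 2 := by nlinarith
  have hsq : ‖α‖ ^ 2 ≤ P ^ 2 := by
    rw [Complex.sq_norm, Complex.normSq_apply]
    have h3 : α.im * (x - 2 * α.re) = 0 := by linarith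
    rcases mul_eq_zero.1 h3 with h4 | h4
    · rw [h4] at re2 ⊢
      have h5 : α.re * (x - α.re) = P := by linarith
      have h6 : α.re * x ≤ |α.re| * P := by
        calc α.re * x ≤ |α.re * x| := le_abs_self _
          _ = |α.re| * |x| := abs_mul _ _
          _ ≤ |α.re| * P := mul_le_mul_of_nonneg_left hx (abs_nonneg _)
      have h7 : |α.re| ^ 2 = α.re ^ 2 := sq_abs _
      have h8 : |α.re| ≤ P := by
        by_contra hcon
        push Not at hcon
        nlinarith [abs_nonneg α.re]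
      nlinarith [abs_nonneg α.re]
    · have h5 : x = 2 * α.re := by linarith
      rw [h5] at re2
      nlinarith
  by_contra hcon
  push Not at hcon
  nlinarith [norm_nonneg α]

theorem Ar_cW_le (W : WeierstrassCurve ℤ) (i : Nat.Primes × ℕ)
    (h : |(psum (ap W i.1) (ep W i.1) (i.2 + 1) : ℝ)| ≤ 2 * ((i.1 : ℕ) : ℝ) ^ (i.2 + 1)) :
    |cW W i| ≤ 2 := by
  have hp : (0 : ℝ) < ((i.1 : ℕ) : ℝ) := by exact_mod_cast i.1.2.pos
  have hden : (0 : ℝ) < ((i.2 : ℝ) + 1) * ((i.1 : ℕ) : ℝ) ^ (i.2 + 1) := by positivity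
  unfold cW
  rw [abs_div, abs_of_pos hden, div_le_iff₀ hden]
  refine h.trans ?_
  have h0 : (0 : ℝ) ≤ (i.2 : ℝ) := Nat.cast_nonneg _
  have h1 : (0 : ℝ) ≤ ((i.1 : ℕ) : ℝ) ^ (i.2 + 1) := by positivity
  nlinarith [mul_nonneg h0 h1]

/-- If `|a| ≤ P` and `e = P` or `e = 0`, `P ≥ 1`, the roots of `T² - aT + e` have absolute value
`≤ P` (real roots have the same sign and sum `a`; nonreal roots have absolute value `√e`), so
`|psum a e m| ≤ 2 P^m`. -/
theorem psum_le (x e : ℤ) (P : ℝ) (hP : 1 ≤ P) (ha : |(x : ℝ)| ≤ P) (he : (e : ℝ) = P ∨ e = 0)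
    (m : ℕ) : |(psum x e m : ℝ)| ≤ 2 * P ^ m := by
  rcases he with he | he
  · obtain ⟨α, β, h1, h2, -, -, h3⟩ := psum_eq x e P (by linarith) ha (by
      rw [he, abs_of_nonneg (by linarith)])
    have h1' : α + β = ((x : ℝ) : ℂ) := by rw [h1]; norm_num
    have h2' : α * β = (P : ℂ) := by
      rw [h2, ← he]
      norm_num
    have hα := Ar_root α β x P hP ha h1' h2'
    have hβ := Ar_root β α x P hP ha (by rw [add_comm]; exact h1') (by rw [mul_comm]; exact h2')
    have h4 : |(psum x e m : ℝ)| = ‖(psum x e m : ℂ)‖ := (Complex.norm_intCast _).symm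
    rw [h4, h3 m]
    refine (norm_add_le _ _).trans ?_
    rw [norm_pow, norm_pow, two_mul]
    exact add_le_add (pow_le_pow_left₀ (norm_nonneg _) hα m)
      (pow_le_pow_left₀ (norm_nonneg _) hβ m)
  · subst he
    have hP0 : (0 : ℝ) ≤ P := by linarith
    have key : ∀ m : ℕ, |(psum x 0 (m + 1) : ℝ)| ≤ P ^ (m + 1) := by
      intro m
      induction m with
      | zero =>
        rw [zero_add, pow_one]
        exact ha
      | succ m ih =>
        have h1 : psum x 0 (m + 1 + 1) = x * psum x 0 (m + 1) := by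
          rw [psum]
          ring
        rw [h1, Int.cast_mul, abs_mul, pow_succ' P (m + 1)]
        exact mul_le_mul ha ih (abs_nonneg _) hP0
    cases m with
    | zero =>
      rw [psum, pow_zero]
      norm_num
    | succ m =>
      have h1 := key m
      have h2 : (0 : ℝ) ≤ P ^ (m + 1) := by positivity
      linarith

/-- `|Tc v| ≤ Σ_{p^m ≤ e^v} 2/m ≤ 2 e^v`: `(p, m) ↦ p^m` is injective on prime powers. -/
theorem Tc_arith (W : WeierstrassCurve ℤ) (v : ℝ) (hv : 0 ≤ v) :
    |Tc (cW W) uW v| ≤ 2 * Real.exp v := by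
  classical
  have hterm : ∀ i : Nat.Primes × ℕ, |cW W i| ≤ 2 := by
    intro i
    refine Ar_cW_le W i (psum_le _ _ _ ?_ (abs_ap_le W i.1 i.1.2) ?_ _)
    · exact_mod_cast i.1.2.one_lt.le
    · unfold ep
      split_ifs
      · right
        rfl
      · left
        norm_num
  set N : ℕ := ⌊Real.exp v⌋₊ with hN
  let φ : Nat.Primes × ℕ → ℕ := fun i => (i.1 : ℕ) ^ (i.2 + 1)
  have hφ : Function.Injective φ := by
    intro i j hij
    apply Nat.Primes.prodNatEquiv.injective
    exact Subtype.ext hij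
  have hu : ∀ i, uW i ≤ v → φ i ∈ Finset.Icc 1 N := by
    intro i hi
    have hp : (0 : ℝ) < ((i.1 : ℕ) : ℝ) := by exact_mod_cast i.1.2.pos
    have h1 : uW i = Real.log (((i.1 : ℕ) : ℝ) ^ (i.2 + 1)) := by
      unfold uW
      rw [Real.log_pow]
      push_cast
      rfl
    rw [h1] at hi
    have h2 : (((i.1 : ℕ) : ℝ) ^ (i.2 + 1)) ≤ Real.exp v :=
      (Real.log_le_iff_le_exp (by positivity)).1 hi
    rw [Finset.mem_Icc]
    refine ⟨Nat.pos_of_ne_zero (pow_ne_zero _ i.1.2.ne_zero), Nat.le_floor ?_⟩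
    show (((i.1 : ℕ) ^ (i.2 + 1) : ℕ) : ℝ) ≤ Real.exp v
    push_cast
    exact h2
  have hfin : {i : Nat.Primes × ℕ | uW i ≤ v}.Finite := by
    refine ((Finset.Icc 1 N).finite_toSet.preimage hφ.injOn).subset ?_
    intro i hi
    exact Finset.mem_coe.2 (hu i hi)
  have hsum : Tc (cW W) uW v = ∑ i ∈ hfin.toFinset, cW W i := by
    unfold Tc
    rw [tsum_eq_sum (s := hfin.toFinset)]
    · refine Finset.sum_congr rfl fun i hi => ?_
      rw [if_pos]
      exact hfin.mem_toFinset.1 hi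
    · intro i hi
      rw [if_neg]
      intro h
      exact hi (hfin.mem_toFinset.2 h)
  have hcard : hfin.toFinset.card ≤ N := by
    have h1 := Finset.card_le_card_of_injOn (s := hfin.toFinset) (t := Finset.Icc 1 N) φ
      (fun i hi => hu i (hfin.mem_toFinset.1 hi)) hφ.injOn
    rwa [Nat.card_Icc, Nat.add_sub_cancel] at h1
  rw [hsum]
  calc |∑ i ∈ hfin.toFinset, cW W i| ≤ ∑ i ∈ hfin.toFinset, |cW W i| :=
        Finset.abs_sum_le_sum_abs _ _
    _ ≤ ∑ i ∈ hfin.toFinset, (2 : ℝ) := Finset.sum_le_sum fun i _ => hterm i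
    _ = 2 * hfin.toFinset.card := by
        rw [Finset.sum_const, nsmul_eq_mul, mul_comm]
    _ ≤ 2 * N := by
        have : ((hfin.toFinset.card : ℕ) : ℝ) ≤ N := by exact_mod_cast hcard
        linarith
    _ ≤ 2 * Real.exp v := by
        have := Nat.floor_le (Real.exp_pos v).le
        rw [← hN] at this
        linarith

theorem Ar_Tc_meas (W : WeierstrassCurve ℤ) : Measurable (Tc (cW W) uW) := by
  apply PhiBasic_tsum_meas (fun i U => if uW i ≤ U then cW W i else 0)
  intro i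
  exact Measurable.ite measurableSet_Ici measurable_const measurable_const

theorem Ar_ee_meas (W : WeierstrassCurve ℤ) (κ : ℝ) (r : ℕ) :
    Measurable (ee (cW W) uW κ r) :=
  ((Ar_Tc_meas W).neg.sub_const κ).sub (Real.measurable_log.const_mul _)

theorem Ar_ee_bd (W : WeierstrassCurve ℤ) (κ : ℝ) (r : ℕ) (v : ℝ) (hv : 0 ≤ v) :
    |ee (cW W) uW κ r v| ≤ 2 * Real.exp v + |κ| + r * |Real.log v| := by
  have h1 := Tc_arith W v hv
  unfold ee
  have h2 : |-Tc (cW W) uW v - κ - r * Real.log v| ≤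
      |Tc (cW W) uW v| + |κ| + |(r : ℝ) * Real.log v| := by
    have h3 := abs_sub (-Tc (cW W) uW v - κ) (r * Real.log v)
    have h4 := abs_sub (-Tc (cW W) uW v) κ
    rw [abs_neg] at h4
    linarith
  have h5 : |(r : ℝ) * Real.log v| = r * |Real.log v| := by
    rw [abs_mul, abs_of_nonneg (Nat.cast_nonneg r)]
  linarith

theorem Ar_ee_loc (W : WeierstrassCurve ℤ) (κ : ℝ) (r : ℕ) (V : ℝ) :
    IntegrableOn (ee (cW W) uW κ r) (Ioc 0 V) := by
  rcases lt_or_ge V 0 with hV | hV
  · rw [Ioc_eq_empty (by linarith)]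
    exact integrableOn_empty
  have hlog : IntegrableOn Real.log (Ioc 0 V) :=
    (intervalIntegrable_iff_integrableOn_Ioc_of_le hV).1 intervalIntegral.intervalIntegrable_log'
  have h1 : IntegrableOn (fun v : ℝ => (2 * Real.exp V + |κ|) + r * |Real.log v|) (Ioc 0 V) :=
    (integrableOn_const measure_Ioc_lt_top.ne).add (hlog.abs.const_mul _)
  refine Integrable.mono' h1 (Ar_ee_meas W κ r).aestronglyMeasurable ?_
  filter_upwards [ae_restrict_mem measurableSet_Ioc] with v hv
  rw [Real.norm_eq_abs]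
  have h2 := Ar_ee_bd W κ r v hv.1.le
  have h3 : Real.exp v ≤ Real.exp V := Real.exp_le_exp.2 hv.2
  linarith

theorem Ar_E1_cont (W : WeierstrassCurve ℤ) (κ : ℝ) (r : ℕ) (V : ℝ) :
    ContinuousOn (E1 (cW W) uW κ r) (Icc 0 V) := by
  have h1 : IntegrableOn (ee (cW W) uW κ r) (Icc 0 V) :=
    (integrableOn_Icc_iff_integrableOn_Ioc (by simp)).2 (Ar_ee_loc W κ r V)
  exact intervalIntegral.continuousOn_primitive h1

theorem Ar_E1_bd (W : WeierstrassCurve ℤ) (κ : ℝ) (r : ℕ) :
    ∃ C : ℝ, 0 ≤ C ∧ ∀ v : ℝ, 0 ≤ v → |E1 (cW W) uW κ r v| ≤ C * Real.exp v := by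
  have hloc := Ar_ee_loc W κ r
  have hab : ∀ V : ℝ, IntegrableOn (fun t => |ee (cW W) uW κ r t|) (Ioc 0 V) :=
    fun V => (hloc V).abs
  have hA : ∀ s : Set ℝ, 0 ≤ ∫ t in s, |ee (cW W) uW κ r t| := fun s =>
    integral_nonneg fun t => abs_nonneg _
  refine ⟨(∫ t in Ioc 0 1, |ee (cW W) uW κ r t|) + (2 + |κ| + r),
    add_nonneg (hA _) (by positivity), fun v hv => ?_⟩
  have h1 : |E1 (cW W) uW κ r v| ≤ ∫ t in Ioc 0 v, |ee (cW W) uW κ r t| := by
    unfold E1
    exact norm_integral_le_integral_norm (μ := volume.restrict (Ioc 0 v))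
      (fun t => ee (cW W) uW κ r t)
  have he1 : 1 ≤ Real.exp v := Real.one_le_exp hv
  refine h1.trans ?_
  rcases le_or_gt v 1 with hv1 | hv1
  · have h2 : (∫ t in Ioc 0 v, |ee (cW W) uW κ r t|) ≤ ∫ t in Ioc 0 1, |ee (cW W) uW κ r t| :=
      setIntegral_mono_set (hab 1) (Eventually.of_forall fun t => abs_nonneg _)
        (Eventually.of_forall (Ioc_subset_Ioc_right hv1))
    have h3 : (0 : ℝ) ≤ 2 + |κ| + r := by positivity
    have h4 := hA (Ioc 0 1)
    nlinarith
  · have hsp : Ioc (0 : ℝ) v = Ioc 0 1 ∪ Ioc 1 v := (Ioc_union_Ioc_eq_Ioc zero_le_one hv1.le).symm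
    have h2 : (∫ t in Ioc 0 v, |ee (cW W) uW κ r t|) = (∫ t in Ioc 0 1, |ee (cW W) uW κ r t|) +
        ∫ t in Ioc 1 v, |ee (cW W) uW κ r t| := by
      rw [hsp, setIntegral_union (disjoint_left.2 fun x hx hx' => absurd hx'.1 (not_lt.2 hx.2))
        measurableSet_Ioc (hab 1)
        ((hab v).mono_set (Ioc_subset_Ioc_left zero_le_one))]
    have hexp : ∫ t in Ioc 1 v, Real.exp t = Real.exp v - Real.exp 1 := by
      rw [← intervalIntegral.integral_of_le hv1.le, integral_exp]
    have hei : IntegrableOn (fun t : ℝ => (2 + |κ| + r) * Real.exp t) (Ioc 1 v) :=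
      ((Real.continuous_exp.integrableOn_Icc).mono_set Ioc_subset_Icc_self).const_mul _
    have h3 : (∫ t in Ioc 1 v, |ee (cW W) uW κ r t|) ≤
        ∫ t in Ioc 1 v, (2 + |κ| + r) * Real.exp t := by
      refine setIntegral_mono_on ((hab v).mono_set (Ioc_subset_Ioc_left zero_le_one)) hei
        measurableSet_Ioc fun t ht => ?_
      have ht0 : 0 < t := by linarith [ht.1]
      have h4 := Ar_ee_bd W κ r t ht0.le
      have h5 : |Real.log t| ≤ Real.exp t := by
        rw [abs_of_nonneg (Real.log_nonneg ht.1.le)]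
        have h6 := Real.log_le_sub_one_of_pos ht0
        have h7 := Real.add_one_le_exp t
        linarith
      have h8 : 1 ≤ Real.exp t := Real.one_le_exp ht0.le
      have h9 : |κ| ≤ |κ| * Real.exp t := le_mul_of_one_le_right (abs_nonneg _) h8
      have h10 : (r : ℝ) * |Real.log t| ≤ r * Real.exp t :=
        mul_le_mul_of_nonneg_left h5 (Nat.cast_nonneg r)
      have h11 : (2 + |κ| + r) * Real.exp t = 2 * Real.exp t + |κ| * Real.exp t +
        r * Real.exp t := by ring
      linarith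
    rw [integral_const_mul, hexp] at h3
    rw [h2]
    have h4 := hA (Ioc 0 1)
    have h5 : (0 : ℝ) ≤ 2 + |κ| + r := by positivity
    have h6 := Real.exp_pos 1
    nlinarith

/-- Between consecutive integers the primitives move by a bounded amount:
`|E1 V - E1 U| ≤ ∫_U^V |ee| ≤ (V - U) (2 e^V + |κ| + r (1 + V)) ` for `log n ≤ U ≤ V ≤ log (n+1)`, `n ≥ 2`,
`log (n+1) - log n ≤ 1/n`; `|E1 U| ≤ C e^U` for `U ≥ 0`, so the same for `E2`. -/
theorem osc (W : WeierstrassCurve ℤ) (κ : ℝ) (r : ℕ) :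
    ∃ K : ℝ, ∀ n : ℕ, 2 ≤ n → ∀ U : ℝ, Real.log n ≤ U → U ≤ Real.log (n + 1) →
      |E2 (cW W) uW κ r U - E2 (cW W) uW κ r (Real.log n)| ≤ K := by
  obtain ⟨C, hC0, hC⟩ := Ar_E1_bd W κ r
  refine ⟨2 * C, fun n hn U h1 h2 => ?_⟩
  have hn0 : (0 : ℝ) < n := by
    have : 0 < n := by omega
    exact_mod_cast this
  have hln : 0 ≤ Real.log n := Real.log_nonneg (by
    have : 1 ≤ n := by omega
    exact_mod_cast this)
  have hU0 : 0 ≤ U := hln.trans h1
  have hint : IntegrableOn (E1 (cW W) uW κ r) (Ioc 0 U) :=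
    (Ar_E1_cont W κ r U).integrableOn_Icc.mono_set Ioc_subset_Icc_self
  have hsp : Ioc (0 : ℝ) U = Ioc 0 (Real.log n) ∪ Ioc (Real.log n) U :=
    (Ioc_union_Ioc_eq_Ioc hln h1).symm
  have h3 : E2 (cW W) uW κ r U - E2 (cW W) uW κ r (Real.log n) =
      ∫ v in Ioc (Real.log n) U, E1 (cW W) uW κ r v := by
    unfold E2
    rw [hsp, setIntegral_union (disjoint_left.2 fun x hx hx' => absurd hx'.1 (not_lt.2 hx.2))
      measurableSet_Ioc (hint.mono_set (Ioc_subset_Ioc_right h1))
      (hint.mono_set (Ioc_subset_Ioc_left hln))]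
    ring
  have h4 : ‖∫ v in Ioc (Real.log n) U, E1 (cW W) uW κ r v‖ ≤
      C * Real.exp U * volume.real (Ioc (Real.log n) U) := by
    refine norm_setIntegral_le_of_norm_le_const measure_Ioc_lt_top fun v hv => ?_
    rw [Real.norm_eq_abs]
    refine (hC v (hln.trans hv.1.le)).trans ?_
    exact mul_le_mul_of_nonneg_left (Real.exp_le_exp.2 hv.2) hC0
  rw [Real.volume_real_Ioc_of_le h1] at h4
  rw [h3, ← Real.norm_eq_abs]
  refine h4.trans ?_
  have h5 : Real.exp U ≤ n + 1 := by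
    have := Real.exp_le_exp.2 h2
    rwa [Real.exp_log (by linarith)] at this
  have h6 : U - Real.log n ≤ 1 / n := by
    have h7 : Real.log (n + 1) - Real.log n = Real.log (1 + 1 / n) := by
      rw [← Real.log_div (by linarith) hn0.ne']
      congr 1
      field_simp
    have h8 := Real.log_le_sub_one_of_pos (show (0 : ℝ) < 1 + 1 / n by positivity)
    linarith
  have h9 : 0 ≤ U - Real.log n := by linarith
  have h10 : (n + 1 : ℝ) * (1 / n) ≤ 2 := by
    rw [mul_one_div, div_le_iff₀ hn0]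
    have : (1 : ℝ) ≤ n := by
      have : 1 ≤ n := by omega
      exact_mod_cast this
    linarith
  have h11 : Real.exp U * (U - Real.log n) ≤ (n + 1) * (1 / n) :=
    mul_le_mul h5 h6 h9 (by linarith)
  calc C * Real.exp U * (U - Real.log n) = C * (Real.exp U * (U - Real.log n)) := by ring
    _ ≤ C * 2 := mul_le_mul_of_nonneg_left (h11.trans h10) hC0
    _ = 2 * C := by ring

/-- From integers to reals: an upper bound (and, with `-`, a lower bound) `E2 (log n) ≤ b log n + C`
for large `n` gives `E2 U ≤ M (1 + U)` for all `U > 0` (`osc`; bounded on `(0, log N]` by continuity,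
`prim_bd`). -/
theorem from_int (W : WeierstrassCurve ℤ) (L : ℂ → ℂ) (H : Hyp (cW W) uW 3 L) (κ : ℝ) (r : ℕ) (b C σ : ℝ)
    (hσ : σ = 1 ∨ σ = -1)
    (h : ∀ᶠ n : ℕ in atTop, σ * E2 (cW W) uW κ r (Real.log n) ≤ b * Real.log n + C) :
    ∃ M : ℝ, 0 ≤ M ∧ ∀ U : ℝ, 0 < U → σ * E2 (cW W) uW κ r U ≤ M * (1 + U) := by
  obtain ⟨K, hK⟩ := osc W κ r
  obtain ⟨-, -, -, C', hC'⟩ := prim_bd H κ r
  obtain ⟨N0, hN0⟩ := eventually_atTop.1 h
  set N : ℕ := max N0 2 with hN
  have hN2 : 2 ≤ N := le_max_right _ _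
  have hNr : (2 : ℝ) ≤ N := by exact_mod_cast hN2
  have hσ' : ∀ t : ℝ, σ * t ≤ |t| := by
    intro t
    rcases hσ with rfl | rfl
    · rw [one_mul]
      exact le_abs_self t
    · rw [neg_one_mul]
      exact neg_le_abs t
  refine ⟨|b| + |C| + |K| + |C'| * Real.exp ((3 + 1) * Real.log N), by positivity,
    fun U hU => ?_⟩
  rcases le_or_gt (Real.log N) U with hUN | hUN
  · have heN : (N : ℝ) ≤ Real.exp U := (Real.log_le_iff_le_exp (by linarith)).1 hUN
    set n : ℕ := ⌊Real.exp U⌋₊ with hn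
    have hnN : N ≤ n := Nat.le_floor heN
    have hn2 : 2 ≤ n := hN2.trans hnN
    have hnr : (2 : ℝ) ≤ n := by exact_mod_cast hn2
    have h1 : (n : ℝ) ≤ Real.exp U := Nat.floor_le (Real.exp_pos U).le
    have h2 : Real.exp U < n + 1 := Nat.lt_floor_add_one _
    have h3 : Real.log n ≤ U := (Real.log_le_iff_le_exp (by linarith)).2 h1
    have h4 : U ≤ Real.log (n + 1) := (Real.le_log_iff_exp_le (by linarith)).2 h2.le
    have h5 := hK n hn2 U h3 h4
    have h6 := hN0 n (le_trans (le_max_left _ _) hnN)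
    have h7 := hσ' (E2 (cW W) uW κ r U - E2 (cW W) uW κ r (Real.log n))
    have h8 : b * Real.log n ≤ |b| * U := by
      have h9 : 0 ≤ Real.log n := Real.log_nonneg (by linarith)
      calc b * Real.log n ≤ |b| * Real.log n := mul_le_mul_of_nonneg_right (le_abs_self b) h9
        _ ≤ |b| * U := mul_le_mul_of_nonneg_left h3 (abs_nonneg b)
    have h10 : σ * E2 (cW W) uW κ r U ≤ |b| * U + |C| + |K| := by
      have h11 := le_abs_self C
      have h12 := le_abs_self K
      rw [mul_sub] at h7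
      linarith
    refine h10.trans ?_
    have h13 : 0 ≤ |C'| * Real.exp ((3 + 1) * Real.log N) := by positivity
    have h14 := abs_nonneg b
    have h15 := abs_nonneg C
    have h16 := abs_nonneg K
    nlinarith [mul_nonneg h15 hU.le, mul_nonneg h16 hU.le, mul_nonneg h13 hU.le]
  · have h1 := (hC' U hU.le).2
    have h2 : |E2 (cW W) uW κ r U| ≤ |C'| * Real.exp ((3 + 1) * Real.log N) := by
      refine h1.trans ?_
      refine mul_le_mul (le_abs_self _) (Real.exp_le_exp.2 ?_) (Real.exp_pos _).le (abs_nonneg _)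
      nlinarith
    have h3 := hσ' (E2 (cW W) uW κ r U)
    have h13 : 0 ≤ |C'| * Real.exp ((3 + 1) * Real.log N) := by positivity
    have h14 := abs_nonneg b
    have h15 := abs_nonneg C
    have h16 := abs_nonneg K
    nlinarith [mul_nonneg h14 hU.le, mul_nonneg h15 hU.le, mul_nonneg h16 hU.le,
      mul_nonneg h13 hU.le]

end BSDN
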