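import Pool.Agent.W_92892c_h19n.Defs
import Pool.Agent.W_92892c_h19.Conv
import Pool.Agent.W_3283e1_lw.Had
import Pool.Agent.W_3283e1_lw.Uni
import Pool.Agent.W_3283e1_lw.Dig
import Pool.Agent.W_3283e1_lw.Cos
import Pool.Agent.W_3283e1_lw.Om
import Pool.Agent.W_3283e1_h53.LapD

set_option autoImplicit false

open MeasureTheory Set Filter Topology

namespace BSDN

open BSDS BSDC Complex W3283l

variable {ι : Type} {c u : ι → ℝ} {a : ℝ} {L : ℂ → ℂ}

/-- Sums over zeros.  `Σ m/γ² (1 - cos γU)` is continuous in `U`, between `0` and `2 Σ m/γ²`, and for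
`Re s > 0` its Laplace transform is `Σ m/(s (s²+γ²))` (as `cos_lap` of module Cos, whose proof uses
of `ZD` only `pos`, `sm` and `1 ≤ m`; `Cos_int`). -/
theorem cos_sum {κ : Type} (γ m : κ → ℝ) (hγ : ∀ i, 0 < γ i) (hm : ∀ i, 1 ≤ m i)
    (hs : Summable (fun i => m i / (γ i) ^ 2)) :
    Continuous (fun U : ℝ => ∑' i, m i / (γ i) ^ 2 * (1 - Real.cos (γ i * U))) ∧
    (∀ U : ℝ, 0 ≤ ∑' i, m i / (γ i) ^ 2 * (1 - Real.cos (γ i * U)) ∧
      ∑' i, m i / (γ i) ^ 2 * (1 - Real.cos (γ i * U)) ≤ 2 * ∑' i, m i / (γ i) ^ 2) ∧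
    ∀ s : ℂ, 0 < s.re →
      ∫ U in Ioi (0 : ℝ), ((∑' i, m i / (γ i) ^ 2 * (1 - Real.cos (γ i * U)) : ℝ) : ℂ) *
        Complex.exp (-(s * U)) = ∑' i, (m i : ℂ) / (s * (s ^ 2 + (γ i : ℂ) ^ 2)) := by
  have hcs : Summable (fun i => 2 * (m i / (γ i) ^ 2)) := hs.mul_left 2
  have hc0 : ∀ i, 0 ≤ m i / (γ i) ^ 2 := fun i => by
    have := hm i
    have := hγ i
    positivity
  have hb : ∀ i (u : ℝ), ‖m i / (γ i) ^ 2 * (1 - Real.cos (γ i * u))‖ ≤
      2 * (m i / (γ i) ^ 2) := by
    intro i u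
    rw [norm_mul, Real.norm_of_nonneg (hc0 i), mul_comm]
    apply mul_le_mul_of_nonneg_right _ (hc0 i)
    rw [Real.norm_eq_abs, abs_le]
    constructor <;> linarith [Real.cos_le_one (γ i * u), Real.neg_one_le_cos (γ i * u)]
  refine ⟨continuous_tsum (fun i => by fun_prop) hcs hb, fun U => ⟨?_, ?_⟩, ?_⟩
  · refine tsum_nonneg fun i => mul_nonneg (hc0 i) ?_
    linarith [Real.cos_le_one (γ i * U)]
  · rw [← tsum_mul_left]
    refine Summable.tsum_le_tsum (fun i => ?_) ?_ hcs
    · exact (le_abs_self _).trans (hb i U)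
    · exact Summable.of_norm_bounded hcs (fun i => hb i U)
  intro s hsr
  have : Countable κ := by
    have h1 := hs.countable_support
    have h2 : Function.support (fun i => m i / (γ i) ^ 2) = Set.univ := by
      ext i
      simp only [Function.mem_support, Set.mem_univ, iff_true]
      have := hm i
      have := hγ i
      positivity
    rw [h2] at h1
    exact Set.countable_univ_iff.mp h1
  have hsn : s ≠ 0 := by
    rintro rfl
    simp at hsr
  set G : κ → ℝ → ℂ := fun i u => ((m i / (γ i) ^ 2 : ℝ) : ℂ) *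
    (((1 - Real.cos (γ i * u) : ℝ) : ℂ) * Complex.exp (-(s * u))) with hG
  have hGi : ∀ i, Integrable (G i) (volume.restrict (Set.Ioi 0)) := fun i =>
    ((Cos_int (γ i) hsr).1).const_mul _
  have hdom : IntegrableOn (fun u : ℝ => Real.exp (-s.re * u)) (Set.Ioi 0) :=
    integrableOn_exp_mul_Ioi (by linarith) 0
  have hGn : ∀ i (u : ℝ), ‖G i u‖ ≤ 2 * (m i / (γ i) ^ 2) * Real.exp (-s.re * u) := by
    intro i u
    have h1 : G i u = ((m i / (γ i) ^ 2 * (1 - Real.cos (γ i * u)) : ℝ) : ℂ) *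
        Complex.exp (-(s * u)) := by
      simp only [hG]
      push_cast
      ring
    rw [h1, norm_mul, Complex.norm_real, Complex.norm_exp]
    have h2 : (-(s * u)).re = -s.re * u := by
      simp
    rw [h2]
    exact mul_le_mul_of_nonneg_right (hb i u) (Real.exp_pos _).le
  have hGs : Summable (fun i => ∫ u in Set.Ioi (0 : ℝ), ‖G i u‖) := by
    refine Summable.of_nonneg_of_le (fun i => integral_nonneg (fun u => norm_nonneg _))
      (fun i => ?_) (hcs.mul_right (∫ u in Set.Ioi (0 : ℝ), Real.exp (-s.re * u)))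
    rw [← integral_const_mul]
    exact integral_mono (hGi i).norm (hdom.const_mul _) (fun u => hGn i u)
  have hsum := hasSum_integral_of_summable_integral_norm hGi hGs
  have e1 : ∀ u : ℝ, ((∑' i, m i / (γ i) ^ 2 * (1 - Real.cos (γ i * u)) : ℝ) : ℂ) *
      Complex.exp (-(s * u)) = ∑' i, G i u := by
    intro u
    rw [Complex.ofReal_tsum, ← tsum_mul_right]
    refine tsum_congr (fun i => ?_)
    simp only [hG]
    push_cast
    ring
  simp_rw [e1]
  rw [← hsum.tsum_eq]
  refine tsum_congr (fun i => ?_)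
  have e2 : ∫ u in Set.Ioi (0 : ℝ), G i u = ((m i / (γ i) ^ 2 : ℝ) : ℂ) *
      ((γ i : ℂ) ^ 2 / (s * (s ^ 2 + (γ i : ℂ) ^ 2))) := by
    simp only [hG]
    rw [integral_const_mul, (Cos_int (γ i) hsr).2]
  rw [e2]
  have hγ' : (γ i : ℂ) ≠ 0 := by
    exact_mod_cast (hγ i).ne'
  push_cast
  by_cases hz : s ^ 2 + (γ i : ℂ) ^ 2 = 0
  · rw [hz]
    simp
  · field_simp

/-! ### The primitives -/

theorem E1_meas (H : Hyp c u a L) (κ : ℝ) (r : ℕ) : Measurable (E1 c u κ r) :=
  W3283g.Ces_Fmeas _ (ee_meas H κ r)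

theorem E2_meas (H : Hyp c u a L) (κ : ℝ) (r : ℕ) : Measurable (E2 c u κ r) :=
  W3283g.Ces_Fmeas _ (E1_meas H κ r)

theorem E1_int (H : Hyp c u a L) (κ : ℝ) (r : ℕ) (σ : ℝ) (hσ : a < σ) :
    IntegrableOn (fun v : ℝ => E1 c u κ r v * Real.exp (-(σ * v))) (Ioi 0) := by
  have ha := H.apos
  exact Conv_Fint (ee c u κ r) (ee_meas H κ r) ((a + σ) / 2) (by linarith)
    (ee_int H κ r _ (by linarith)) σ (by linarith)

theorem E2_int (H : Hyp c u a L) (κ : ℝ) (r : ℕ) (σ : ℝ) (hσ : a < σ) :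
    IntegrableOn (fun v : ℝ => E2 c u κ r v * Real.exp (-(σ * v))) (Ioi 0) := by
  have ha := H.apos
  exact Conv_Fint (E1 c u κ r) (E1_meas H κ r) ((a + σ) / 2) (by linarith)
    (E1_int H κ r _ (by linarith)) σ (by linarith)

theorem E1_loc (H : Hyp c u a L) (κ : ℝ) (r : ℕ) (U : ℝ) :
    IntegrableOn (E1 c u κ r) (Icc 0 U) := by
  have hc : ContinuousOn (E1 c u κ r) (Icc 0 U) := by
    have h1 : IntegrableOn (ee c u κ r) (Icc 0 U) :=
      (integrableOn_Icc_iff_integrableOn_Ioc (by simp)).2 (ee_loc H κ r U)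
    exact intervalIntegral.continuousOn_primitive h1
  exact hc.integrableOn_Icc

/-- `E1^ = Q/s²` -/
theorem E1_lap (H : Hyp c u a L) (κ : ℝ) (r : ℕ) (s : ℂ) (hs : a < s.re) :
    ∫ v in Ioi (0 : ℝ), ((E1 c u κ r v : ℝ) : ℂ) * Complex.exp (-(s * v)) =
      (-Dser c u s + r * ((Real.eulerMascheroniConstant : ℂ) + Complex.log s) - κ) / s ^ 2 := by
  have ha := H.apos
  have hs0 : 0 < s.re := by linarith
  have hsn : s ≠ 0 := by
    rintro rfl
    simp at hs0
  have h1 := W3283g.Ces_fub (ee c u κ r) (ee_meas H κ r) s hs0 (ee_int H κ r s.re hs)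
  have h2 := ee_transform H κ r s hs
  rw [← h2, ← h1]
  unfold E1
  field_simp

/-- `E2^ = Q/s³` -/
theorem E2_lap (H : Hyp c u a L) (κ : ℝ) (r : ℕ) (s : ℂ) (hs : a < s.re) :
    ∫ v in Ioi (0 : ℝ), ((E2 c u κ r v : ℝ) : ℂ) * Complex.exp (-(s * v)) =
      (-Dser c u s + r * ((Real.eulerMascheroniConstant : ℂ) + Complex.log s) - κ) / s ^ 3 := by
  have ha := H.apos
  have hs0 : 0 < s.re := by linarith
  have hsn : s ≠ 0 := by
    rintro rfl
    simp at hs0
  have h1 := W3283g.Ces_fub (E1 c u κ r) (E1_meas H κ r) s hs0 (E1_int H κ r s.re hs)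
  have h2 := E1_lap H κ r s hs
  rw [h2] at h1
  unfold E2
  apply mul_left_cancel₀ hsn
  rw [h1]
  field_simp

/-- Transforms of the primitives: with `Q s = -Dser s + r (γ + log s) - κ`, for `Re s > a`,
`∫ E1 e^{-sU} = Q s/s²`, `∫ E2 e^{-sU} = Q s/s³`, `∫ U E1 e^{-sU} = -(Q/s²)' = 2 Q/s³ - Q'/s²`
(`ee_transform`, `W3283g.Ces_fub` twice, `Conv_Fint`, `lap_deriv`), `Q' = -Dser' + r/s`.  So the
transform of `2 E2 - U E1` is `(-Dser' s + r/s)/s²`. -/
theorem prim_lap (H : Hyp c u a L) (κ : ℝ) (r : ℕ) (s : ℂ) (hs : a < s.re) :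
    IntegrableOn (fun U : ℝ => ((2 * E2 c u κ r U - U * E1 c u κ r U : ℝ) : ℂ) *
      Complex.exp (-(s * U))) (Ioi 0) ∧
    ∫ U in Ioi (0 : ℝ), ((2 * E2 c u κ r U - U * E1 c u κ r U : ℝ) : ℂ) *
      Complex.exp (-(s * U)) = (-deriv (Dser c u) s + r / s) / s ^ 2 := by
  have ha := H.apos
  have hs0 : 0 < s.re := by linarith
  have hsn : s ≠ 0 := by
    rintro rfl
    simp at hs0
  have hm1 := E1_meas H κ r
  have hm2 := E2_meas H κ r
  have hi1 : ∀ σ : ℝ, a < σ → IntegrableOn (fun v : ℝ => E1 c u κ r v * Real.exp (-(σ * v)))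
      (Ioi 0) := fun σ hσ => E1_int H κ r σ hσ
  have hU := W3283g.lap_mul_int (E1 c u κ r) hm1 a hi1 s.re hs
  have hUm : Measurable (fun v : ℝ => v * E1 c u κ r v) := measurable_id.mul hm1
  have j1 : IntegrableOn (fun U : ℝ => ((U * E1 c u κ r U : ℝ) : ℂ) * Complex.exp (-(s * U)))
      (Ioi 0) := Conv_complex _ hUm s hU
  have j2 : IntegrableOn (fun U : ℝ => ((E2 c u κ r U : ℝ) : ℂ) * Complex.exp (-(s * U)))
      (Ioi 0) := Conv_complex _ hm2 s (E2_int H κ r s.re hs)
  have hfun : (fun U : ℝ => ((2 * E2 c u κ r U - U * E1 c u κ r U : ℝ) : ℂ) *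
      Complex.exp (-(s * U))) = fun U : ℝ => (2 : ℂ) * (((E2 c u κ r U : ℝ) : ℂ) *
        Complex.exp (-(s * U))) - ((U * E1 c u κ r U : ℝ) : ℂ) * Complex.exp (-(s * U)) := by
    funext U
    push_cast
    ring
  rw [hfun]
  refine ⟨(j2.const_mul 2).sub j1, ?_⟩
  rw [integral_sub (j2.const_mul 2) j1, integral_const_mul, E2_lap H κ r s hs]
  -- derivative of the transform of `E1`
  have hd1 := W3283g.lap_deriv (E1 c u κ r) hm1 a hi1 s hs
  have hD : HasDerivAt (Dser c u) (deriv (Dser c u) s) s :=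
    (Dser_differentiableAt H s hs).hasDerivAt
  have hlog : HasDerivAt Complex.log s⁻¹ s := by
    refine Complex.hasDerivAt_log ?_
    left
    exact hs0
  have hQ : HasDerivAt (fun z : ℂ => -Dser c u z +
      r * ((Real.eulerMascheroniConstant : ℂ) + Complex.log z) - κ)
      (-deriv (Dser c u) s + r * s⁻¹) s := by
    exact (hD.neg.add ((hlog.const_add _).const_mul _)).sub_const _
  have hd2 : HasDerivAt (fun z : ℂ => (-Dser c u z +
      r * ((Real.eulerMascheroniConstant : ℂ) + Complex.log z) - κ) / z ^ 2)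
      (((-deriv (Dser c u) s + r * s⁻¹) * s ^ 2 - (-Dser c u s +
      r * ((Real.eulerMascheroniConstant : ℂ) + Complex.log s) - κ) * (2 * s)) / (s ^ 2) ^ 2) s := by
    have h2 : HasDerivAt (fun z : ℂ => z ^ 2) (2 * s) s := by
      have := hasDerivAt_pow 2 s
      simpa using this
    exact hQ.div h2 (pow_ne_zero 2 hsn)
  have heq : (fun z : ℂ => ∫ v in Set.Ioi (0 : ℝ), (E1 c u κ r v : ℂ) * Complex.exp (-(z * v)))
      =ᶠ[𝓝 s] fun z : ℂ => (-Dser c u z +
      r * ((Real.eulerMascheroniConstant : ℂ) + Complex.log z) - κ) / z ^ 2 := by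
    have ho : {z : ℂ | a < z.re} ∈ 𝓝 s :=
      (isOpen_lt continuous_const Complex.continuous_re).mem_nhds hs
    filter_upwards [ho] with z hz
    exact E1_lap H κ r z hz
  have h3 := hd1.unique (hd2.congr_of_eventuallyEq heq)
  have h4 : ∫ U in Ioi (0 : ℝ), ((U * E1 c u κ r U : ℝ) : ℂ) * Complex.exp (-(s * U)) =
      -(((-deriv (Dser c u) s + r * s⁻¹) * s ^ 2 - (-Dser c u s +
      r * ((Real.eulerMascheroniConstant : ℂ) + Complex.log s) - κ) * (2 * s)) / (s ^ 2) ^ 2) := by
    rw [← h3, neg_neg]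
  rw [h4]
  field_simp
  ring

/-- Bounds and continuity of the primitives on `U ≥ 0` (`ee_loc`, `ee_int`, `Conv_bound` twice). -/
theorem prim_bd (H : Hyp c u a L) (κ : ℝ) (r : ℕ) :
    ContinuousOn (E1 c u κ r) (Ici 0) ∧ ContinuousOn (E2 c u κ r) (Ici 0) ∧
    (∀ U : ℝ, 0 < U → HasDerivAt (E2 c u κ r) (E1 c u κ r U) U) ∧
    ∃ C : ℝ, ∀ U : ℝ, 0 ≤ U → |E1 c u κ r U| ≤ C * Real.exp ((a + 1) * U) ∧
      |E2 c u κ r U| ≤ C * Real.exp ((a + 1) * U) := by
  have ha := H.apos
  have hprim : ∀ f : ℝ → ℝ, (∀ T : ℝ, IntegrableOn f (Set.Icc 0 T)) →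
      ContinuousOn (fun u => ∫ t in Set.Ioc 0 u, f t) (Set.Ici 0) := by
    intro f hf x hx
    have hx0 : (0 : ℝ) ≤ x := hx
    have h1 : ContinuousOn (fun u => ∫ t in Set.Ioc 0 u, f t) (Set.Icc 0 (x + 1)) :=
      intervalIntegral.continuousOn_primitive (hf (x + 1))
    have h2 := h1 x ⟨hx0, by linarith⟩
    refine h2.mono_of_mem_nhdsWithin ?_
    rw [mem_nhdsWithin]
    exact ⟨Set.Iio (x + 1), isOpen_Iio, Set.mem_Iio.2 (by linarith),
      fun y hy => ⟨hy.2, (Set.mem_Iio.1 hy.1).le⟩⟩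
  have hc1 : ContinuousOn (E1 c u κ r) (Ici 0) := hprim _ fun T =>
    (integrableOn_Icc_iff_integrableOn_Ioc (by simp)).2 (ee_loc H κ r T)
  have hc2 : ContinuousOn (E2 c u κ r) (Ici 0) := hprim _ fun T => E1_loc H κ r T
  refine ⟨hc1, hc2, ?_, ?_⟩
  · intro U hU
    have h1 : ContinuousAt (E1 c u κ r) U := hc1.continuousAt (Ici_mem_nhds hU)
    have hi : IntervalIntegrable (E1 c u κ r) volume 0 U := by
      rw [intervalIntegrable_iff_integrableOn_Icc_of_le hU.le]
      exact E1_loc H κ r U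
    have hsm : StronglyMeasurableAtFilter (E1 c u κ r) (𝓝 U) :=
      (E1_meas H κ r).stronglyMeasurable.stronglyMeasurableAtFilter
    have h2 := intervalIntegral.integral_hasDerivAt_right hi hsm h1
    refine h2.congr_of_eventuallyEq ?_
    filter_upwards [Ioi_mem_nhds hU] with V hV
    have hV0 : (0 : ℝ) < V := hV
    rw [intervalIntegral.integral_of_le hV0.le]
    rfl
  · refine ⟨max (∫ v in Ioi (0 : ℝ), |ee c u κ r v * Real.exp (-((a + 1) * v))|)
      (∫ v in Ioi (0 : ℝ), |E1 c u κ r v * Real.exp (-((a + 1) * v))|), fun U _ => ⟨?_, ?_⟩⟩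
    · refine (Conv_bound (ee c u κ r) (a + 1) (by linarith)
        (ee_int H κ r (a + 1) (by linarith)) U).trans ?_
      exact mul_le_mul_of_nonneg_right (le_max_left _ _) (Real.exp_pos _).le
    · refine (Conv_bound (E1 c u κ r) (a + 1) (by linarith)
        (E1_int H κ r (a + 1) (by linarith)) U).trans ?_
      exact mul_le_mul_of_nonneg_right (le_max_right _ _) (Real.exp_pos _).le

/-- The primitive of `om`. -/
theorem om_prim : ContinuousOn (fun U : ℝ => ∫ t in Ioc 0 U, om t) (Ici 0) ∧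
    (∀ U : ℝ, 0 ≤ U → 0 ≤ ∫ t in Ioc 0 U, om t) ∧
    (∀ U : ℝ, 0 ≤ U → ∫ t in Ioc 0 U, om t ≤ ∫ t in Ioi (0 : ℝ), om t) := by
  refine ⟨?_, ?_, ?_⟩
  · intro x hx
    have hx0 : (0 : ℝ) ≤ x := hx
    have h1 : ContinuousOn (fun u => ∫ t in Set.Ioc 0 u, om t) (Set.Icc 0 (x + 1)) := by
      refine intervalIntegral.continuousOn_primitive ?_
      rw [integrableOn_Icc_iff_integrableOn_Ioc]
      exact om_int.mono_set Set.Ioc_subset_Ioi_self
    have h2 := h1 x ⟨hx0, by linarith⟩
    refine h2.mono_of_mem_nhdsWithin ?_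
    rw [mem_nhdsWithin]
    exact ⟨Set.Iio (x + 1), isOpen_Iio, Set.mem_Iio.2 (by linarith),
      fun y hy => ⟨hy.2, (Set.mem_Iio.1 hy.1).le⟩⟩
  · intro U _
    exact setIntegral_nonneg measurableSet_Ioc fun t ht => om_nonneg t ht.1
  · intro U _
    refine setIntegral_mono_set om_int ?_ ?_
    · exact (ae_restrict_iff' measurableSet_Ioi).2
        (Filter.Eventually.of_forall fun t ht => om_nonneg t ht)
    · exact Filter.Eventually.of_forall fun t ht => ht.1

theorem Efm_split (f1 f2 f3 f4 : ℝ → ℂ) (i1 : IntegrableOn f1 (Set.Ioi 0))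
    (i2 : IntegrableOn f2 (Set.Ioi 0)) (i3 : IntegrableOn f3 (Set.Ioi 0))
    (i4 : IntegrableOn f4 (Set.Ioi 0)) :
    ∫ u in Set.Ioi (0 : ℝ), (f1 u - f2 u - f3 u + (2 : ℂ) * f4 u) =
      (∫ u in Set.Ioi (0 : ℝ), f1 u) - (∫ u in Set.Ioi (0 : ℝ), f2 u) -
        (∫ u in Set.Ioi (0 : ℝ), f3 u) + (2 : ℂ) * ∫ u in Set.Ioi (0 : ℝ), f4 u := by
  rw [integral_add (f := fun u => f1 u - f2 u - f3 u) (g := fun u => (2 : ℂ) * f4 u)
    ((i1.sub i2).sub i3) (i4.const_mul 2),
    integral_sub (f := fun u => f1 u - f2 u) (g := f3) (i1.sub i2) i3, integral_sub i1 i2,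
    integral_const_mul]

/-- The explicit formula.  The function `2 E2 - U E1 - b U - ∫_0^U om + 2 w` is continuous on `[0,∞)`,
bounded by `C e^{(a+2)U}`, and for `Re s > a + 2` its transform is `0`: `prim_lap`, `dig_int` with
`Ces_fub`, `cos_sum`, and the identity `hid`; `lap_unique`. -/
theorem efm (H : Hyp c u a L) (κ b : ℝ) (r : ℕ) {J : Type} (γ m : J → ℝ) (hγ : ∀ i, 0 < γ i)
    (hm : ∀ i, 1 ≤ m i) (hsm : Summable (fun i => m i / (γ i) ^ 2))
    (hid : ∀ s : ℂ, a < s.re → -deriv (Dser c u) s + r / s =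
      b + (Complex.digamma (1 + s) + Real.eulerMascheroniConstant) -
        ∑' i, 2 * (m i : ℂ) * s / (s ^ 2 + (γ i : ℂ) ^ 2))
    (U : ℝ) (hU : 0 ≤ U) :
    2 * E2 c u κ r U - U * E1 c u κ r U = b * U + (∫ t in Ioc 0 U, om t) -
      2 * ∑' i, m i / (γ i) ^ 2 * (1 - Real.cos (γ i * U)) := by
  have ha := H.apos
  obtain ⟨hc1, hc2, -, C, hC⟩ := prim_bd H κ r
  obtain ⟨hoc, ho0, hoW⟩ := om_prim
  obtain ⟨hwc, hwb, hwl⟩ := cos_sum γ m hγ hm hsm
  obtain ⟨W, hWdef⟩ : ∃ W : ℝ, W = ∫ t in Set.Ioi (0 : ℝ), om t := ⟨_, rfl⟩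
  have hW0 : 0 ≤ W := by
    rw [hWdef]
    exact setIntegral_nonneg measurableSet_Ioi fun t ht => om_nonneg t ht
  set Z : ℝ := ∑' i, m i / (γ i) ^ 2 with hZ
  set w : ℝ → ℝ := fun U => ∑' i, m i / (γ i) ^ 2 * (1 - Real.cos (γ i * U)) with hw
  have hZ0 : 0 ≤ Z := tsum_nonneg fun i => by
    have := hm i
    have := hγ i
    positivity
  have hC0 : 0 ≤ C := by
    have h1 := (hC 0 le_rfl).1
    rw [mul_zero, Real.exp_zero, mul_one] at h1
    exact (abs_nonneg _).trans h1
  have key : ∀ U : ℝ, 0 ≤ U → (fun U : ℝ => (2 * E2 c u κ r U - U * E1 c u κ r U) - b * U -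
      (∫ t in Ioc 0 U, om t) + 2 * w U) U = 0 := by
    refine lap_unique _ ?_ (a + 2) (3 * C + |b| + W + 4 * Z) ?_ ?_
    · refine (((hc2.const_mul 2).sub ?_).sub ?_).sub hoc |>.add ?_
      · exact continuousOn_id.mul hc1
      · fun_prop
      · exact (hwc.continuousOn).const_mul 2
    · intro V hV
      have h1 := (hC V hV).1
      have h2 := (hC V hV).2
      have hV1 : V ≤ Real.exp V := by linarith [Real.add_one_le_exp V]
      have hE : Real.exp ((a + 2) * V) = Real.exp ((a + 1) * V) * Real.exp V := by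
        rw [← Real.exp_add]
        congr 1
        ring
      have hE1 : 1 ≤ Real.exp V := Real.one_le_exp hV
      have hE2 : 1 ≤ Real.exp ((a + 1) * V) := Real.one_le_exp (by positivity)
      have hE3 : Real.exp ((a + 1) * V) ≤ Real.exp ((a + 2) * V) := by
        rw [hE]
        nlinarith
      have hE4 : Real.exp V ≤ Real.exp ((a + 2) * V) := by
        rw [hE]
        nlinarith
      have b1 : |2 * E2 c u κ r V| ≤ 2 * C * Real.exp ((a + 2) * V) := by
        rw [abs_mul, abs_two]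
        have := mul_le_mul_of_nonneg_left hE3 hC0
        nlinarith
      have b2 : |V * E1 c u κ r V| ≤ C * Real.exp ((a + 2) * V) := by
        rw [abs_mul, abs_of_nonneg hV, hE]
        calc V * |E1 c u κ r V| ≤ Real.exp V * (C * Real.exp ((a + 1) * V)) :=
              mul_le_mul hV1 h1 (abs_nonneg _) (Real.exp_pos _).le
          _ = _ := by ring
      have b3 : |b * V| ≤ |b| * Real.exp ((a + 2) * V) := by
        rw [abs_mul, abs_of_nonneg hV]
        exact mul_le_mul_of_nonneg_left (hV1.trans hE4) (abs_nonneg _)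
      have b4 : |∫ t in Ioc 0 V, om t| ≤ W * Real.exp ((a + 2) * V) := by
        rw [abs_of_nonneg (ho0 V hV)]
        have h3 := hoW V hV
        rw [← hWdef] at h3
        have h4 : 1 ≤ Real.exp ((a + 2) * V) := hE1.trans hE4
        nlinarith
      have b5 : |2 * w V| ≤ 4 * Z * Real.exp ((a + 2) * V) := by
        have h3 := hwb V
        have h4 : 1 ≤ Real.exp ((a + 2) * V) := hE1.trans hE4
        rw [abs_of_nonneg (by linarith [h3.1])]
        have h5 : w V ≤ 2 * Z := h3.2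
        nlinarith
      rw [abs_le] at b1 b2 b3 b4 b5 ⊢
      constructor
      · linarith [b1.1, b2.2, b3.2, b4.2, b5.1]
      · linarith [b1.2, b2.1, b3.1, b4.1, b5.2]
    · intro s hs1
      have hs0 : 0 < s.re := by linarith
      have hsn : s ≠ 0 := by
        rintro rfl
        simp at hs0
      obtain ⟨i1, v1⟩ := prim_lap H κ r s (by linarith)
      have hexpc : ∀ (f : ℝ → ℝ) (K : ℝ), ContinuousOn f (Ici 0) →
          (∀ v : ℝ, 0 ≤ v → |f v| ≤ K * Real.exp v) →
          IntegrableOn (fun v : ℝ => (f v : ℂ) * Complex.exp (-(s * v))) (Ioi 0) := by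
        intro f K hf hb
        have h1 := (integrableOn_exp_mul_Ioi (a := 1 - s.re) (by linarith) 0).const_mul K
        refine Integrable.mono' h1 ?_ ?_
        · refine ContinuousOn.aestronglyMeasurable ?_ measurableSet_Ioi
          refine ContinuousOn.mul ?_ (by fun_prop)
          exact Complex.continuous_ofReal.comp_continuousOn (hf.mono Set.Ioi_subset_Ici_self)
        · refine (ae_restrict_iff' measurableSet_Ioi).2 (Filter.Eventually.of_forall fun u hu => ?_)
          have hu0 : (0 : ℝ) < u := hu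
          rw [norm_mul, Ee_norm_exp, Complex.norm_real, Real.norm_eq_abs]
          have h2 := hb u hu0.le
          have h3 : K * Real.exp ((1 - s.re) * u) =
              K * Real.exp u * Real.exp (-(s.re * u)) := by
            rw [mul_assoc, ← Real.exp_add]
            congr 2
            ring
          rw [h3]
          exact mul_le_mul_of_nonneg_right h2 (Real.exp_pos _).le
      have i2 := hexpc (fun v => b * v) |b| (by fun_prop) (fun v hv => by
        rw [abs_mul, abs_of_nonneg hv]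
        exact mul_le_mul_of_nonneg_left (by linarith [Real.add_one_le_exp v]) (abs_nonneg _))
      have i3 := hexpc (fun v => ∫ t in Ioc 0 v, om t) W hoc (fun v hv => by
        rw [abs_of_nonneg (ho0 v hv)]
        have h3 := hoW v hv
        rw [← hWdef] at h3
        have h4 : 1 ≤ Real.exp v := Real.one_le_exp hv
        nlinarith)
      have i4 := hexpc (fun v => w v) (2 * Z) hwc.continuousOn (fun v hv => by
        have h3 := hwb v
        have h4 : 1 ≤ Real.exp v := Real.one_le_exp hv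
        rw [abs_of_nonneg h3.1]
        have h5 : w v ≤ 2 * Z := h3.2
        nlinarith)
      have hfun : ∀ v : ℝ, ((((2 * E2 c u κ r v - v * E1 c u κ r v) - b * v -
          (∫ t in Ioc 0 v, om t) + 2 * w v : ℝ) : ℝ) : ℂ) * Complex.exp (-(s * v)) =
          ((2 * E2 c u κ r v - v * E1 c u κ r v : ℝ) : ℂ) * Complex.exp (-(s * v)) -
          ((b * v : ℝ) : ℂ) * Complex.exp (-(s * v)) -
          ((∫ t in Ioc 0 v, om t : ℝ) : ℂ) * Complex.exp (-(s * v)) +
          (2 : ℂ) * (((w v : ℝ) : ℂ) * Complex.exp (-(s * v))) := by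
        intro v
        push_cast
        ring
      simp_rw [hfun]
      rw [Efm_split _ _ _ _ i1 i2 i3 i4, v1, hwl s hs0, hid s (by linarith)]
      have f2 : ∫ v in Ioi (0 : ℝ), ((b * v : ℝ) : ℂ) * Complex.exp (-(s * v)) =
          (b : ℂ) / s ^ 2 := by
        have hre : (-s).re < 0 := by
          rw [Complex.neg_re]
          linarith
        have h1 := W3283g.Ces_fub (fun _ => 1) measurable_const s hs0 (by
          have := integrableOn_exp_mul_Ioi (a := -s.re) (by linarith) 0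
          refine this.congr_fun (fun u _ => ?_) measurableSet_Ioi
          simp)
        have h2 : ∫ u in Set.Ioi (0 : ℝ), ((1 : ℝ) : ℂ) * Complex.exp (-(s * u)) = 1 / s := by
          have h3 := integral_exp_mul_complex_Ioi hre 0
          simp only [neg_mul, Complex.ofReal_zero, mul_zero, Complex.exp_zero] at h3
          simp only [Complex.ofReal_one, one_mul]
          rw [h3, neg_div_neg_eq]
        rw [h2] at h1
        have h3 : ∫ v in Ioi (0 : ℝ), ((b * v : ℝ) : ℂ) * Complex.exp (-(s * v)) =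
            (b : ℂ) * ∫ v in Ioi (0 : ℝ), ((∫ t in Set.Ioc 0 v, (1 : ℝ) : ℝ) : ℂ) *
              Complex.exp (-(s * v)) := by
          rw [← integral_const_mul]
          refine setIntegral_congr_fun measurableSet_Ioi fun v hv => ?_
          have hv0 : (0 : ℝ) < v := hv
          show ((b * v : ℝ) : ℂ) * Complex.exp (-(s * v)) = (b : ℂ) *
            (((∫ t in Set.Ioc 0 v, (1 : ℝ) : ℝ) : ℂ) * Complex.exp (-(s * v)))
          rw [setIntegral_const, smul_eq_mul, mul_one, Real.volume_real_Ioc_of_le hv0.le, sub_zero]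
          push_cast
          ring
        rw [h3]
        apply mul_left_cancel₀ hsn
        rw [mul_left_comm, h1]
        field_simp
      have f3 : ∫ v in Ioi (0 : ℝ), ((∫ t in Ioc 0 v, om t : ℝ) : ℂ) * Complex.exp (-(s * v)) =
          (Complex.digamma (1 + s) + Real.eulerMascheroniConstant) / s ^ 2 := by
        have h1 := W3283g.Ces_fub om om_meas s hs0 (by
          refine Integrable.mono' om_int (om_meas.mul (by fun_prop)).aestronglyMeasurable ?_
          refine (ae_restrict_iff' measurableSet_Ioi).2 (Filter.Eventually.of_forall fun u hu => ?_)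
          have hu0 : (0 : ℝ) < u := hu
          rw [norm_mul, Real.norm_of_nonneg (Real.exp_pos _).le,
            Real.norm_of_nonneg (om_nonneg u hu0)]
          have h2 : Real.exp (-(s.re * u)) ≤ 1 := by
            rw [Real.exp_le_one_iff]
            have : 0 ≤ s.re * u := by positivity
            linarith
          have h3 := om_nonneg u hu0
          nlinarith)
        have h2 := dig_int s hs0
        rw [← h2, ← h1]
        field_simp
      rw [f2, f3]
      have f4 : ∑' i, 2 * (m i : ℂ) * s / (s ^ 2 + (γ i : ℂ) ^ 2) =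
          2 * s ^ 2 * ∑' i, (m i : ℂ) / (s * (s ^ 2 + (γ i : ℂ) ^ 2)) := by
        rw [← tsum_mul_left]
        refine tsum_congr fun i => ?_
        by_cases hz : s ^ 2 + (γ i : ℂ) ^ 2 = 0
        · rw [hz]
          simp
        · field_simp
      rw [f4]
      field_simp
      ring
  have h1 := key U hU
  simp only at h1
  linarith

end BSDN
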