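import Pool.Agent.W_92892c_h19n.Defs
import Pool.Agent.W_92892c.DserBasic
import Pool.Agent.W_3283e1_lw.Had

set_option autoImplicit false

open MeasureTheory Set Filter Topology

namespace BSDN

open BSDS BSDC Complex

variable {ι : Type} {c u : ι → ℝ} {a : ℝ} {L : ℂ → ℂ}

theorem Ldv_gamma_ne (s : ℂ) (hs : -1 < s.re) : Complex.Gamma (1 + s) ≠ 0 :=
  Complex.Gamma_ne_zero_of_re_pos (by
    rw [Complex.add_re, Complex.one_re]
    linarith)

theorem Ldv_gamma_diff (s : ℂ) (hs : -1 < s.re) : DifferentiableAt ℂ Complex.Gamma (1 + s) :=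
  Complex.differentiableAt_Gamma _ (fun m hm => by
    have := congrArg Complex.re hm
    rw [Complex.add_re, Complex.one_re, Complex.neg_re, Complex.natCast_re] at this
    have h5 : (0 : ℝ) ≤ m := Nat.cast_nonneg m
    linarith)

theorem Ldv_fac_ne (A : ℝ) (hA : 0 < A) (s : ℂ) (hs : -1 < s.re) :
    (A : ℂ) ^ (1 + s) * Complex.Gamma (1 + s) ≠ 0 := by
  refine mul_ne_zero ?_ (Ldv_gamma_ne s hs)
  rw [Ne, Complex.cpow_eq_zero_iff]
  intro h
  have := Complex.ofReal_eq_zero.1 h.1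
  linarith

/-- The logarithmic derivative of the completed function for `Re s > a`: near `s`,
`f = A^(1+·) Γ(1+·) exp(Dser)` (`H.LD`), `Γ(1+s) ≠ 0`, `Complex.digamma = logDeriv Γ`
(as in `W3283l.log_id`, module Fam of W_3283e1_lw, `h1`-`h4`). -/
theorem ldv (H : Hyp c u a L) (A : ℝ) (hA : 0 < A) (f : ℂ → ℂ) (hf : Differentiable ℂ f)
    (hfe : ∀ s : ℂ, -1 < s.re → f s = (A : ℂ) ^ (1 + s) * Complex.Gamma (1 + s) * L s)
    (s : ℂ) (hs : a < s.re) :
    deriv f s / f s = Real.log A + Complex.digamma (1 + s) + deriv (Dser c u) s := by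
  have hs1 : -1 < s.re := by
    have := H.apos
    linarith
  have hAC : (A : ℂ) ≠ 0 := by
    intro h
    have := Complex.ofReal_eq_zero.1 h
    linarith
  have hg : ∀ᶠ z in 𝓝 s, f z = (A : ℂ) ^ (1 + z) * Complex.Gamma (1 + z) *
      Complex.exp (Dser c u z) := by
    have ho : {z : ℂ | a < z.re} ∈ 𝓝 s :=
      (isOpen_lt continuous_const Complex.continuous_re).mem_nhds hs
    filter_upwards [ho] with z hz
    have hz' : a < z.re := hz
    have := H.apos
    rw [hfe z (by linarith), H.LD z hz'.le]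
  have hadd : HasDerivAt (fun z : ℂ => 1 + z) 1 s := (hasDerivAt_id s).const_add 1
  have h1 : HasDerivAt (fun z : ℂ => (A : ℂ) ^ (1 + z)) ((A : ℂ) ^ (1 + s) * Complex.log A) s := by
    have := hadd.const_cpow (c := (A : ℂ)) (Or.inl hAC)
    simpa using this
  have h2 : HasDerivAt (fun z : ℂ => Complex.Gamma (1 + z)) (deriv Complex.Gamma (1 + s)) s := by
    have := (Ldv_gamma_diff s hs1).hasDerivAt.comp s hadd
    rw [mul_one] at this
    exact this
  have h3 : HasDerivAt (fun z : ℂ => Complex.exp (Dser c u z))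
      (Complex.exp (Dser c u s) * deriv (Dser c u) s) s :=
    (Dser_differentiableAt H s hs).hasDerivAt.cexp
  have h4 := (h1.mul h2).mul h3
  have h5 : deriv f s = deriv (fun z : ℂ => (A : ℂ) ^ (1 + z) * Complex.Gamma (1 + z) *
      Complex.exp (Dser c u z)) s := Filter.EventuallyEq.deriv_eq hg
  have h6 : deriv (fun z : ℂ => (A : ℂ) ^ (1 + z) * Complex.Gamma (1 + z) *
      Complex.exp (Dser c u z)) s = _ := h4.deriv
  rw [h5, h6, hg.self_of_nhds, Complex.ofReal_log hA.le, Complex.digamma_def, logDeriv_apply]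
  have hG := Ldv_gamma_ne s hs1
  have hP : (A : ℂ) ^ (1 + s) ≠ 0 := left_ne_zero_of_mul (Ldv_fac_ne A hA s hs1)
  have hE := Complex.exp_ne_zero (Dser c u s)
  simp only [Pi.mul_apply]
  field_simp

/-- `f` is real and positive on `(0,∞)` when `L` is; here: `L x` real and `> 0` for `x > 0`. -/
theorem f_pos (A : ℝ) (hA : 0 < A) (f : ℂ → ℂ)
    (hfe : ∀ s : ℂ, -1 < s.re → f s = (A : ℂ) ^ (1 + s) * Complex.Gamma (1 + s) * L s)
    (hpos : ∀ x : ℝ, 0 < x → (L x).im = 0 ∧ 0 < (L x).re) (x : ℝ) (hx : 0 < x) :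
    f x = ((A ^ (1 + x) * Real.Gamma (1 + x) * (L x).re : ℝ) : ℂ) ∧
      0 < A ^ (1 + x) * Real.Gamma (1 + x) * (L x).re := by
  obtain ⟨him, hre⟩ := hpos x hx
  have hG : 0 < Real.Gamma (1 + x) := Real.Gamma_pos_of_pos (by linarith)
  refine ⟨?_, by positivity⟩
  rw [hfe (x : ℂ) (by rw [Complex.ofReal_re]; linarith)]
  have h1 : (1 : ℂ) + (x : ℂ) = ((1 + x : ℝ) : ℂ) := by push_cast; ring
  have h2 : L x = ((L x).re : ℂ) := by
    apply Complex.ext
    · rw [Complex.ofReal_re]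
    · rw [Complex.ofReal_im, him]
  rw [h1, Complex.Gamma_ofReal, ← Complex.ofReal_cpow hA.le]
  rw [h2]
  push_cast
  rw [Complex.ofReal_re]

/-- The order of `f` at `0` is `r` and `f s / s^r → A lam`: `f s/s^r = A^(1+s) Γ(1+s) (L s/s^r)`,
continuity; the order from the limit (as in `exists_order`, module NearZero of W_92892c; an analytic
`f` with `f s/s^r → l ≠ 0` has `analyticOrderAt f 0 = r`). -/
theorem f_lead (A : ℝ) (hA : 0 < A) (f : ℂ → ℂ) (hf : Differentiable ℂ f)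
    (hfe : ∀ s : ℂ, -1 < s.re → f s = (A : ℂ) ^ (1 + s) * Complex.Gamma (1 + s) * L s)
    (r : ℕ) (lam : ℝ) (hlam : 0 < lam)
    (hlim : Tendsto (fun s : ℂ => L s / s ^ r) (𝓝[≠] 0) (𝓝 (lam : ℂ))) :
    analyticOrderNatAt f 0 = r ∧
      Tendsto (fun s : ℂ => f s / s ^ r) (𝓝[≠] 0) (𝓝 ((A * lam : ℝ) : ℂ)) := by
  have hA0 : A * lam ≠ 0 := (mul_pos hA hlam).ne'
  have hfac : Tendsto (fun s : ℂ => (A : ℂ) ^ (1 + s) * Complex.Gamma (1 + s)) (𝓝[≠] 0)
      (𝓝 (A : ℂ)) := by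
    have hAC : (A : ℂ) ≠ 0 := by
      intro h
      have := Complex.ofReal_eq_zero.1 h
      linarith
    have hc1 : ContinuousAt (fun s : ℂ => (A : ℂ) ^ (1 + s)) 0 := by
      have hadd : HasDerivAt (fun z : ℂ => 1 + z) 1 (0 : ℂ) := (hasDerivAt_id _).const_add 1
      exact (hadd.const_cpow (c := (A : ℂ)) (Or.inl hAC)).continuousAt
    have hc2 : ContinuousAt (fun s : ℂ => Complex.Gamma (1 + s)) 0 := by
      have hadd : HasDerivAt (fun z : ℂ => 1 + z) 1 (0 : ℂ) := (hasDerivAt_id _).const_add 1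
      exact ((Ldv_gamma_diff 0 (by simp)).hasDerivAt.comp 0 hadd).continuousAt
    have h1 := (hc1.mul hc2).tendsto
    simp only [Pi.mul_apply, add_zero, Complex.cpow_one, Complex.Gamma_one, mul_one] at h1
    exact h1.mono_left nhdsWithin_le_nhds
  have hlim2 : Tendsto (fun s : ℂ => f s / s ^ r) (𝓝[≠] 0) (𝓝 ((A * lam : ℝ) : ℂ)) := by
    have h1 := hfac.mul hlim
    rw [← Complex.ofReal_mul] at h1
    refine h1.congr' ?_
    have ho : {z : ℂ | -1 < z.re} ∈ 𝓝 (0 : ℂ) :=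
      (isOpen_lt continuous_const Complex.continuous_re).mem_nhds (by simp)
    filter_upwards [mem_nhdsWithin_of_mem_nhds ho] with z hz
    rw [hfe z hz]
    ring
  refine ⟨?_, hlim2⟩
  have hne : ((A * lam : ℝ) : ℂ) ≠ 0 := by exact_mod_cast hA0
  have hana : AnalyticAt ℂ f 0 := hf.analyticAt 0
  have hnot : analyticOrderAt f 0 ≠ ⊤ := by
    intro htop
    rw [analyticOrderAt_eq_top] at htop
    have h2 : Tendsto (fun s : ℂ => f s / s ^ r) (𝓝[≠] 0) (𝓝 0) := by
      refine (tendsto_const_nhds (x := (0 : ℂ))).congr' ?_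
      filter_upwards [htop.filter_mono nhdsWithin_le_nhds] with z hz
      rw [hz, zero_div]
    exact hne (tendsto_nhds_unique hlim2 h2)
  obtain ⟨n, hn⟩ := ENat.ne_top_iff_exists.1 hnot
  obtain ⟨g, hg, hg0, he⟩ := hana.analyticOrderAt_eq_natCast.1 hn.symm
  have hgt : Tendsto (fun s : ℂ => f s / s ^ n) (𝓝[≠] 0) (𝓝 (g 0)) := by
    have h2 : Tendsto g (𝓝[≠] 0) (𝓝 (g 0)) :=
      hg.continuousAt.tendsto.mono_left nhdsWithin_le_nhds
    refine h2.congr' ?_
    filter_upwards [he.filter_mono nhdsWithin_le_nhds, self_mem_nhdsWithin] with z hz hz0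
    have hz0' : z ≠ 0 := hz0
    rw [hz, sub_zero, smul_eq_mul, mul_div_cancel_left₀ _ (pow_ne_zero _ hz0')]
  have hpow : ∀ k : ℕ, 0 < k → Tendsto (fun s : ℂ => s ^ k) (𝓝[≠] 0) (𝓝 0) := by
    intro k hk
    have h2 : Tendsto (fun s : ℂ => s ^ k) (𝓝 0) (𝓝 ((0 : ℂ) ^ k)) :=
      (continuous_pow k).tendsto 0
    rw [zero_pow hk.ne'] at h2
    exact h2.mono_left nhdsWithin_le_nhds
  have hnr : n = r := by
    rcases lt_trichotomy n r with h | h | h
    · exfalso
      obtain ⟨k, hk, rfl⟩ : ∃ k, 0 < k ∧ r = n + k := ⟨r - n, by omega, by omega⟩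
      have h2 := hlim2.mul (hpow k hk)
      rw [mul_zero] at h2
      have h3 : Tendsto (fun s : ℂ => f s / s ^ n) (𝓝[≠] 0) (𝓝 0) := by
        refine h2.congr' ?_
        filter_upwards [self_mem_nhdsWithin] with z hz0
        have hz0' : z ≠ 0 := hz0
        rw [pow_add]
        field_simp
      exact hg0 (tendsto_nhds_unique hgt h3)
    · exact h
    · exfalso
      obtain ⟨k, hk, rfl⟩ : ∃ k, 0 < k ∧ n = r + k := ⟨n - r, by omega, by omega⟩
      have h2 := hgt.mul (hpow k hk)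
      rw [mul_zero] at h2
      have h3 : Tendsto (fun s : ℂ => f s / s ^ r) (𝓝[≠] 0) (𝓝 0) := by
        refine h2.congr' ?_
        filter_upwards [self_mem_nhdsWithin] with z hz0
        have hz0' : z ≠ 0 := hz0
        rw [pow_add]
        field_simp
      exact hne (tendsto_nhds_unique hlim2 h3)
  rw [analyticOrderNatAt, ← hn, hnr]
  rfl

/-- The zeros of `f` are on the imaginary axis if `L` has none in `Re s > 0`. -/
theorem f_axis (A : ℝ) (hA : 0 < A) (f : ℂ → ℂ) (ε : ℂ) (hε : ε = 1 ∨ ε = -1)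
    (hsym : ∀ s : ℂ, f (-s) = ε * f s)
    (hfe : ∀ s : ℂ, -1 < s.re → f s = (A : ℂ) ^ (1 + s) * Complex.Gamma (1 + s) * L s)
    (hz : ∀ s : ℂ, 0 < s.re → L s ≠ 0) (s : ℂ) (h0 : f s = 0) : s.re = 0 := by
  have key : ∀ z : ℂ, 0 < z.re → f z ≠ 0 := by
    intro z hz1
    rw [hfe z (by linarith)]
    exact mul_ne_zero (Ldv_fac_ne A hA z (by linarith)) (hz z hz1)
  rcases lt_trichotomy s.re 0 with h | h | h
  · exfalso
    refine key (-s) (by rw [Complex.neg_re]; linarith) ?_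
    rw [hsym, h0, mul_zero]
  · exact h
  · exact absurd h0 (key s h)

end BSDN
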