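import Pool.Agent.W_92892c_h19n.Defs
import Pool.Agent.W_3283e1_lw.Had

set_option autoImplicit false

open MeasureTheory Set Filter Topology

namespace BSDN

open Complex W3283l

theorem Zb_prod {ι : Type} (T : Finset ι) (a : ι → ℝ) (ha : ∀ i, 0 ≤ a i) (m : ι → ℕ) :
    1 + ∑ i ∈ T, (m i : ℝ) * a i ≤ ∏ i ∈ T, (1 + a i) ^ (m i) := by
  classical
  induction T using Finset.induction_on with
  | empty => simp
  | insert i T hi ih =>
    rw [Finset.sum_insert hi, Finset.prod_insert hi]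
    have h1 : 1 + (m i : ℝ) * a i ≤ (1 + a i) ^ (m i) :=
      one_add_mul_le_pow (by linarith [ha i]) (m i)
    have h2 : 0 ≤ (m i : ℝ) * a i := mul_nonneg (Nat.cast_nonneg _) (ha i)
    have h3 : 0 ≤ ∑ i ∈ T, (m i : ℝ) * a i :=
      Finset.sum_nonneg fun i _ => mul_nonneg (Nat.cast_nonneg _) (ha i)
    calc 1 + ((m i : ℝ) * a i + ∑ i ∈ T, (m i : ℝ) * a i)
        ≤ (1 + (m i : ℝ) * a i) * (1 + ∑ i ∈ T, (m i : ℝ) * a i) := by nlinarith
      _ ≤ _ := mul_le_mul h1 ih (by linarith) (by linarith)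

/-- The bound for `Σ m/γ²`.  `g x > 0` is the value of `f` at `x > 0`, `g x/x^r → l`.  By `had`,
`g'/g = r/x + Σ 2 m x/(x²+γ²)` for `x > 0`.  For a finite set `T` of zeros put
`φ x = log g x - r log x - log l - Σ_T m log (1 + x²/γ²)`; `φ' = Σ_{not in T} 2 m x/(x²+γ²) ≥ 0`
and `φ x → 0` as `x → 0+`, so `φ 1 ≥ 0`: `Σ_T m log (1 + 1/γ²) ≤ log (g 1/l)`, hence
`1 + Σ_T m/γ² ≤ ∏ (1 + 1/γ²)^m ≤ g 1/l` (`one_add_mul_le_pow`, `Finset.prod_one_add_le`-type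
induction, or `1 + a + b ≤ (1+a)(1+b)`). -/
theorem zb (f : ℂ → ℂ) (hf : Differentiable ℂ f) (hne : ∃ z, f z ≠ 0) (ε : ℂ)
    (hε : ε = 1 ∨ ε = -1) (hsym : ∀ s, f (-s) = ε * f s) (C : ℝ)
    (hgr : ∀ s, ‖f s‖ ≤ Real.exp (C * (1 + ‖s‖) ^ (3 / 2 : ℝ)))
    (hre : ∀ s, f s = 0 → s.re = 0) (g : ℝ → ℝ) (hg : ∀ x : ℝ, 0 < x → 0 < g x ∧ f x = (g x : ℂ))
    (l : ℝ) (hl : 0 < l)
    (hlim : Tendsto (fun s : ℂ => f s / s ^ (analyticOrderNatAt f 0)) (𝓝[≠] 0) (𝓝 (l : ℂ))) :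
    ∑' i : ZI f, (analyticOrderNatAt f ((i : ℝ) * I) : ℝ) / (i : ℝ) ^ 2 ≤ g 1 / l - 1 := by
  classical
  obtain ⟨hsum, hlog⟩ := had f hf hne ε hε hsym C hgr hre
  set r := analyticOrderNatAt f 0 with hr
  set m : ZI f → ℕ := fun i => analyticOrderNatAt f ((i : ℝ) * I) with hm
  refine hsum.tsum_le_of_sum_le fun T => ?_
  -- the real form of the logarithmic derivative
  have hS : ∀ x : ℝ, 0 < x → Summable (fun i : ZI f => 2 * (m i : ℝ) * x / (x ^ 2 + (i : ℝ) ^ 2)) ∧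
      (deriv f x).re / g x = r / x + ∑' i : ZI f, 2 * (m i : ℝ) * x / (x ^ 2 + (i : ℝ) ^ 2) := by
    intro x hx
    obtain ⟨h1, h2⟩ := hlog x (by simpa using hx)
    have h3 : (fun i : ZI f => 2 * (analyticOrderNatAt f ((i : ℝ) * I) : ℂ) * (x : ℂ) /
        ((x : ℂ) ^ 2 + ((i : ℝ) : ℂ) ^ 2)) =
        fun i : ZI f => ((2 * (m i : ℝ) * x / (x ^ 2 + (i : ℝ) ^ 2) : ℝ) : ℂ) := by
      funext i
      push_cast
      rfl
    rw [h3] at h1 h2
    refine ⟨Complex.summable_ofReal.1 h1, ?_⟩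
    · rw [← Complex.ofReal_tsum, (hg x hx).2] at h2
      have h4 := congrArg Complex.re h2
      rw [Complex.div_ofReal_re] at h4
      rw [h4]
      have h5 : (r : ℂ) / (x : ℂ) + ((∑' i : ZI f, 2 * (m i : ℝ) * x / (x ^ 2 + (i : ℝ) ^ 2) : ℝ) : ℂ) =
          (((r : ℝ) / x + ∑' i : ZI f, 2 * (m i : ℝ) * x / (x ^ 2 + (i : ℝ) ^ 2) : ℝ) : ℂ) := by
        push_cast
        rfl
      rw [h5, Complex.ofReal_re]
  have hγ : ∀ i : ZI f, 0 < (i : ℝ) := fun i => i.2.1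
  set φ : ℝ → ℝ := fun x => Real.log (f x).re - r * Real.log x -
    ∑ i ∈ T, (m i : ℝ) * Real.log (1 + x ^ 2 / (i : ℝ) ^ 2) with hφ
  have hfre : ∀ x : ℝ, 0 < x → (f x).re = g x := by
    intro x hx
    rw [(hg x hx).2, Complex.ofReal_re]
  have hder : ∀ x : ℝ, 0 < x → HasDerivAt φ ((deriv f x).re / g x - r / x -
      ∑ i ∈ T, 2 * (m i : ℝ) * x / (x ^ 2 + (i : ℝ) ^ 2)) x := by
    intro x hx
    have h1 : HasDerivAt (fun y : ℝ => (f y).re) (deriv f x).re x :=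
      (hf x).hasDerivAt.real_of_complex
    have h2 : (f x).re ≠ 0 := by
      rw [hfre x hx]
      exact (hg x hx).1.ne'
    have h3 := h1.log h2
    have h4 := (Real.hasDerivAt_log hx.ne').const_mul (r : ℝ)
    have h5 : ∀ i ∈ T, HasDerivAt (fun y : ℝ => (m i : ℝ) * Real.log (1 + y ^ 2 / (i : ℝ) ^ 2))
        (2 * (m i : ℝ) * x / (x ^ 2 + (i : ℝ) ^ 2)) x := by
      intro i _
      have hi := hγ i
      have h6 : HasDerivAt (fun y : ℝ => 1 + y ^ 2 / (i : ℝ) ^ 2) (2 * x / (i : ℝ) ^ 2) x := by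
        have h7 := ((hasDerivAt_pow 2 x).div_const ((i : ℝ) ^ 2)).const_add 1
        simpa using h7
      have h8 : (1 + x ^ 2 / (i : ℝ) ^ 2) ≠ 0 := by positivity
      have h9 := (h6.log h8).const_mul (m i : ℝ)
      refine h9.congr_deriv ?_
      field_simp
      ring
    have h10 := HasDerivAt.fun_sum h5
    have h11 := (h3.sub h4).sub h10
    rw [hfre x hx] at h11
    refine h11.congr_deriv ?_
    rw [div_eq_mul_inv (r : ℝ) x]
  have hmono : ∀ x : ℝ, 0 < x → x ≤ 1 → φ x ≤ φ 1 := by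
    intro x hx hx1
    have h1 : MonotoneOn φ (Ioi 0) := by
      refine monotoneOn_of_deriv_nonneg (convex_Ioi 0) ?_ ?_ ?_
      · intro y hy
        exact (hder y hy).continuousAt.continuousWithinAt
      · rw [interior_Ioi]
        intro y hy
        exact (hder y hy).differentiableAt.differentiableWithinAt
      · rw [interior_Ioi]
        intro y hy
        have hy' : 0 < y := hy
        rw [(hder y hy).deriv, (hS y hy).2]
        have h2 : ∑ i ∈ T, 2 * (m i : ℝ) * y / (y ^ 2 + (i : ℝ) ^ 2) ≤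
            ∑' i : ZI f, 2 * (m i : ℝ) * y / (y ^ 2 + (i : ℝ) ^ 2) := by
          refine (hS y hy).1.sum_le_tsum T fun i _ => ?_
          have := hγ i
          positivity
        linarith
    exact h1 hx (Set.mem_Ioi.2 one_pos) hx1
  have hlim1 : Tendsto (fun x : ℝ => (f x / (x : ℂ) ^ r).re) (𝓝[>] 0) (𝓝 l) := by
    have h1 : Tendsto (fun x : ℝ => (x : ℂ)) (𝓝[>] (0 : ℝ)) (𝓝[≠] (0 : ℂ)) := by
      refine tendsto_nhdsWithin_of_tendsto_nhds_of_eventually_within _ ?_ ?_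
      · have h2 : Tendsto (fun x : ℝ => (x : ℂ)) (𝓝 (0 : ℝ)) (𝓝 ((0 : ℝ) : ℂ)) :=
          Complex.continuous_ofReal.tendsto 0
        rw [Complex.ofReal_zero] at h2
        exact h2.mono_left nhdsWithin_le_nhds
      · filter_upwards [self_mem_nhdsWithin] with x hx
        have hx' : (0 : ℝ) < x := hx
        show (x : ℂ) ≠ 0
        exact_mod_cast hx'.ne'
    have h3 := (Complex.continuous_re.tendsto (l : ℂ)).comp (hlim.comp h1)
    rw [Complex.ofReal_re] at h3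
    exact h3
  have hlim2 : Tendsto (fun x : ℝ => Real.log (f x).re - r * Real.log x) (𝓝[>] 0)
      (𝓝 (Real.log l)) := by
    have h1 := (Real.continuousAt_log hl.ne').tendsto.comp hlim1
    refine h1.congr' ?_
    filter_upwards [self_mem_nhdsWithin] with x hx
    have hx' : (0 : ℝ) < x := hx
    have h2 : (f x / (x : ℂ) ^ r).re = g x / x ^ r := by
      rw [(hg x hx').2, ← Complex.ofReal_pow, ← Complex.ofReal_div, Complex.ofReal_re]
    show Real.log (f x / (x : ℂ) ^ r).re = _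
    rw [h2, hfre x hx', Real.log_div (hg x hx').1.ne' (pow_pos hx' _).ne', Real.log_pow]
  have hlim3 : Tendsto (fun x : ℝ => ∑ i ∈ T, (m i : ℝ) * Real.log (1 + x ^ 2 / (i : ℝ) ^ 2))
      (𝓝[>] 0) (𝓝 0) := by
    have h1 : ContinuousAt (fun x : ℝ => ∑ i ∈ T, (m i : ℝ) *
        Real.log (1 + x ^ 2 / (i : ℝ) ^ 2)) 0 := by
      refine tendsto_finsetSum _ fun i _ => ?_
      have h2 : ContinuousAt (fun x : ℝ => Real.log (1 + x ^ 2 / (i : ℝ) ^ 2)) 0 := by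
        have hi := hγ i
        refine ContinuousAt.log ?_ ?_
        · have : Continuous (fun x : ℝ => 1 + x ^ 2 / (i : ℝ) ^ 2) := by fun_prop
          exact this.continuousAt
        · positivity
      exact (h2.tendsto).const_mul _
    have h2 : Tendsto (fun x : ℝ => ∑ i ∈ T, (m i : ℝ) * Real.log (1 + x ^ 2 / (i : ℝ) ^ 2))
        (𝓝 0) (𝓝 (∑ i ∈ T, (m i : ℝ) * Real.log (1 + (0 : ℝ) ^ 2 / (i : ℝ) ^ 2))) := h1
    have h3 : ∑ i ∈ T, (m i : ℝ) * Real.log (1 + (0 : ℝ) ^ 2 / (i : ℝ) ^ 2) = 0 := by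
      refine Finset.sum_eq_zero fun i _ => ?_
      simp
    rw [h3] at h2
    exact h2.mono_left nhdsWithin_le_nhds
  have hlim4 : Tendsto φ (𝓝[>] 0) (𝓝 (Real.log l)) := by
    have h1 := hlim2.sub hlim3
    rw [sub_zero] at h1
    exact h1
  have hφ1 : Real.log l ≤ φ 1 := by
    refine le_of_tendsto hlim4 ?_
    have h1 : Ioc (0 : ℝ) 1 ∈ 𝓝[>] (0 : ℝ) := Ioc_mem_nhdsGT one_pos
    filter_upwards [h1] with x hx
    exact hmono x hx.1 hx.2
  have h1 : φ 1 = Real.log (g 1) - ∑ i ∈ T, (m i : ℝ) * Real.log (1 + 1 / (i : ℝ) ^ 2) := by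
    show Real.log (f ((1 : ℝ) : ℂ)).re - r * Real.log 1 -
      ∑ i ∈ T, (m i : ℝ) * Real.log (1 + 1 ^ 2 / (i : ℝ) ^ 2) = _
    rw [hfre 1 one_pos, Real.log_one, mul_zero, sub_zero, one_pow]
  rw [h1] at hφ1
  have h2 : ∏ i ∈ T, (1 + 1 / (i : ℝ) ^ 2) ^ (m i) ≤ g 1 / l := by
    have h3 : 0 < ∏ i ∈ T, (1 + 1 / (i : ℝ) ^ 2) ^ (m i) :=
      Finset.prod_pos fun i _ => by
        have := hγ i
        positivity
    rw [← Real.log_le_log_iff h3 (div_pos (hg 1 one_pos).1 hl),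
      Real.log_div (hg 1 one_pos).1.ne' hl.ne', Real.log_prod]
    · have h4 : ∑ i ∈ T, Real.log ((1 + 1 / (i : ℝ) ^ 2) ^ (m i)) =
          ∑ i ∈ T, (m i : ℝ) * Real.log (1 + 1 / (i : ℝ) ^ 2) :=
        Finset.sum_congr rfl fun i _ => Real.log_pow _ _
      rw [h4]
      linarith
    · intro i _
      have := hγ i
      positivity
  have h3 := Zb_prod T (fun i : ZI f => 1 / (i : ℝ) ^ 2) (fun i => by positivity) m
  have h4 : ∑ i ∈ T, (m i : ℝ) * (1 / (i : ℝ) ^ 2) = ∑ i ∈ T, (m i : ℝ) / (i : ℝ) ^ 2 :=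
    Finset.sum_congr rfl fun i _ => by ring
  rw [h4] at h3
  have h5 : ∑ i ∈ T, (m i : ℝ) / (i : ℝ) ^ 2 ≤ g 1 / l - 1 := by linarith
  exact h5

end BSDN
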