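import Pool.Agent.W_92892c_h19n.Cmp
import Pool.Agent.W_92892c_h19n.Ldv
import Pool.Agent.W_92892c_h19n.Zb
import Pool.Agent.W_92892c_h19n.Efm
import Pool.Agent.W_92892c_h19.FE
import Pool.Agent.W_92892c_h19.Val
import Pool.Agent.W_92892c_h19.Near
import Pool.Agent.W_92892c_h19.OneB

set_option autoImplicit false

open MeasureTheory Set Filter Topology

namespace BSDN

open BSDS BSDC Complex

variable {ι : Type} {c u : ι → ℝ} {a : ℝ} {L : ℂ → ℂ}

/-- `(L x).re > 0` for `x > 0` (`L_real`, no zeros, positive for large `x`: `Hyp.LD`, `Dser_ofReal`;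
intermediate value theorem, as in `lead_pos`). -/
theorem L_pos (H : Hyp c u a L) (hz : ∀ s : ℂ, 0 < s.re → L s ≠ 0) (x : ℝ) (hx : 0 < x) :
    (L x).im = 0 ∧ 0 < (L x).re := by
  have ha1 := H.apos
  have hreal : ∀ x : ℝ, (L x).im = 0 := fun x => L_real H x
  refine ⟨hreal x, ?_⟩
  have hLr : ∀ x : ℝ, L x = (((L x).re : ℝ) : ℂ) := fun x =>
    Complex.ext (by simp) (by simp [hreal x])
  have hne : ∀ x : ℝ, 0 < x → (L x).re ≠ 0 := by
    intro x hx h0
    apply hz (x : ℂ) (by rw [Complex.ofReal_re]; exact hx)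
    rw [hLr x, h0, Complex.ofReal_zero]
  have hcont : Continuous fun x : ℝ => (L x).re :=
    Complex.continuous_re.comp (H.Lent.continuous.comp Complex.continuous_ofReal)
  have hbig : 0 < (L (a : ℝ)).re := (one_large H a le_rfl).1
  by_contra hc
  have hlt : (L x).re < 0 := lt_of_le_of_ne (not_lt.1 hc) (hne x hx)
  have hconn : IsPreconnected (Ioi (0 : ℝ)) := isPreconnected_Ioi
  have h1 := hconn.intermediate_value (show x ∈ Ioi (0 : ℝ) from hx)
    (show a ∈ Ioi (0 : ℝ) from (by linarith : (0 : ℝ) < a)) hcont.continuousOn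
  obtain ⟨y, hy, hy0⟩ := h1 ⟨hlt.le, hbig.le⟩
  exact hne y hy hy0

/-- The second mean tends to `0`: `∫_0^U ee` converges (`conv_main`), so `E1` is bounded on `[0,∞)` and
`|E2 U| ≤ M U`. -/
theorem asm_lim (H : Hyp c u a L) (hgr : Gro L)
    (hz : ∀ s : ℂ, 0 < s.re → L s ≠ 0) (r : ℕ) (lam : ℝ) (hlam : 0 < lam)
    (hlim : Tendsto (fun s : ℂ => L s / s ^ r) (𝓝[≠] 0) (𝓝 (lam : ℂ))) :
    Tendsto (fun U : ℝ => E2 c u (kap lam r) r U / U ^ 2) atTop (𝓝 0) := by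
  have ha := H.apos
  obtain ⟨l1, hl1⟩ := second_coeff H r lam hlam hlim
  have h1 : Tendsto (E1 c u (kap lam r) r) atTop (𝓝 (-l1 / lam)) :=
    conv_main H hgr hz r lam hlam hlim l1 hl1
  obtain ⟨hc1, -, -, C, hC⟩ := prim_bd H (kap lam r) r
  have hC0 : 0 ≤ C := by
    have h1 := (hC 0 le_rfl).1
    rw [mul_zero, Real.exp_zero, mul_one] at h1
    exact (abs_nonneg _).trans h1
  obtain ⟨M, hM⟩ : ∃ M : ℝ, ∀ U : ℝ, 0 ≤ U → |E1 c u (kap lam r) r U| ≤ M := by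
    have h2 : ∀ᶠ U : ℝ in atTop, |E1 c u (kap lam r) r U| < |(-l1 / lam)| + 1 := by
      have := h1.abs
      exact (tendsto_order.1 this).2 _ (by linarith)
    obtain ⟨N, hN⟩ := eventually_atTop.1 h2
    refine ⟨max (|(-l1 / lam)| + 1) (C * Real.exp ((a + 1) * N)), fun U hU => ?_⟩
    rcases le_or_gt N U with h | h
    · exact (hN U h).le.trans (le_max_left _ _)
    · refine ((hC U hU).1.trans ?_).trans (le_max_right _ _)
      refine mul_le_mul_of_nonneg_left (Real.exp_le_exp.2 ?_) hC0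
      exact mul_le_mul_of_nonneg_left h.le (by linarith)
  have hM0 : 0 ≤ M := (abs_nonneg _).trans (hM 0 le_rfl)
  have h2 : ∀ U : ℝ, 0 < U → |E2 c u (kap lam r) r U| ≤ M * U := by
    intro U hU
    have h3 : ‖∫ v in Ioc 0 U, E1 c u (kap lam r) r v‖ ≤ M * volume.real (Ioc 0 U) := by
      refine norm_setIntegral_le_of_norm_le_const (by simp) ?_
      intro t ht
      exact hM t ht.1.le
    rw [Real.volume_real_Ioc_of_le hU.le, sub_zero, Real.norm_eq_abs] at h3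
    exact h3
  have h3 : Tendsto (fun U : ℝ => M / U) atTop (𝓝 0) := tendsto_const_nhds.div_atTop tendsto_id
  refine squeeze_zero_norm' ?_ h3
  filter_upwards [eventually_gt_atTop (0 : ℝ)] with U hU
  rw [Real.norm_eq_abs, abs_div, abs_of_pos (pow_pos hU 2), div_le_div_iff₀ (pow_pos hU 2) hU]
  have := h2 U hU
  nlinarith

/-- Assembly: `cmp`, `W3283l.had`, `ldv`, `f_lead`, `f_axis`, `efm`, `zb` (with
`g x = A^(1+x) Γ(1+x) L x`, `g 1/(A lam) = A L(1)/lam`); `lim`: `conv_main` with `second_coeff` (the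
integral converges, so `E1` is bounded, `|E2 U| ≤ C (1 + U)`). -/
theorem asm (H : Hyp c u a L) (hgr : Gro L) (A : ℝ) (hA : 0 < A) (ε : ℂ) (hFE : FEq L A ε)
    (hz : ∀ s : ℂ, 0 < s.re → L s ≠ 0) (r : ℕ) (lam : ℝ) (hlam : 0 < lam)
    (hlim : Tendsto (fun s : ℂ => L s / s ^ r) (𝓝[≠] 0) (𝓝 (lam : ℂ))) :
    ∃ Z : ℝ, 0 ≤ Z ∧ Z ≤ A * (L 1).re / lam - 1 ∧
      Exf (E1 c u (kap lam r) r) (E2 c u (kap lam r) r)
        (Real.log A - Real.eulerMascheroniConstant) Z := by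
  have ha := H.apos
  obtain ⟨f, hfd, hε, hsym, hfe, C, hC⟩ := cmp L H.Lent hgr A hA ε hFE
    ⟨((1 / 2 : ℝ) : ℂ), by rw [Complex.ofReal_re]; norm_num [abs_lt],
      hz _ (by rw [Complex.ofReal_re]; norm_num)⟩
  have hpos : ∀ x : ℝ, 0 < x → (L x).im = 0 ∧ 0 < (L x).re := fun x hx => L_pos H hz x hx
  have hne : ∃ z, f z ≠ 0 := by
    obtain ⟨h1, h2⟩ := f_pos A hA f hfe hpos 1 one_pos
    refine ⟨((1 : ℝ) : ℂ), ?_⟩
    rw [h1]
    exact Complex.ofReal_ne_zero.2 h2.ne'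
  have hre : ∀ s, f s = 0 → s.re = 0 := fun s h0 => f_axis A hA f ε hε hsym hfe hz s h0
  obtain ⟨hsum, hhad⟩ := W3283l.had f hfd hne ε hε hsym C hC hre
  obtain ⟨hord, hfl⟩ := f_lead A hA f hfd hfe r lam hlam hlim
  have hz1 : ∑' i : W3283l.ZI f, (analyticOrderNatAt f ((i : ℝ) * I) : ℝ) / (i : ℝ) ^ 2 ≤
      A ^ ((1 : ℝ) + 1) * Real.Gamma (1 + 1) * (L ((1 : ℝ) : ℂ)).re / (A * lam) - 1 := by
    refine zb f hfd hne ε hε hsym C hC hre
      (fun x => A ^ (1 + x) * Real.Gamma (1 + x) * (L x).re) (fun x hx => ?_) (A * lam)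
      (mul_pos hA hlam) ?_
    · obtain ⟨h1, h2⟩ := f_pos A hA f hfe hpos x hx
      exact ⟨h2, h1⟩
    · rw [hord]
      exact hfl
  have hone : ∀ i : W3283l.ZI f, (1 : ℝ) ≤ analyticOrderNatAt f ((i : ℝ) * I) :=
    fun i => W3283l.zi_one f hfd hne i
  obtain ⟨hwc, hwb, -⟩ := cos_sum (fun i : W3283l.ZI f => (i : ℝ))
    (fun i => (analyticOrderNatAt f ((i : ℝ) * I) : ℝ)) (fun i => i.2.1) hone hsum
  refine ⟨∑' i : W3283l.ZI f, (analyticOrderNatAt f ((i : ℝ) * I) : ℝ) / (i : ℝ) ^ 2,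
    ?_, ?_, ?_⟩
  · refine tsum_nonneg fun i => ?_
    positivity
  · refine hz1.trans (le_of_eq ?_)
    have e1 : A ^ ((1 : ℝ) + 1) = A * A := by
      rw [Real.rpow_add hA, Real.rpow_one]
    have e2 : Real.Gamma (1 + 1) = 1 := by
      rw [one_add_one_eq_two, Real.Gamma_two]
    rw [e1, e2, Complex.ofReal_one, mul_one]
    field_simp
  · refine ⟨(prim_bd H (kap lam r) r).2.2.1, ⟨fun U => ∑' i : W3283l.ZI f,
      (analyticOrderNatAt f ((i : ℝ) * I) : ℝ) / (i : ℝ) ^ 2 *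
        (1 - Real.cos ((i : ℝ) * U)), hwb, fun U hU => ?_⟩,
      asm_lim H hgr hz r lam hlam hlim⟩
    refine efm H (kap lam r) (Real.log A - Real.eulerMascheroniConstant) r
      (fun i : W3283l.ZI f => (i : ℝ))
      (fun i => (analyticOrderNatAt f ((i : ℝ) * I) : ℝ)) (fun i => i.2.1) hone hsum ?_ U hU.le
    intro s hs
    have hs0 : 0 < s.re := by linarith
    have h1 := (hhad s hs0).2
    have h2 := ldv H A hA f hfd hfe s hs
    rw [h2, hord] at h1
    have h3 : ∀ i : W3283l.ZI f, (((analyticOrderNatAt f ((i : ℝ) * I) : ℝ)) : ℂ) =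
        (analyticOrderNatAt f ((i : ℝ) * I) : ℂ) := fun i => Complex.ofReal_natCast _
    simp only [h3]
    push_cast
    linear_combination -h1

end BSDN
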