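import Pool.Agent.W_3283e1_lw.Om

set_option autoImplicit false

open MeasureTheory Set Filter Topology

namespace BSDN

open W3283l

theorem OmT_term (n : ℕ) : IntegrableOn (fun t : ℝ => Real.exp (-t) ^ (n + 1) / ((n : ℝ) + 1))
      (Ioi 0) ∧
    ∫ t in Ioi (0 : ℝ), Real.exp (-t) ^ (n + 1) / ((n : ℝ) + 1) = 1 / ((n : ℝ) + 1) ^ 2 := by
  have hn : (0 : ℝ) < (n : ℝ) + 1 := by positivity
  have he : ∀ t : ℝ, Real.exp (-t) ^ (n + 1) = Real.exp (-((n : ℝ) + 1) * t) := by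
    intro t
    rw [← Real.exp_nat_mul]
    congr 1
    push_cast
    ring
  constructor
  · have h := (exp_neg_integrableOn_Ioi 0 hn).div_const ((n : ℝ) + 1)
    refine h.congr (Filter.Eventually.of_forall fun t => ?_)
    change Real.exp (-((n : ℝ) + 1) * t) / ((n : ℝ) + 1) = _
    rw [← he]
  · have h1 : ∀ t : ℝ, Real.exp (-t) ^ (n + 1) / ((n : ℝ) + 1) =
        Real.exp (-((n : ℝ) + 1) * t) / ((n : ℝ) + 1) := fun t => by rw [he]
    simp only [h1]
    rw [integral_div, integral_exp_mul_Ioi (by linarith) 0, mul_zero, Real.exp_zero]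
    field_simp

theorem OmT_hasSum {t : ℝ} (ht : 0 < t) :
    HasSum (fun n : ℕ => Real.exp (-t) ^ (n + 1) / ((n : ℝ) + 1)) (om t) := by
  unfold om
  refine Real.hasSum_pow_div_log_of_abs_lt_one ?_
  rw [abs_of_pos (Real.exp_pos _), Real.exp_lt_one_iff]
  linarith

theorem OmT_zeta : HasSum (fun n : ℕ => 1 / ((n : ℝ) + 1) ^ 2) (Real.pi ^ 2 / 6) := by
  have h := (hasSum_nat_add_iff' 1).2 hasSum_zeta_two
  simpa using h

/-- `∫_0^∞ om = Σ 1/n² = π²/6`: `om t = Σ_{n≥1} e^{-nt}/n` (`Real.hasSum_pow_div_log_of_abs_lt_one`),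
`∫_0^∞ e^{-nt}/n dt = 1/n²`, `integral_tsum`-type lemma (nonnegative terms) and `hasSum_zeta_two`. -/
theorem om_total : ∫ t in Ioi (0 : ℝ), om t = Real.pi ^ 2 / 6 := by
  have hnn : ∀ n : ℕ, ∀ t : ℝ, 0 ≤ Real.exp (-t) ^ (n + 1) / ((n : ℝ) + 1) := fun n t => by
    positivity
  have hnorm : ∀ n : ℕ, ∫ t in Ioi (0 : ℝ), ‖Real.exp (-t) ^ (n + 1) / ((n : ℝ) + 1)‖ =
      1 / ((n : ℝ) + 1) ^ 2 := by
    intro n
    rw [← (OmT_term n).2]
    refine integral_congr_ae (Filter.Eventually.of_forall fun t => ?_)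
    change ‖_‖ = _
    rw [Real.norm_of_nonneg (hnn n t)]
  have key := hasSum_integral_of_summable_integral_norm (μ := volume.restrict (Ioi (0 : ℝ)))
    (F := fun (n : ℕ) (t : ℝ) => Real.exp (-t) ^ (n + 1) / ((n : ℝ) + 1))
    (fun n => (OmT_term n).1) (by simp only [hnorm]; exact OmT_zeta.summable)
  have h2 : (fun n : ℕ => ∫ t in Ioi (0 : ℝ), Real.exp (-t) ^ (n + 1) / ((n : ℝ) + 1)) =
      fun n : ℕ => 1 / ((n : ℝ) + 1) ^ 2 := by
    funext n
    exact (OmT_term n).2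
  have h3 : ∫ t in Ioi (0 : ℝ), om t =
      ∫ t in Ioi (0 : ℝ), ∑' n : ℕ, Real.exp (-t) ^ (n + 1) / ((n : ℝ) + 1) := by
    refine setIntegral_congr_fun measurableSet_Ioi fun t ht => ?_
    exact (OmT_hasSum ht).tsum_eq.symm
  rw [h3]
  have h4 := key
  rw [show (fun n : ℕ => ∫ t in Ioi (0 : ℝ), (fun (n : ℕ) (t : ℝ) =>
    Real.exp (-t) ^ (n + 1) / ((n : ℝ) + 1)) n t) = fun n : ℕ => 1 / ((n : ℝ) + 1) ^ 2 from h2] at h4
  exact h4.unique OmT_zeta

theorem OmT_lower {t : ℝ} (ht : 0 < t) : Real.exp (-t) ≤ om t := by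
  unfold om
  have h := Real.log_le_sub_one_of_pos (Om_arg_pos ht)
  linarith

theorem OmT_upper {t : ℝ} (ht : Real.log 2 ≤ t) : om t ≤ 2 * Real.exp (-t) := by
  unfold om
  set y := Real.exp (-t) with hy
  have hy0 : 0 < y := Real.exp_pos _
  have hy1 : y ≤ 1 / 2 := by
    have h1 : y ≤ Real.exp (-Real.log 2) := Real.exp_le_exp.2 (by linarith)
    rw [Real.exp_neg, Real.exp_log two_pos] at h1
    linarith
  have h3 := Real.one_sub_inv_le_log_of_pos (x := 1 - y) (by linarith)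
  have h4 : (1 - y)⁻¹ - 1 ≤ 2 * y := by
    have h5 : (1 - y)⁻¹ - 1 = y / (1 - y) := by
      have : (1 - y) ≠ 0 := by linarith
      field_simp
      ring
    rw [h5, div_le_iff₀ (by linarith)]
    nlinarith
  linarith

/-- The tail: positive, and at most `1` from `log 2` on (`om t ≤ 2 e^{-t}` for `t ≥ log 2`: as
`Om_le_large`, which only needs `e^{-t} ≤ 1/2`). -/
theorem om_tail (U : ℝ) (hU : 0 < U) :
    ∫ t in Ioc 0 U, om t < Real.pi ^ 2 / 6 ∧
    (Real.log 2 ≤ U → Real.pi ^ 2 / 6 - 1 ≤ ∫ t in Ioc 0 U, om t) := by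
  have hsplit : ∫ t in Ioi (0 : ℝ), om t = (∫ t in Ioc 0 U, om t) + ∫ t in Ioi U, om t := by
    rw [← Ioc_union_Ioi_eq_Ioi hU.le]
    refine setIntegral_union Ioc_disjoint_Ioi_same measurableSet_Ioi ?_ ?_
    · exact om_int.mono_set Ioc_subset_Ioi_self
    · exact om_int.mono_set (Ioi_subset_Ioi hU.le)
  rw [om_total] at hsplit
  have hint : IntegrableOn om (Ioi U) := om_int.mono_set (Ioi_subset_Ioi hU.le)
  have hexp : IntegrableOn (fun t : ℝ => Real.exp (-t)) (Ioi U) := by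
    have h := exp_neg_integrableOn_Ioi U (b := 1) one_pos
    simpa using h
  constructor
  · have h1 : ∫ t in Ioi U, Real.exp (-t) ≤ ∫ t in Ioi U, om t :=
      setIntegral_mono_on hexp hint measurableSet_Ioi
        (fun t ht => OmT_lower (hU.trans ht))
    rw [integral_exp_neg_Ioi] at h1
    have h2 := Real.exp_pos (-U)
    linarith
  · intro hl
    have h1 : ∫ t in Ioi U, om t ≤ ∫ t in Ioi U, 2 * Real.exp (-t) :=
      setIntegral_mono_on hint (hexp.const_mul 2) measurableSet_Ioi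
        (fun t ht => OmT_upper (hl.trans (le_of_lt ht)))
    rw [integral_const_mul, integral_exp_neg_Ioi] at h1
    have h2 : Real.exp (-U) ≤ 1 / 2 := by
      have h3 : Real.exp (-U) ≤ Real.exp (-Real.log 2) := Real.exp_le_exp.2 (by linarith)
      rw [Real.exp_neg (Real.log 2), Real.exp_log two_pos] at h3
      linarith
    linarith

end BSDN
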