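import Pool.Agent.W_92892c_h19n.Defs
import Pool.Agent.W_92892c_h19n.OmT

set_option autoImplicit false

open MeasureTheory Set Filter Topology

namespace BSDN

open W3283l

variable {e1 e2 : ℝ → ℝ} {b Z : ℝ}

theorem cal_aux_der (h : Exf e1 e2 b Z) (U : ℝ) (hU : 0 < U) :
    ∃ q : ℝ, 0 < q ∧ HasDerivAt (Ff e2 b) (-(2 * q / U ^ 3)) U ∧
      (Real.log 2 ≤ U → q ≤ 4 * Z + 1) ∧ (b - e1 U) / U = Ff e2 b U - q / U ^ 2 := by
  obtain ⟨w, hw, hex⟩ := h.ex
  have ht := om_tail U hU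
  obtain ⟨I, hI⟩ : ∃ I : ℝ, I = ∫ t in Ioc 0 U, W3283l.om t := ⟨_, rfl⟩
  rw [← hI] at ht
  have hx := hex U hU
  rw [← hI] at hx
  have hw1 := (hw U).1
  have hw2 := (hw U).2
  have hU0 : U ≠ 0 := hU.ne'
  refine ⟨2 * w U + (Real.pi ^ 2 / 6 - I), by linarith [ht.1], ?_, ?_, ?_⟩
  · have h1 := h.hd U hU
    have h2 : HasDerivAt (fun U : ℝ => U ^ 2) (2 * U) U := by
      simpa using hasDerivAt_pow 2 U
    have h3 : HasDerivAt (fun U : ℝ => -2 * e2 U / U ^ 2)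
        ((-2 * e1 U * U ^ 2 - -2 * e2 U * (2 * U)) / (U ^ 2) ^ 2) U :=
      (h1.const_mul (-2)).div h2 (pow_ne_zero 2 hU0)
    have h4 : HasDerivAt (fun U : ℝ => 2 * b / U) ((0 * U - 2 * b * 1) / U ^ 2) U :=
      (hasDerivAt_const U (2 * b)).div (hasDerivAt_id U) hU0
    have h5 : HasDerivAt (fun U : ℝ => Real.pi ^ 2 / (6 * U ^ 2))
        ((0 * (6 * U ^ 2) - Real.pi ^ 2 * (6 * (2 * U))) / (6 * U ^ 2) ^ 2) U :=
      (hasDerivAt_const U (Real.pi ^ 2)).div (h2.const_mul 6)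
        (mul_ne_zero (by norm_num) (pow_ne_zero 2 hU0))
    have h6 := (h3.add h4).add h5
    have h7 : (-2 * e1 U * U ^ 2 - -2 * e2 U * (2 * U)) / (U ^ 2) ^ 2 +
        (0 * U - 2 * b * 1) / U ^ 2 +
        (0 * (6 * U ^ 2) - Real.pi ^ 2 * (6 * (2 * U))) / (6 * U ^ 2) ^ 2 =
        -(2 * (2 * w U + (Real.pi ^ 2 / 6 - I)) / U ^ 3) := by
      have h8 : w U = (b * U + I - (2 * e2 U - U * e1 U)) / 2 := by linarith
      rw [h8]
      field_simp
      ring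
    rw [h7] at h6
    exact h6
  · intro hl
    linarith [ht.2 hl]
  · have h8 : w U = (b * U + I - (2 * e2 U - U * e1 U)) / 2 := by linarith
    rw [h8]
    unfold Ff
    field_simp
    ring

theorem cal_aux_z (h : Exf e1 e2 b Z) : 0 ≤ Z := by
  obtain ⟨w, hw, -⟩ := h.ex
  linarith [(hw 0).1, (hw 0).2]

theorem cal_aux_inv2 (c : ℝ) : Tendsto (fun U : ℝ => c / U ^ 2) atTop (𝓝 0) :=
  Tendsto.div_atTop tendsto_const_nhds (tendsto_pow_atTop two_ne_zero)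

/-- `F' = (2/U³) (2 e2 - U e1 - b U - π²/6) = -(2/U³) (2 w + (π²/6 - ∫_0^U om))`. -/
theorem cal_deriv (h : Exf e1 e2 b Z) (U : ℝ) (hU : 0 < U) :
    ∃ d : ℝ, HasDerivAt (Ff e2 b) d U ∧ d < 0 ∧
      (Real.log 2 ≤ U → -(2 * (4 * Z + 1) / U ^ 3) ≤ d) := by
  obtain ⟨q, hq, hd, hl, -⟩ := cal_aux_der h U hU
  have h3 : 0 < U ^ 3 := pow_pos hU 3
  refine ⟨-(2 * q / U ^ 3), hd, ?_, ?_⟩
  · have : 0 < 2 * q / U ^ 3 := by positivity
    linarith
  · intro hU2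
    have h4 : 2 * q / U ^ 3 ≤ 2 * (4 * Z + 1) / U ^ 3 := by
      apply div_le_div_of_nonneg_right _ h3.le
      linarith [hl hU2]
    linarith

theorem cal_anti (h : Exf e1 e2 b Z) : StrictAntiOn (Ff e2 b) (Ioi 0) := by
  refine strictAntiOn_of_deriv_neg (convex_Ioi 0) ?_ ?_
  · intro U hU
    obtain ⟨d, hd, -, -⟩ := cal_deriv h U hU
    exact hd.continuousAt.continuousWithinAt
  · intro U hU
    rw [interior_Ioi] at hU
    obtain ⟨d, hd, hneg, -⟩ := cal_deriv h U hU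
    rw [hd.deriv]
    exact hneg

theorem cal_lim (h : Exf e1 e2 b Z) : Tendsto (Ff e2 b) atTop (𝓝 0) := by
  have h1 := (h.lim.const_mul (-2))
  have h2 : Tendsto (fun U : ℝ => 2 * b / U) atTop (𝓝 0) :=
    Tendsto.div_atTop tendsto_const_nhds tendsto_id
  have h3 := cal_aux_inv2 (Real.pi ^ 2 / 6)
  have h4 := (h1.add h2).add h3
  rw [mul_zero, add_zero, add_zero] at h4
  refine h4.congr fun U => ?_
  unfold Ff
  rw [div_div, mul_div_assoc (-2) (e2 U) (U ^ 2)]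

/-- A strictly decreasing function with limit `0` is positive. -/
theorem cal_pos (h : Exf e1 e2 b Z) (U : ℝ) (hU : 0 < U) : 0 < Ff e2 b U := by
  have h1 := cal_anti h (mem_Ioi.mpr hU) (mem_Ioi.mpr (by linarith : 0 < U + 1))
    (by linarith : U < U + 1)
  have h2 : 0 ≤ Ff e2 b (U + 1) := by
    refine le_of_tendsto (cal_lim h) ?_
    filter_upwards [eventually_ge_atTop (U + 1)] with V hV
    exact (cal_anti h).antitoneOn (mem_Ioi.mpr (by linarith : 0 < U + 1))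
      (mem_Ioi.mpr (by linarith : 0 < V)) hV
  linarith

/-- `F U - (4Z+1)/U²` is nondecreasing on `[log 2, ∞)` (its derivative is `d + 2(4Z+1)/U³ ≥ 0`) and
tends to `0`. -/
theorem cal_up (h : Exf e1 e2 b Z) (U : ℝ) (hU : Real.log 2 ≤ U) :
    Ff e2 b U ≤ (4 * Z + 1) / U ^ 2 := by
  have hl2 : 0 < Real.log 2 := Real.log_pos (by norm_num)
  have hm : MonotoneOn (fun U : ℝ => Ff e2 b U - (4 * Z + 1) / U ^ 2) (Ici (Real.log 2)) := by
    have hder : ∀ U : ℝ, Real.log 2 ≤ U → ∃ d : ℝ, 0 ≤ d ∧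
        HasDerivAt (fun U : ℝ => Ff e2 b U - (4 * Z + 1) / U ^ 2) d U := by
      intro U hU
      have hU0 : 0 < U := lt_of_lt_of_le hl2 hU
      obtain ⟨d, hd, -, hb⟩ := cal_deriv h U hU0
      have h2 : HasDerivAt (fun U : ℝ => U ^ 2) (2 * U) U := by
        simpa using hasDerivAt_pow 2 U
      have h4 : HasDerivAt (fun U : ℝ => (4 * Z + 1) / U ^ 2)
          ((0 * U ^ 2 - (4 * Z + 1) * (2 * U)) / (U ^ 2) ^ 2) U :=
        (hasDerivAt_const U (4 * Z + 1)).div h2 (pow_ne_zero 2 hU0.ne')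
      refine ⟨_, ?_, hd.sub h4⟩
      have h5 : (0 * U ^ 2 - (4 * Z + 1) * (2 * U)) / (U ^ 2) ^ 2 =
          -(2 * (4 * Z + 1) / U ^ 3) := by
        field_simp
        ring
      rw [h5]
      linarith [hb hU]
    refine monotoneOn_of_deriv_nonneg (convex_Ici _) ?_ ?_ ?_
    · intro V hV
      obtain ⟨d, -, hd⟩ := hder V hV
      exact hd.continuousAt.continuousWithinAt
    · intro V hV
      rw [interior_Ici] at hV
      obtain ⟨d, -, hd⟩ := hder V (mem_Ioi.mp hV).le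
      exact hd.differentiableAt.differentiableWithinAt
    · intro V hV
      rw [interior_Ici] at hV
      obtain ⟨d, h0, hd⟩ := hder V (mem_Ioi.mp hV).le
      rw [hd.deriv]
      exact h0
  have hlim : Tendsto (fun U : ℝ => Ff e2 b U - (4 * Z + 1) / U ^ 2) atTop (𝓝 0) := by
    have h1 := (cal_lim h).sub (cal_aux_inv2 (4 * Z + 1))
    rw [sub_zero] at h1
    exact h1
  have h3 : Ff e2 b U - (4 * Z + 1) / U ^ 2 ≤ 0 := by
    refine ge_of_tendsto hlim ?_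
    filter_upwards [eventually_ge_atTop U] with V hV
    exact hm (mem_Ici.mpr hU) (mem_Ici.mpr (hU.trans hV)) hV
  linarith

/-- `(b - e1 U)/U = F U - (2 w + (π²/6 - ∫_0^U om))/U²` with `0 ≤ F U ≤ (4Z+1)/U²` and
`0 ≤ 2 w + (π²/6 - ∫ om) ≤ 4Z+1`. -/
theorem cal_one (h : Exf e1 e2 b Z) (U : ℝ) (hU : Real.log 2 ≤ U) :
    |e1 U - b| ≤ (4 * Z + 1) / U := by
  have hl2 : 0 < Real.log 2 := Real.log_pos (by norm_num)
  have hU0 : 0 < U := lt_of_lt_of_le hl2 hU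
  obtain ⟨q, hq, -, hl, he⟩ := cal_aux_der h U hU0
  have h1 := cal_pos h U hU0
  have h2 := cal_up h U hU
  have h3 : q / U ^ 2 ≤ (4 * Z + 1) / U ^ 2 :=
    div_le_div_of_nonneg_right (hl hU) (by positivity)
  have h4 : 0 < q / U ^ 2 := by positivity
  have h5 : |(b - e1 U) / U| ≤ (4 * Z + 1) / U ^ 2 := by
    rw [he, abs_le]
    constructor <;> linarith
  rw [abs_div, abs_of_pos hU0, abs_sub_comm, div_le_iff₀ hU0] at h5
  refine h5.trans (le_of_eq ?_)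
  field_simp

end BSDN
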