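import Pool.Agent.W_92892c_h19n.Efm
import Pool.Agent.W_92892c_h19.OneC
import Pool.Agent.W_92892c_h19.Lead

set_option autoImplicit false

open MeasureTheory Set Filter Topology

namespace BSDN

open BSDS BSDC W3283g

variable {ι : Type} {c u : ι → ℝ} {a : ℝ} {L : ℂ → ℂ}

theorem Ces2_int (A B x : ℝ) (hx : 0 < x) :
    IntegrableOn (fun v : ℝ => (A + B * v ^ 2) * Real.exp (-(x * v))) (Ioi 0) ∧
      ∫ v in Ioi (0 : ℝ), (A + B * v ^ 2) * Real.exp (-(x * v)) = A / x + 2 * B / x ^ 3 := by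
  have h0 : IntegrableOn (fun v : ℝ => Real.exp (-(x * v))) (Ioi 0) := by
    have h := integrableOn_rpow_mul_exp_neg_mul_rpow (p := 1) (s := 0) (b := x) (by norm_num)
      one_pos hx
    refine h.congr_fun (fun v _ => ?_) measurableSet_Ioi
    simp only [Real.rpow_zero, Real.rpow_one, one_mul, neg_mul]
  have h1 : IntegrableOn (fun v : ℝ => v ^ 2 * Real.exp (-(x * v))) (Ioi 0) := by
    have h := integrableOn_rpow_mul_exp_neg_mul_rpow (p := 1) (s := 2) (b := x) (by norm_num)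
      one_pos hx
    refine h.congr_fun (fun v _ => ?_) measurableSet_Ioi
    simp only [Real.rpow_two, Real.rpow_one, neg_mul]
  have e0 : ∫ v in Ioi (0 : ℝ), Real.exp (-(x * v)) = 1 / x := by
    have h := Real.integral_rpow_mul_exp_neg_mul_Ioi (a := 1) (r := x) one_pos hx
    simpa using h
  have e1 : ∫ v in Ioi (0 : ℝ), v ^ 2 * Real.exp (-(x * v)) = 2 / x ^ 3 := by
    have h := Real.integral_rpow_mul_exp_neg_mul_Ioi (a := 3) (r := x) (by norm_num) hx
    have h3 : (3 : ℝ) - 1 = 2 := by norm_num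
    have hG : Real.Gamma 3 = 2 := by
      rw [show (3 : ℝ) = ((2 : ℕ) : ℝ) + 1 by norm_num, Real.Gamma_nat_eq_factorial]
      norm_num [Nat.factorial]
    have h4 : (1 / x) ^ (3 : ℝ) = 1 / x ^ 3 := by
      rw [show (3 : ℝ) = ((3 : ℕ) : ℝ) by norm_num, Real.rpow_natCast, one_div, one_div, inv_pow]
    rw [h3, hG, h4] at h
    rw [show (2 : ℝ) / x ^ 3 = 1 / x ^ 3 * 2 by ring, ← h]
    refine setIntegral_congr_fun measurableSet_Ioi fun v _ => ?_
    simp only [Real.rpow_two]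
  have hsum : (fun v : ℝ => (A + B * v ^ 2) * Real.exp (-(x * v))) =
      fun v : ℝ => A * Real.exp (-(x * v)) + B * (v ^ 2 * Real.exp (-(x * v))) := by
    funext v
    ring
  rw [hsum]
  refine ⟨(h0.const_mul A).add (h1.const_mul B), ?_⟩
  rw [integral_add (h0.const_mul A) (h1.const_mul B), integral_const_mul, integral_const_mul,
    e0, e1]
  ring

theorem Ces2_m1 (H : Hyp c u a L) (κ : ℝ) (r : ℕ) : Measurable (E1 c u κ r) :=
  Ces_Fmeas _ (ee_meas H κ r)

theorem Ces2_m2 (H : Hyp c u a L) (κ : ℝ) (r : ℕ) : Measurable (E2 c u κ r) :=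
  Ces_Fmeas _ (Ces2_m1 H κ r)

theorem Ces2_loc (H : Hyp c u a L) (κ : ℝ) (r : ℕ) (U : ℝ) :
    IntegrableOn (E1 c u κ r) (Ioc 0 U) := by
  have h1 : ContinuousOn (E1 c u κ r) (Icc 0 U) := (prim_bd H κ r).1.mono Icc_subset_Ici_self
  exact (h1.integrableOn_compact isCompact_Icc).mono_set Ioc_subset_Icc_self

theorem Ces2_bd (H : Hyp c u a L) (κ : ℝ) (r : ℕ)
    (h : Tendsto (fun U : ℝ => E2 c u κ r U / U ^ 2) atTop (𝓝 0)) (δ : ℝ) (hδ : 0 < δ) :
    ∃ M : ℝ, 0 ≤ M ∧ ∀ U : ℝ, 0 < U → |E2 c u κ r U| ≤ M + δ * U ^ 2 := by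
  have h1 : ∀ᶠ U : ℝ in atTop, |E2 c u κ r U / U ^ 2| < δ := by
    have := (Metric.tendsto_nhds.1 h) δ hδ
    filter_upwards [this] with U hU
    rwa [Real.dist_eq, sub_zero] at hU
  obtain ⟨U0, hU0⟩ := eventually_atTop.1 h1
  refine ⟨∫ v in Ioc 0 U0, |E1 c u κ r v|, integral_nonneg fun v => abs_nonneg _,
    fun U hU => ?_⟩
  have hnn : 0 ≤ ∫ v in Ioc 0 U0, |E1 c u κ r v| := integral_nonneg fun v => abs_nonneg _
  have hδU : 0 ≤ δ * U ^ 2 := mul_nonneg hδ.le (sq_nonneg U)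
  rcases le_or_gt U0 U with hle | hlt
  · have h2 := hU0 U hle
    have hU2 : 0 < U ^ 2 := by positivity
    rw [abs_div, abs_of_pos hU2, div_lt_iff₀ hU2] at h2
    linarith
  · have h2 : |E2 c u κ r U| ≤ ∫ v in Ioc 0 U, |E1 c u κ r v| := abs_integral_le_integral_abs
    have h3 : ∫ v in Ioc 0 U, |E1 c u κ r v| ≤ ∫ v in Ioc 0 U0, |E1 c u κ r v| :=
      setIntegral_mono_set (Ces2_loc H κ r U0).abs (Eventually.of_forall fun v => abs_nonneg _)
        (Eventually.of_forall (Ioc_subset_Ioc_right hlt.le))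
    linarith

theorem Ces2_Fint (H : Hyp c u a L) (κ : ℝ) (r : ℕ)
    (h : Tendsto (fun U : ℝ => E2 c u κ r U / U ^ 2) atTop (𝓝 0)) (σ : ℝ) (hσ : 0 < σ) :
    IntegrableOn (fun v : ℝ => E2 c u κ r v * Real.exp (-(σ * v))) (Ioi 0) := by
  obtain ⟨M, _, hM⟩ := Ces2_bd H κ r h 1 one_pos
  refine Integrable.mono' (Ces2_int M 1 σ hσ).1 ?_ ?_
  · have h1 : Continuous (fun v : ℝ => Real.exp (-(σ * v))) := by fun_prop
    exact ((Ces2_m2 H κ r).mul h1.measurable).aestronglyMeasurable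
  · refine (ae_restrict_iff' measurableSet_Ioi).2 (Eventually.of_forall fun v hv => ?_)
    rw [norm_mul, Real.norm_eq_abs, Real.norm_eq_abs, Real.abs_exp]
    exact mul_le_mul_of_nonneg_right (hM v hv) (Real.exp_pos _).le

theorem Ces2_norm_exp (x v : ℝ) :
    ‖Complex.exp (-((x : ℂ) * v))‖ = Real.exp (-(x * v)) := by
  rw [Complex.norm_exp]
  congr 1
  simp

theorem Ces2_small (H : Hyp c u a L) (κ : ℝ) (r : ℕ)
    (h : Tendsto (fun U : ℝ => E2 c u κ r U / U ^ 2) atTop (𝓝 0)) :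
    Tendsto (fun x : ℝ => (x : ℂ) ^ 3 * ∫ v in Ioi (0 : ℝ),
      ((E2 c u κ r v : ℝ) : ℂ) * Complex.exp (-((x : ℂ) * v))) (𝓝[>] 0) (𝓝 0) := by
  rw [Metric.tendsto_nhdsWithin_nhds]
  intro ε hε
  obtain ⟨M, hM, hb⟩ := Ces2_bd H κ r h (ε / 4) (by linarith)
  refine ⟨min 1 (ε / (2 * (M + 1))), by positivity, fun x hx hxd => ?_⟩
  have hx0 : 0 < x := hx
  rw [Real.dist_eq, sub_zero, abs_of_pos hx0] at hxd
  have hx1 : x < 1 := lt_of_lt_of_le hxd (min_le_left _ _)
  have hx2 : x < ε / (2 * (M + 1)) := lt_of_lt_of_le hxd (min_le_right _ _)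
  rw [dist_zero_right, norm_mul, norm_pow, Complex.norm_real, Real.norm_of_nonneg hx0.le]
  obtain ⟨hI, hIv⟩ := Ces2_int M (ε / 4) x hx0
  have h1 : ‖∫ v in Ioi (0 : ℝ),
      ((E2 c u κ r v : ℝ) : ℂ) * Complex.exp (-((x : ℂ) * v))‖ ≤
      ∫ v in Ioi (0 : ℝ), (M + ε / 4 * v ^ 2) * Real.exp (-(x * v)) := by
    refine norm_integral_le_of_norm_le hI ?_
    refine (ae_restrict_iff' measurableSet_Ioi).2 (Eventually.of_forall fun v hv => ?_)
    have hv0 : 0 < v := hv
    rw [norm_mul, Ces2_norm_exp, Complex.norm_real, Real.norm_eq_abs]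
    exact mul_le_mul_of_nonneg_right (hb v hv0) (Real.exp_pos _).le
  rw [hIv] at h1
  have hx3 : 0 < x ^ 3 := by positivity
  have hM1 : 0 < M + 1 := by linarith
  calc x ^ 3 * ‖∫ v in Ioi (0 : ℝ),
        ((E2 c u κ r v : ℝ) : ℂ) * Complex.exp (-((x : ℂ) * v))‖ ≤
        x ^ 3 * (M / x + 2 * (ε / 4) / x ^ 3) := mul_le_mul_of_nonneg_left h1 hx3.le
    _ = M * x * x + ε / 2 := by
        field_simp
        ring
    _ < ε := by
        rw [lt_div_iff₀ (by linarith)] at hx2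
        have h5 : M * x * x ≤ (M + 1) * x * 1 := by
          have h6 : M * x ≤ (M + 1) * x := by nlinarith
          have h7 : 0 ≤ M * x := mul_nonneg hM hx0.le
          calc M * x * x ≤ M * x * 1 := mul_le_mul_of_nonneg_left hx1.le h7
            _ ≤ (M + 1) * x * 1 := by linarith
        nlinarith

/-- The representation by the second primitive: `one_rep` (module OneB) with one more primitive
(`prim_lap`-type transforms `∫ E2 e^{-sv} = s^{-3} (-Dser + r (γ + log s) - κ)` for `Re s > a`, then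
the identity theorem on `Re s > 0`: both sides are holomorphic there, `lap_diff`; same proof). -/
theorem rep2 (H : Hyp c u a L) (κ : ℝ) (r : ℕ)
    (hFi : ∀ σ : ℝ, 0 < σ → IntegrableOn (fun v : ℝ => E2 c u κ r v * Real.exp (-(σ * v)))
      (Ioi 0)) (s : ℂ) (hs : 0 < s.re) :
    L s = s ^ r * Complex.exp (r * Real.eulerMascheroniConstant - κ -
      s ^ 3 * ∫ v in Ioi (0 : ℝ), ((E2 c u κ r v : ℝ) : ℂ) * Complex.exp (-(s * v))) := by
  have hem := ee_meas H κ r
  have hm1 := Ces2_m1 H κ r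
  have hd := lap_diff (fun U : ℝ => E2 c u κ r U) (Ces2_m2 H κ r) hFi
  set Φ : ℂ → ℂ := fun s => ∫ v in Ioi (0 : ℝ),
    ((E2 c u κ r v : ℝ) : ℂ) * Complex.exp (-(s * v)) with hΦ
  have ho : IsOpen {s : ℂ | 0 < s.re} := isOpen_lt continuous_const Complex.continuous_re
  have hR : DifferentiableOn ℂ (fun s : ℂ => s ^ r *
      Complex.exp (r * Real.eulerMascheroniConstant - κ - s ^ 3 * Φ s)) {s : ℂ | 0 < s.re} := by
    refine (differentiableOn_id.pow r).mul (DifferentiableOn.cexp ?_)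
    exact ((differentiableOn_id.pow 3).mul hd).const_sub _
  have hpc : IsPreconnected {s : ℂ | 0 < s.re} := (convex_halfSpace_re_gt 0).isPreconnected
  have ha1 := H.apos
  have hmem : ((a + 1 : ℝ) : ℂ) ∈ {s : ℂ | 0 < s.re} := by
    show 0 < ((a + 1 : ℝ) : ℂ).re
    rw [Complex.ofReal_re]
    linarith
  have hev : L =ᶠ[𝓝 (((a + 1 : ℝ) : ℂ))] (fun s : ℂ => s ^ r *
      Complex.exp (r * Real.eulerMascheroniConstant - κ - s ^ 3 * Φ s)) := by
    have ho2 : IsOpen {s : ℂ | a < s.re} := isOpen_lt continuous_const Complex.continuous_re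
    have hm2 : ((a + 1 : ℝ) : ℂ) ∈ {s : ℂ | a < s.re} := by
      show a < ((a + 1 : ℝ) : ℂ).re
      rw [Complex.ofReal_re]
      linarith
    filter_upwards [ho2.mem_nhds hm2] with s hs
    have hs' : a < s.re := hs
    have hs0 : s ≠ 0 := by
      rintro rfl
      rw [Complex.zero_re] at hs'
      linarith
    have h1 := Ces_fub (ee c u κ r) hem s (by linarith) (ee_int H κ r s.re hs')
    have h1b := Ces_fub (E1 c u κ r) hm1 s (by linarith) (OneB_Fint H κ r s.re hs')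
    have h2 := ee_transform H κ r s hs'
    have h3 : s ^ 3 * Φ s = -Dser c u s + r * ((Real.eulerMascheroniConstant : ℂ) +
        Complex.log s) - κ := by
      have h1c : s * Φ s = ∫ v in Ioi (0 : ℝ), ((∫ w in Ioc 0 v, ee c u κ r w : ℝ) : ℂ) *
          Complex.exp (-(s * v)) := h1b
      rw [← h2, ← h1, ← h1c]
      ring
    show L s = s ^ r * Complex.exp (r * Real.eulerMascheroniConstant - κ - s ^ 3 * Φ s)
    rw [h3, H.LD s hs'.le]
    have h4 : (r : ℂ) * Real.eulerMascheroniConstant - κ - (-Dser c u s +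
        r * ((Real.eulerMascheroniConstant : ℂ) + Complex.log s) - κ) =
        Dser c u s + -(r * Complex.log s) := by ring
    rw [h4, Complex.exp_add, Complex.exp_neg, Complex.exp_nat_mul, Complex.exp_log hs0]
    have h5 : s ^ r ≠ 0 := pow_ne_zero _ hs0
    field_simp
  have h6 := (H.Lent.differentiableOn.analyticOnNhd ho).eqOn_of_preconnected_of_eventuallyEq
    (hR.analyticOnNhd ho) hpc hmem hev
  exact h6 hs

/-- If the second mean vanishes, the order, leading coefficient and the absence of zeros follow: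
`|E2 U| ≤ M + δ U²` for every `δ > 0`, so `|x³ ∫ E2 e^{-xv} dv| ≤ M x² + 2 δ`; `rep2`,
`lead_of_real` (as `ces_main`, module Lead). -/
theorem ces2_main (H : Hyp c u a L) (r : ℕ) (lam : ℝ) (hlam : 0 < lam)
    (h : Tendsto (fun U : ℝ => E2 c u (kap lam r) r U / U ^ 2) atTop (𝓝 0)) :
    (∀ s : ℂ, 0 < s.re → L s ≠ 0) ∧
      Tendsto (fun s : ℂ => L s / s ^ r) (𝓝[≠] 0) (𝓝 (lam : ℂ)) := by
  have hrep := rep2 H (kap lam r) r (Ces2_Fint H (kap lam r) r h)
  constructor
  · intro s hs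
    rw [hrep s hs]
    have hs0 : s ≠ 0 := by
      rintro rfl
      simp at hs
    exact mul_ne_zero (pow_ne_zero r hs0) (Complex.exp_ne_zero _)
  · refine lead_of_real H.Lent (a : ℂ) (L_ne_zero H _ (by rw [Complex.ofReal_re])) r _
      (Complex.ofReal_ne_zero.2 hlam.ne') ?_
    have h1 := Ces2_small H (kap lam r) r h
    have h2 : Tendsto (fun x : ℝ => Complex.exp ((r * Real.eulerMascheroniConstant -
        kap lam r : ℂ) - (x : ℂ) ^ 3 * ∫ v in Ioi (0 : ℝ),
        ((E2 c u (kap lam r) r v : ℝ) : ℂ) * Complex.exp (-((x : ℂ) * v))))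
        (𝓝[>] 0) (𝓝 (Complex.exp ((r * Real.eulerMascheroniConstant - kap lam r : ℂ) - 0))) :=
      (Complex.continuous_exp.tendsto _).comp (tendsto_const_nhds.sub h1)
    have h3 : Complex.exp ((r * Real.eulerMascheroniConstant - kap lam r : ℂ) - 0) =
        (lam : ℂ) := by
      rw [sub_zero]
      have h4 : (r * Real.eulerMascheroniConstant - kap lam r : ℂ) = (Real.log lam : ℂ) := by
        unfold kap
        push_cast
        ring
      rw [h4, ← Complex.ofReal_exp, Real.exp_log hlam]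
    rw [h3] at h2
    refine h2.congr' ?_
    filter_upwards [self_mem_nhdsWithin] with x hx
    have hx0 : 0 < x := hx
    have hxc : (x : ℂ) ≠ 0 := Complex.ofReal_ne_zero.2 hx0.ne'
    rw [hrep (x : ℂ) (by rw [Complex.ofReal_re]; exact hx0)]
    rw [mul_div_cancel_left₀ _ (pow_ne_zero r hxc)]

end BSDN
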