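import Pool.Agent.W_92892c_h19n.Defs
import Pool.Agent.W_92892c.DserBasic

set_option autoImplicit false

open MeasureTheory Set Filter Topology

namespace BSDN

open BSDS BSDC Complex

/-- Pointwise bound for the integrand of `Γ`. -/
theorem Cmp_pt (x t : ℝ) (hx : 0 ≤ x) (ht : 0 < t) :
    Real.exp (-t) * t ^ x ≤ (2 * (1 + x)) ^ x * Real.exp (-(1 / 2) * t) := by
  have hc : 0 < 2 * (1 + x) := by linarith
  have h1 : t ≤ 2 * (1 + x) * Real.exp (t / (2 * (1 + x))) := by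
    have h2 := Real.add_one_le_exp (t / (2 * (1 + x)))
    have h3 : t = 2 * (1 + x) * (t / (2 * (1 + x))) := by field_simp
    calc t = 2 * (1 + x) * (t / (2 * (1 + x))) := h3
      _ ≤ 2 * (1 + x) * Real.exp (t / (2 * (1 + x))) :=
        mul_le_mul_of_nonneg_left (by linarith) hc.le
  have h4 : t ^ x ≤ (2 * (1 + x)) ^ x * Real.exp (t / 2) := by
    refine (Real.rpow_le_rpow ht.le h1 hx).trans ?_
    rw [Real.mul_rpow hc.le (Real.exp_pos _).le, ← Real.exp_mul]
    refine mul_le_mul_of_nonneg_left (Real.exp_le_exp.2 ?_) (Real.rpow_nonneg hc.le _)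
    rw [div_mul_eq_mul_div, div_le_div_iff₀ hc (by norm_num)]
    nlinarith
  calc Real.exp (-t) * t ^ x ≤ Real.exp (-t) * ((2 * (1 + x)) ^ x * Real.exp (t / 2)) :=
        mul_le_mul_of_nonneg_left h4 (Real.exp_pos _).le
    _ = (2 * (1 + x)) ^ x * (Real.exp (-t) * Real.exp (t / 2)) := by ring
    _ = (2 * (1 + x)) ^ x * Real.exp (-(1 / 2) * t) := by
        rw [← Real.exp_add]
        congr 2
        ring

theorem Cmp_Gamma (s : ℂ) (hs : 0 ≤ s.re) :
    ‖Complex.Gamma (1 + s)‖ ≤ 2 * (2 * (1 + s.re)) ^ s.re := by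
  have h0 : 0 < (1 + s).re := by
    rw [Complex.add_re, Complex.one_re]; linarith
  rw [Complex.Gamma_eq_integral h0, Complex.GammaIntegral]
  have hi : IntegrableOn (fun t : ℝ => (2 * (1 + s.re)) ^ s.re * Real.exp (-(1 / 2) * t))
      (Ioi 0) := (integrableOn_exp_mul_Ioi (by norm_num) 0).const_mul _
  refine (norm_integral_le_of_norm_le hi ?_).trans (le_of_eq ?_)
  · refine (ae_restrict_iff' measurableSet_Ioi).2 (Eventually.of_forall fun t ht => ?_)
    rw [mem_Ioi] at ht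
    rw [norm_mul, Complex.norm_real, Real.norm_eq_abs, abs_of_pos (Real.exp_pos _),
      Complex.norm_cpow_eq_rpow_re_of_pos ht]
    have h1 : (1 + s - 1).re = s.re := by simp
    rw [h1]
    exact Cmp_pt s.re t hs ht
  · rw [integral_const_mul, integral_exp_mul_Ioi (by norm_num)]
    simp
    ring

theorem Cmp_rpow (y r : ℝ) (hr : 0 ≤ r) (h : r ^ 2 = 1 + y) : (1 + y) ^ (3 / 2 : ℝ) = r ^ 3 := by
  rw [← h, ← Real.rpow_natCast r 2, ← Real.rpow_mul hr, ← Real.rpow_natCast r 3]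
  norm_num

theorem Cmp_bd (x y r : ℝ) (hx : 0 ≤ x) (hxy : x ≤ y) (hr : 0 ≤ r) (h : r ^ 2 = 1 + y) :
    (2 * (1 + x)) ^ x ≤ Real.exp (3 * r ^ 3) := by
  have h1 : 2 * (1 + x) ≤ Real.exp (3 * r) := by
    have h2 := Real.quadratic_le_exp_of_nonneg (show 0 ≤ 3 * r by linarith)
    nlinarith
  refine (Real.rpow_le_rpow (by linarith) h1 hx).trans ?_
  rw [← Real.exp_mul]
  refine Real.exp_le_exp.2 ?_
  have h3 : x ≤ r ^ 2 := by linarith
  calc 3 * r * x ≤ 3 * r * r ^ 2 := mul_le_mul_of_nonneg_left h3 (by linarith)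
    _ = 3 * r ^ 3 := by ring

theorem Cmp_grow (L : ℂ → ℂ) (A : ℝ) (hA : 0 < A) (K : ℝ) (n : ℕ)
    (hK : ∀ s : ℂ, -(1 / 5) ≤ s.re → ‖L s‖ ≤ K * (2 + ‖s‖) ^ n) (s : ℂ) (hs : 0 ≤ s.re) :
    ‖(A : ℂ) ^ (1 + s) * Complex.Gamma (1 + s) * L s‖ ≤
      Real.exp ((|Real.log A| + 4 + n + |K|) * (1 + ‖s‖) ^ (3 / 2 : ℝ)) := by
  have hy : 0 ≤ ‖s‖ := norm_nonneg s
  have hxy : s.re ≤ ‖s‖ := Complex.re_le_norm s
  obtain ⟨r, hr, hr2⟩ : ∃ r : ℝ, 0 ≤ r ∧ r ^ 2 = 1 + ‖s‖ :=
    ⟨Real.sqrt (1 + ‖s‖), Real.sqrt_nonneg _, Real.sq_sqrt (by linarith)⟩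
  have hr1 : 1 ≤ r := by nlinarith
  rw [Cmp_rpow ‖s‖ r hr hr2]
  have hq : r ^ 2 ≤ r ^ 3 := pow_le_pow_right₀ hr1 (by norm_num)
  have hq1 : 1 ≤ r ^ 3 := one_le_pow₀ hr1
  have e1 : ‖(A : ℂ) ^ (1 + s)‖ ≤ Real.exp (|Real.log A| * r ^ 3) := by
    rw [Complex.norm_cpow_eq_rpow_re_of_pos hA, Real.rpow_def_of_pos hA]
    refine Real.exp_le_exp.2 ?_
    have h1 : (1 + s).re = 1 + s.re := by simp
    rw [h1]
    calc Real.log A * (1 + s.re) ≤ |Real.log A| * (1 + s.re) :=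
          mul_le_mul_of_nonneg_right (le_abs_self _) (by linarith)
      _ ≤ |Real.log A| * r ^ 3 := mul_le_mul_of_nonneg_left (by linarith) (abs_nonneg _)
  have e2 : ‖Complex.Gamma (1 + s)‖ ≤ Real.exp (4 * r ^ 3) := by
    refine (Cmp_Gamma s hs).trans ?_
    have h1 := Cmp_bd s.re ‖s‖ r hs hxy hr hr2
    have h2 : (2 : ℝ) ≤ Real.exp (r ^ 3) := by
      have := Real.add_one_le_exp (r ^ 3)
      linarith
    calc 2 * (2 * (1 + s.re)) ^ s.re ≤ Real.exp (r ^ 3) * Real.exp (3 * r ^ 3) :=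
          mul_le_mul h2 h1 (Real.rpow_nonneg (by linarith) _) (Real.exp_pos _).le
      _ = Real.exp (4 * r ^ 3) := by
          rw [← Real.exp_add]
          congr 1
          ring
  have e3 : ‖L s‖ ≤ Real.exp ((n + |K|) * r ^ 3) := by
    refine (hK s (by linarith)).trans ?_
    have h1 : (2 + ‖s‖) ^ n ≤ Real.exp (n * r ^ 3) := by
      rw [Real.exp_nat_mul]
      refine pow_le_pow_left₀ (by linarith) ?_ n
      have := Real.add_one_le_exp (r ^ 3)
      linarith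
    have h2 : K ≤ Real.exp (|K| * r ^ 3) := by
      have h3 := Real.add_one_le_exp (|K| * r ^ 3)
      have h4 : |K| * 1 ≤ |K| * r ^ 3 := mul_le_mul_of_nonneg_left hq1 (abs_nonneg _)
      linarith [le_abs_self K]
    calc K * (2 + ‖s‖) ^ n ≤ Real.exp (|K| * r ^ 3) * Real.exp (n * r ^ 3) :=
          mul_le_mul h2 h1 (by positivity) (Real.exp_pos _).le
      _ = Real.exp ((n + |K|) * r ^ 3) := by
          rw [← Real.exp_add]
          congr 1
          ring
  rw [norm_mul, norm_mul]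
  calc ‖(A : ℂ) ^ (1 + s)‖ * ‖Complex.Gamma (1 + s)‖ * ‖L s‖ ≤
      Real.exp (|Real.log A| * r ^ 3) * Real.exp (4 * r ^ 3) * Real.exp ((n + |K|) * r ^ 3) := by
        gcongr
    _ = Real.exp ((|Real.log A| + 4 + n + |K|) * r ^ 3) := by
        rw [← Real.exp_add, ← Real.exp_add]
        congr 1
        ring

/-- The completed function.  `f w = A^(1+w) Γ(1+w) L(w)` for `0 ≤ Re w`, `f w = ε f(-w)` for
`Re w < 0`.  The functional equation gives `ε ^ 2 = 1` (apply it at `w` and `-w` where `L w ≠ 0`,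
`Γ ≠ 0`), that the first formula holds for `-1 < Re w`, and that `f` is differentiable at the points
with `Re w = 0` (near them the first formula holds).  Growth: for `0 ≤ Re w`, `|A^(1+w)| ≤
exp(|log A| (1 + ‖w‖))`, `|Γ(1+w)| ≤ Γ(1 + Re w) ≤ C exp(C (1+x)^(3/2))`
(`Complex.norm_Gamma_le_Gamma_re`-type lemma or the integral; `Γ(1+x) ≤ (1+x)^(1+x)`-type bound, e.g.
`Γ(n+1) = n!` and monotonicity/convexity of `Γ` on `[2,∞)`, `n! ≤ n^n`; `x log x ≤ x^(3/2)`; see the
proof for the completed functions in `Pool/Agent/W_MP_3283e1_h19`, `grep Gamma`), `‖L w‖ ≤ K (2+‖w‖)^n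
≤ exp(C (1+‖w‖)^(3/2))`. -/
theorem cmp (L : ℂ → ℂ) (hL : Differentiable ℂ L) (hgr : Gro L) (A : ℝ) (hA : 0 < A) (ε : ℂ)
    (hFE : FEq L A ε) (hne : ∃ s : ℂ, |s.re| < 1 ∧ L s ≠ 0) :
    ∃ f : ℂ → ℂ, Differentiable ℂ f ∧ (ε = 1 ∨ ε = -1) ∧ (∀ s : ℂ, f (-s) = ε * f s) ∧
      (∀ s : ℂ, -1 < s.re → f s = (A : ℂ) ^ (1 + s) * Complex.Gamma (1 + s) * L s) ∧
      ∃ C : ℝ, ∀ s : ℂ, ‖f s‖ ≤ Real.exp (C * (1 + ‖s‖) ^ (3 / 2 : ℝ)) := by
  classical
  set G : ℂ → ℂ := fun w => (A : ℂ) ^ (1 + w) * Complex.Gamma (1 + w) * L w with hG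
  have hA0 : (A : ℂ) ≠ 0 := by exact_mod_cast hA.ne'
  have hFG : ∀ w : ℂ, |w.re| < 1 → G (-w) = ε * G w := by
    intro w hw
    have := hFE w hw
    simp only [hG]
    rw [← sub_eq_add_neg]
    exact this
  have hε2 : ε * ε = 1 := by
    obtain ⟨s, hs, hL0⟩ := hne
    have h1 : G s ≠ 0 := by
      simp only [hG]
      refine mul_ne_zero (mul_ne_zero ?_ ?_) hL0
      · rw [Complex.cpow_def_of_ne_zero hA0]
        exact Complex.exp_ne_zero _
      · refine Complex.Gamma_ne_zero_of_re_pos ?_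
        rw [Complex.add_re, Complex.one_re]
        linarith [(abs_lt.1 hs).1]
    have h2 := hFG s hs
    have h3 := hFG (-s) (by rwa [Complex.neg_re, abs_neg])
    rw [neg_neg, h2] at h3
    have h4 : (ε * ε - 1) * G s = 0 := by
      linear_combination -h3
    rcases mul_eq_zero.1 h4 with h5 | h5
    · exact sub_eq_zero.1 h5
    · exact absurd h5 h1
  have hε : ε = 1 ∨ ε = -1 := mul_self_eq_one_iff.1 hε2
  have hεn : ‖ε‖ = 1 := by
    rcases hε with h | h <;> rw [h] <;> simp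
  set f : ℂ → ℂ := fun w => if -1 < w.re then G w else ε * G (-w) with hf
  have hf1 : ∀ s : ℂ, -1 < s.re → f s = G s := fun s hs => if_pos hs
  have hf2 : ∀ s : ℂ, ¬ -1 < s.re → f s = ε * G (-s) := fun s hs => if_neg hs
  have hfe : ∀ s : ℂ, f (-s) = ε * f s := by
    intro s
    by_cases h1 : -1 < s.re
    · by_cases h2 : -1 < (-s).re
      · rw [hf1 _ h1, hf1 _ h2]
        refine hFG s (abs_lt.2 ⟨h1, ?_⟩)
        rw [Complex.neg_re] at h2
        linarith
      · rw [hf1 _ h1, hf2 _ h2, neg_neg]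
    · have h2 : -1 < (-s).re := by
        rw [Complex.neg_re]
        linarith [not_lt.1 h1]
      rw [hf2 _ h1, hf1 _ h2, ← mul_assoc, hε2, one_mul]
  have hGd : ∀ s : ℂ, -1 < s.re → DifferentiableAt ℂ G s := by
    intro s hs
    refine DifferentiableAt.mul (DifferentiableAt.mul ?_ ?_) (hL s)
    · exact DifferentiableAt.const_cpow (by fun_prop) (Or.inl hA0)
    · have hm : ∀ m : ℕ, 1 + s ≠ -m := by
        intro m hm
        have h1 := congrArg Complex.re hm
        rw [Complex.add_re, Complex.one_re, Complex.neg_re, Complex.natCast_re] at h1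
        have h2 : (0 : ℝ) ≤ m := Nat.cast_nonneg m
        linarith
      exact (Complex.differentiableAt_Gamma (1 + s) hm).comp s (by fun_prop)
  have hfd1 : ∀ s : ℂ, -1 < s.re → DifferentiableAt ℂ f s := by
    intro s hs
    refine (hGd s hs).congr_of_eventuallyEq ?_
    have ho : IsOpen {w : ℂ | -1 < w.re} := isOpen_lt continuous_const Complex.continuous_re
    filter_upwards [ho.mem_nhds hs] with w hw
    exact hf1 w hw
  have hfd : Differentiable ℂ f := by
    intro s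
    by_cases h1 : -1 < s.re
    · exact hfd1 s h1
    · have h2 : -1 < (-s).re := by
        rw [Complex.neg_re]
        linarith [not_lt.1 h1]
      have h3 : f = fun w => ε * f (-w) := by
        funext w
        have := hfe (-w)
        rw [neg_neg] at this
        exact this
      rw [h3]
      exact ((hfd1 (-s) h2).comp s (by fun_prop)).const_mul ε
  obtain ⟨K, n, hK⟩ := hgr
  refine ⟨f, hfd, hε, hfe, fun s hs => hf1 s hs, |Real.log A| + 4 + n + |K|, fun s => ?_⟩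
  rcases le_total 0 s.re with h0 | h0
  · rw [hf1 s (by linarith)]
    exact Cmp_grow L A hA K n hK s h0
  · have h1 : f s = ε * f (-s) := by
      have := hfe (-s)
      rw [neg_neg] at this
      exact this
    have h2 : 0 ≤ (-s).re := by
      rw [Complex.neg_re]
      linarith
    rw [h1, norm_mul, hεn, one_mul, hf1 (-s) (by linarith)]
    have h3 := Cmp_grow L A hA K n hK (-s) h2
    rw [norm_neg] at h3
    exact h3

end BSDN
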