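import Pool.Agent.W_92892c_h19.Defs
import Pool.Agent.W_3283e1_lw.Defs

/-!
Definitions for the explicit inequality (MP_92892c_nt), abstract part.

`Hyp c u a L`, `ee`, `kap`, `Tc`, `Gro` are those of W_92892c, W_92892c_h19 (`L` is the shifted
function, central point `0`).  `E1`, `E2` are the first and second primitive of `ee`.
`FEq` is the functional equation of the shifted function.
-/

set_option autoImplicit false

open MeasureTheory Set Filter Topology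

namespace BSDN

open BSDS BSDC

/-- `∫_0^U ee`. -/
noncomputable def E1 {ι : Type} (c u : ι → ℝ) (κ : ℝ) (r : ℕ) (U : ℝ) : ℝ :=
  ∫ v in Ioc 0 U, ee c u κ r v

/-- `∫_0^U E1`. -/
noncomputable def E2 {ι : Type} (c u : ι → ℝ) (κ : ℝ) (r : ℕ) (U : ℝ) : ℝ :=
  ∫ v in Ioc 0 U, E1 c u κ r v

/-- The functional equation of the shifted function. -/
def FEq (L : ℂ → ℂ) (A : ℝ) (ε : ℂ) : Prop :=
  ∀ w : ℂ, |w.re| < 1 → (A : ℂ) ^ (1 - w) * Complex.Gamma (1 - w) * L (-w) =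
    ε * ((A : ℂ) ^ (1 + w) * Complex.Gamma (1 + w) * L w)

/-- What the calculus part needs (`b = log A - γ`, `Z = Σ m/γ²`,
`w U = Σ m/γ² (1 - cos γU)`, `e1 = E1`, `e2 = E2`). -/
structure Exf (e1 e2 : ℝ → ℝ) (b Z : ℝ) : Prop where
  hd : ∀ U : ℝ, 0 < U → HasDerivAt e2 (e1 U) U
  ex : ∃ w : ℝ → ℝ, (∀ U : ℝ, 0 ≤ w U ∧ w U ≤ 2 * Z) ∧
    ∀ U : ℝ, 0 < U → 2 * e2 U - U * e1 U =
      b * U + (∫ t in Ioc 0 U, W3283l.om t) - 2 * w U
  lim : Tendsto (fun U : ℝ => e2 U / U ^ 2) atTop (𝓝 0)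

/-- `-2 e2(U)/U² + 2 b/U + π²/(6 U²)`. -/
noncomputable def Ff (e2 : ℝ → ℝ) (b U : ℝ) : ℝ :=
  -2 * e2 U / U ^ 2 + 2 * b / U + Real.pi ^ 2 / (6 * U ^ 2)

end BSDN
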