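import Pool.Agent.W_92892c_h19n.Ces2
import Pool.Agent.W_92892c_h19.Near
import Pool.Agent.W_92892c_h19.Conv

set_option autoImplicit false

open MeasureTheory Set Filter Topology

namespace BSDN

open BSDS BSDC

variable {ι : Type} {c u : ι → ℝ} {a : ℝ} {L : ℂ → ℂ}

theorem One2_E1m (H : Hyp c u a L) (κ : ℝ) (r : ℕ) : Measurable (E1 c u κ r) :=
  W3283g.Ces_Fmeas _ (ee_meas H κ r)

theorem One2_E2m (H : Hyp c u a L) (κ : ℝ) (r : ℕ) : Measurable (E2 c u κ r) :=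
  W3283g.Ces_Fmeas _ (One2_E1m H κ r)

theorem One2_E1i (H : Hyp c u a L) (κ : ℝ) (r : ℕ) (σ : ℝ) (hσ : a < σ) :
    IntegrableOn (fun v : ℝ => E1 c u κ r v * Real.exp (-(σ * v))) (Ioi 0) :=
  OneB_Fint H κ r σ hσ

theorem One2_E2i (H : Hyp c u a L) (κ : ℝ) (r : ℕ) (σ : ℝ) (hσ : a < σ) :
    IntegrableOn (fun v : ℝ => E2 c u κ r v * Real.exp (-(σ * v))) (Ioi 0) := by
  have ha := H.apos
  obtain ⟨τ, h1, h2⟩ := exists_between hσ
  exact Conv_Fint (E1 c u κ r) (One2_E1m H κ r) τ (by linarith) (One2_E1i H κ r τ h1) σ h2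

theorem One2_val (H : Hyp c u a L) (κ : ℝ) (r : ℕ) (σ : ℝ) (hσ : a < σ) :
    σ ^ 3 * ∫ v in Ioi (0 : ℝ), E2 c u κ r v * Real.exp (-(σ * v)) =
      -Real.log (L σ).re + r * (Real.eulerMascheroniConstant + Real.log σ) - κ := by
  have ha := H.apos
  have hσ0 : 0 < σ := by linarith
  have hre : a < (σ : ℂ).re := by rw [Complex.ofReal_re]; exact hσ
  have h1 := W3283g.Ces_fub (E1 c u κ r) (One2_E1m H κ r) (σ : ℂ)
    (by rw [Complex.ofReal_re]; exact hσ0) (One2_E1i H κ r (σ : ℂ).re hre)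
  have h2 := OneB_val H κ r σ hσ
  have h3 : σ * ∫ v in Ioi (0 : ℝ), E2 c u κ r v * Real.exp (-(σ * v)) =
      ∫ v in Ioi (0 : ℝ), E1 c u κ r v * Real.exp (-(σ * v)) := by
    have h4 := OneB_cint (fun U : ℝ => ∫ w in Ioc 0 U, E1 c u κ r w) σ
    have h5 := OneB_cint (E1 c u κ r) σ
    rw [h4, h5] at h1
    exact_mod_cast h1
  rw [← h2]
  have h6 : σ ^ 3 * ∫ v in Ioi (0 : ℝ), E2 c u κ r v * Real.exp (-(σ * v)) =
      σ ^ 2 * (σ * ∫ v in Ioi (0 : ℝ), E2 c u κ r v * Real.exp (-(σ * v))) := by ring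
  rw [h6, h3]
  rfl

theorem One2_an (H : Hyp c u a L) (κ M : ℝ) (r : ℕ) (σ : ℝ) (hσ : 0 < σ) (hp : 0 < (L σ).re) :
    AnalyticAt ℝ (fun σ : ℝ => M * (1 / σ + 1 / σ ^ 2) - (-Real.log (L σ).re +
      r * (Real.eulerMascheroniConstant + Real.log σ) - κ) / σ ^ 3) σ := by
  have hL : AnalyticAt ℝ (fun x : ℝ => (L x).re) σ := (H.Lent.analyticAt (σ : ℂ)).re_ofReal
  have hlL : AnalyticAt ℝ (fun x : ℝ => Real.log (L x).re) σ := hL.log hp
  have hl : AnalyticAt ℝ (fun x : ℝ => Real.log x) σ := analyticAt_log hσ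
  have hid : AnalyticAt ℝ (fun x : ℝ => x) σ := analyticAt_id
  have h1 : AnalyticAt ℝ (fun x : ℝ => 1 / x) σ := analyticAt_const.div hid hσ.ne'
  have h2 : AnalyticAt ℝ (fun x : ℝ => 1 / x ^ 2) σ :=
    analyticAt_const.div (hid.pow 2) (pow_ne_zero 2 hσ.ne')
  refine (analyticAt_const.mul (h1.add h2)).sub
    (AnalyticAt.div ?_ (hid.pow 3) (pow_ne_zero 3 hσ.ne'))
  exact (hlL.neg.add (analyticAt_const.mul (analyticAt_const.add hl))).sub analyticAt_const

/-- Landau's argument to the right of the last real zero: `one_step` (module OneB) for the second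
primitive, `B v = M (1 + v) - E2 v ≥ 0`, `F σ = M (1/σ + 1/σ²) - σ^{-3} (-log L σ +
r (γ + log σ) - κ)`; `landau_exp`. -/
theorem one2_step (H : Hyp c u a L) (κ : ℝ) (r : ℕ) (M : ℝ)
    (hM : ∀ U : ℝ, 0 < U → E2 c u κ r U ≤ M * (1 + U)) (σ0 : ℝ) (hσ0 : 0 ≤ σ0)
    (hpos : ∀ σ : ℝ, σ0 < σ → 0 < (L σ).re) (σ : ℝ) (hσ : σ0 < σ) :
    IntegrableOn (fun v : ℝ => E2 c u κ r v * Real.exp (-(σ * v))) (Ioi 0) ∧
      σ ^ 3 * ∫ v in Ioi (0 : ℝ), E2 c u κ r v * Real.exp (-(σ * v)) =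
        -Real.log (L σ).re + r * (Real.eulerMascheroniConstant + Real.log σ) - κ := by
  have ha := H.apos
  have hσp : 0 < σ := by linarith
  have hFm : Measurable (E2 c u κ r) := One2_E2m H κ r
  have hBm : Measurable fun v : ℝ => M * (1 + v) - E2 c u κ r v :=
    ((measurable_const.add measurable_id).const_mul M).sub hFm
  have hlin : ∀ x : ℝ, 0 < x →
      IntegrableOn (fun v : ℝ => M * (1 + v) * Real.exp (-(x * v))) (Ioi 0) ∧
      ∫ v in Ioi (0 : ℝ), M * (1 + v) * Real.exp (-(x * v)) = M * (1 / x + 1 / x ^ 2) := by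
    intro x hx
    obtain ⟨h1, h2⟩ := CesF_int 1 1 x hx
    have h3 : (fun v : ℝ => M * (1 + v) * Real.exp (-(x * v))) =
        fun v : ℝ => M * ((1 + 1 * v) * Real.exp (-(x * v))) := by
      funext v
      ring
    rw [h3]
    refine ⟨h1.const_mul M, ?_⟩
    rw [integral_const_mul, h2]
  have hsplit : ∀ x : ℝ, (fun v : ℝ => (M * (1 + v) - E2 c u κ r v) * Real.exp (-(x * v))) =
      fun v : ℝ => M * (1 + v) * Real.exp (-(x * v)) - E2 c u κ r v * Real.exp (-(x * v)) := by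
    intro x
    funext v
    ring
  have hlan := landau_exp (fun v : ℝ => M * (1 + v) - E2 c u κ r v) hBm
    (fun v hv => sub_nonneg.2 (hM v hv))
    (fun σ : ℝ => M * (1 / σ + 1 / σ ^ 2) - (-Real.log (L σ).re +
      r * (Real.eulerMascheroniConstant + Real.log σ) - κ) / σ ^ 3) σ0 a
    (fun x hx => One2_an H κ M r x (by linarith) (hpos x hx))
    (fun x hx => by
      rw [hsplit x]
      exact (hlin x (by linarith)).1.sub (One2_E2i H κ r x hx))
    (fun x hx => by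
      have hx0 : 0 < x := by linarith
      rw [hsplit x, integral_sub (hlin x hx0).1 (One2_E2i H κ r x hx), (hlin x hx0).2,
        ← One2_val H κ r x hx]
      congr 1
      field_simp) σ hσ
  obtain ⟨h1, h2⟩ := hlan
  have h3 : (fun v : ℝ => E2 c u κ r v * Real.exp (-(σ * v))) =
      fun v : ℝ => M * (1 + v) * Real.exp (-(σ * v)) -
        (M * (1 + v) - E2 c u κ r v) * Real.exp (-(σ * v)) := by
    funext v
    ring
  have h4 : IntegrableOn (fun v : ℝ => E2 c u κ r v * Real.exp (-(σ * v))) (Ioi 0) := by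
    rw [h3]
    exact (hlin σ hσp).1.sub h1
  refine ⟨h4, ?_⟩
  rw [h3, integral_sub (hlin σ hσp).1 h1, (hlin σ hσp).2, ← h2]
  field_simp
  ring

/-- No real zeros (`one_pos` of module OneB for the second primitive). -/
theorem one2_pos (H : Hyp c u a L) (κ : ℝ) (r : ℕ) (M : ℝ)
    (hM : ∀ U : ℝ, 0 < U → E2 c u κ r U ≤ M * (1 + U)) (σ : ℝ) (hσ : 0 < σ) :
    0 < (L σ).re := by
  have ha := H.apos
  by_contra hneg
  rw [not_lt] at hneg
  have hcont : Continuous fun x : ℝ => (L x).re :=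
    Complex.continuous_re.comp (H.Lent.continuous.comp Complex.continuous_ofReal)
  have hσa : σ ≤ a := by
    by_contra hc
    rw [not_le] at hc
    exact absurd (one_large H σ hc.le).1 (not_lt.2 hneg)
  have hcl : IsCompact (Icc σ a ∩ {x : ℝ | (L x).re ≤ 0}) :=
    isCompact_Icc.inter_right (isClosed_le hcont continuous_const)
  obtain ⟨σ0, ⟨⟨hσσ0, hσ0a⟩, hσ0n⟩, hmax⟩ := hcl.exists_isGreatest ⟨σ, ⟨le_rfl, hσa⟩, hneg⟩
  have hσ0n' : (L σ0).re ≤ 0 := hσ0n
  have hσ0p : 0 < σ0 := by linarith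
  have hpos : ∀ x : ℝ, σ0 < x → 0 < (L x).re := by
    intro x hx
    rcases le_or_gt a x with h | h
    · exact (one_large H x h).1
    · by_contra hc
      rw [not_lt] at hc
      have := hmax ⟨⟨by linarith, h.le⟩, hc⟩
      linarith
  have hz : (L σ0).re = 0 := by
    refine le_antisymm hσ0n' ?_
    have h1 : Tendsto (fun x : ℝ => (L x).re) (𝓝[>] σ0) (𝓝 (L σ0).re) :=
      (hcont.tendsto σ0).mono_left nhdsWithin_le_nhds
    refine ge_of_tendsto h1 ?_
    filter_upwards [self_mem_nhdsWithin] with x hx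
    exact (hpos x hx).le
  have hlog : Tendsto (fun x : ℝ => -Real.log (L x).re) (𝓝[>] σ0) atTop := by
    have h1 : Tendsto (fun x : ℝ => (L x).re) (𝓝[>] σ0) (𝓝[>] 0) := by
      refine tendsto_nhdsWithin_iff.2 ⟨?_, ?_⟩
      · have h2 : Tendsto (fun x : ℝ => (L x).re) (𝓝[>] σ0) (𝓝 (L σ0).re) :=
          (hcont.tendsto σ0).mono_left nhdsWithin_le_nhds
        rwa [hz] at h2
      · filter_upwards [self_mem_nhdsWithin] with x hx
        exact hpos x hx
    exact tendsto_neg_atBot_atTop.comp (Real.tendsto_log_nhdsGT_zero.comp h1)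
  have hbound : ∀ x : ℝ, σ0 < x → -Real.log (L x).re ≤
      M * (x ^ 2 + x) - r * (Real.eulerMascheroniConstant + Real.log x) + κ := by
    intro x hx
    have hx0 : 0 < x := by linarith
    obtain ⟨h1, h2⟩ := one2_step H κ r M hM σ0 hσ0p.le hpos x hx
    obtain ⟨h3, h4⟩ := CesF_int M M x hx0
    have h5 : ∫ v in Ioi (0 : ℝ), E2 c u κ r v * Real.exp (-(x * v)) ≤
        ∫ v in Ioi (0 : ℝ), (M + M * v) * Real.exp (-(x * v)) := by
      refine setIntegral_mono_on h1 h3 measurableSet_Ioi fun v hv => ?_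
      refine mul_le_mul_of_nonneg_right ?_ (Real.exp_pos _).le
      have := hM v hv
      linarith
    rw [h4] at h5
    have h6 := mul_le_mul_of_nonneg_left h5 (pow_nonneg hx0.le 3)
    rw [h2] at h6
    have h7 : x ^ 3 * (M / x + M / x ^ 2) = M * (x ^ 2 + x) := by
      field_simp
    rw [h7] at h6
    linarith
  have hK : Tendsto (fun x : ℝ => M * (x ^ 2 + x) -
      r * (Real.eulerMascheroniConstant + Real.log x) + κ) (𝓝[>] σ0)
      (𝓝 (M * (σ0 ^ 2 + σ0) - r * (Real.eulerMascheroniConstant + Real.log σ0) + κ)) := by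
    have h1 : ContinuousAt (fun x : ℝ => M * (x ^ 2 + x) -
      r * (Real.eulerMascheroniConstant + Real.log x) + κ) σ0 := by
      have h2 : ContinuousAt Real.log σ0 := Real.continuousAt_log hσ0p.ne'
      fun_prop
    exact h1.mono_left nhdsWithin_le_nhds
  have hev1 := (tendsto_order.1 hK).2 _ (lt_add_one _)
  have hev2 := hlog.eventually_ge_atTop
    (M * (σ0 ^ 2 + σ0) - r * (Real.eulerMascheroniConstant + Real.log σ0) + κ + 1)
  have hev3 : ∀ᶠ x in 𝓝[>] σ0, σ0 < x := self_mem_nhdsWithin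
  obtain ⟨x, hx1, hx2, hx3⟩ := (hev1.and (hev2.and hev3)).exists
  have := hbound x hx3
  linarith

/-- One sided criterion (`one_lead` of module OneC for the second primitive): `one2_pos`,
`one2_step` with `σ0 = 0`, `rep2`; `exists_order`, `lead_pos`; for real `σ → 0+`,
`-log (L σ) + r (γ + log σ) - κ = σ³ ∫ E2 e^{-σv} ≤ M (σ² + σ) → 0`. -/
theorem one2_lead (H : Hyp c u a L) (r : ℕ) (lam : ℝ) (hlam : 0 < lam) (M : ℝ)
    (hM : ∀ U : ℝ, 0 < U → E2 c u (kap lam r) r U ≤ M * (1 + U)) :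
    (∀ s : ℂ, 0 < s.re → L s ≠ 0) ∧ ∃ (n : ℕ) (l : ℝ), 0 < l ∧
      Tendsto (fun s : ℂ => L s / s ^ n) (𝓝[≠] 0) (𝓝 (l : ℂ)) ∧
      (n < r ∨ (n = r ∧ lam ≤ l)) := by
  set κ : ℝ := kap lam r with hκ
  have hpos : ∀ σ : ℝ, 0 < σ → 0 < (L σ).re := fun σ hσ => one2_pos H κ r M hM σ hσ
  have hstep := fun (σ : ℝ) (hσ : 0 < σ) => one2_step H κ r M hM 0 le_rfl hpos σ hσ
  have hz : ∀ s : ℂ, 0 < s.re → L s ≠ 0 := by
    intro s hs
    rw [rep2 H κ r (fun σ hσ => (hstep σ hσ).1) s hs]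
    refine mul_ne_zero (pow_ne_zero _ ?_) (Complex.exp_ne_zero _)
    rintro rfl
    simp at hs
  refine ⟨hz, ?_⟩
  obtain ⟨n, ℓ, hℓ, ht⟩ := exists_order L H.Lent 1 (hz 1 (by simp))
  obtain ⟨l, hl, hℓl⟩ := lead_pos H (L_real H) hz n ℓ hℓ ht
  rw [hℓl] at ht
  refine ⟨n, l, hl, ht, ?_⟩
  by_cases hnr : n < r
  · exact Or.inl hnr
  right
  have hrn : r ≤ n := not_lt.1 hnr
  -- the limit along the positive reals
  have hrl : Tendsto (fun x : ℝ => (x : ℂ)) (𝓝[>] 0) (𝓝[≠] 0) := by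
    refine tendsto_nhdsWithin_iff.2 ⟨?_, ?_⟩
    · have h1 : Tendsto (fun x : ℝ => (x : ℂ)) (𝓝 0) (𝓝 ((0 : ℝ) : ℂ)) :=
        Complex.continuous_ofReal.tendsto 0
      rw [Complex.ofReal_zero] at h1
      exact h1.mono_left nhdsWithin_le_nhds
    · filter_upwards [self_mem_nhdsWithin] with x hx
      exact Complex.ofReal_ne_zero.2 (ne_of_gt hx)
  have hLr : ∀ x : ℝ, L x = (((L x).re : ℝ) : ℂ) := fun x =>
    Complex.ext (by simp) (by simp [L_real H x])
  have hren : Tendsto (fun x : ℝ => (L x).re / x ^ n) (𝓝[>] 0) (𝓝 l) := by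
    have h1 := (Complex.continuous_re.tendsto (l : ℂ)).comp (ht.comp hrl)
    rw [Complex.ofReal_re] at h1
    refine h1.congr fun x => ?_
    show (L x / (x : ℂ) ^ n).re = _
    rw [hLr x, ← Complex.ofReal_pow, ← Complex.ofReal_div, Complex.ofReal_re, Complex.ofReal_re]
  have hpw : Tendsto (fun x : ℝ => x ^ (n - r)) (𝓝[>] 0) (𝓝 ((0 : ℝ) ^ (n - r))) :=
    ((continuous_pow (n - r)).tendsto 0).mono_left nhdsWithin_le_nhds
  have hrer : Tendsto (fun x : ℝ => (L x).re / x ^ r) (𝓝[>] 0) (𝓝 (l * (0 : ℝ) ^ (n - r))) := by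
    refine (hren.mul hpw).congr' ?_
    filter_upwards [self_mem_nhdsWithin] with x hx
    have hx0 : (0 : ℝ) < x := hx
    have h2 : x ^ n = x ^ r * x ^ (n - r) := by
      rw [← pow_add]
      congr 1
      omega
    rw [h2]
    field_simp
  -- the lower bound
  have hge : lam ≤ l * (0 : ℝ) ^ (n - r) := by
    have hlim : Tendsto (fun σ : ℝ => lam * Real.exp (-(M * (σ ^ 2 + σ)))) (𝓝[>] 0)
        (𝓝 (lam * Real.exp (-(M * ((0 : ℝ) ^ 2 + 0))))) := by
      have hc : Continuous fun σ : ℝ => lam * Real.exp (-(M * (σ ^ 2 + σ))) := by fun_prop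
      exact (hc.tendsto 0).mono_left nhdsWithin_le_nhds
    have h0 : -(M * ((0 : ℝ) ^ 2 + 0)) = 0 := by ring
    rw [h0, Real.exp_zero, mul_one] at hlim
    refine le_of_tendsto_of_tendsto hlim hrer ?_
    filter_upwards [self_mem_nhdsWithin] with σ hσ
    have hσ0 : (0 : ℝ) < σ := hσ
    obtain ⟨hi, he⟩ := hstep σ hσ0
    obtain ⟨hI, hIv⟩ := CesF_int M M σ hσ0
    have h1 : ∫ v in Ioi (0 : ℝ), E2 c u κ r v * Real.exp (-(σ * v)) ≤
        ∫ v in Ioi (0 : ℝ), (M + M * v) * Real.exp (-(σ * v)) := by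
      refine setIntegral_mono_on hi hI measurableSet_Ioi fun v hv => ?_
      refine mul_le_mul_of_nonneg_right ?_ (Real.exp_pos _).le
      have := hM v hv
      linarith
    rw [hIv] at h1
    have h2 := mul_le_mul_of_nonneg_left h1 (pow_nonneg hσ0.le 3)
    rw [he] at h2
    have h3 : σ ^ 3 * (M / σ + M / σ ^ 2) = M * (σ ^ 2 + σ) := by field_simp
    rw [h3, hκ] at h2
    unfold kap at h2
    have hp := hpos σ hσ0
    have h4 : Real.log lam + -(M * (σ ^ 2 + σ)) ≤ Real.log ((L σ).re / σ ^ r) := by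
      rw [Real.log_div hp.ne' (pow_pos hσ0 r).ne', Real.log_pow]
      linarith
    have h5 := Real.exp_le_exp.2 h4
    rwa [Real.exp_add, Real.exp_log hlam, Real.exp_log (div_pos hp (pow_pos hσ0 r))] at h5
  have hnr2 : n = r := by
    by_contra hne
    have h1 : n - r ≠ 0 := by omega
    rw [zero_pow h1, mul_zero] at hge
    linarith
  refine ⟨hnr2, ?_⟩
  rwa [hnr2, Nat.sub_self, pow_zero, mul_one] at hge

end BSDN
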