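import Pool.Agent.W_92892c_h34t.Theta

set_option autoImplicit false

open MeasureTheory Set Filter Topology

namespace BSDN

/-- The value of the quadratic form at an integer vector. -/
noncomputable def qv {r : ℕ} (H : Matrix (Fin r) (Fin r) ℝ) (v : Fin r → ℤ) : ℝ :=
  dotProduct (fun i => (v i : ℝ)) (H.mulVec fun i => (v i : ℝ))

theorem qv_eq {r : ℕ} (H : Matrix (Fin r) (Fin r) ℝ) (v : Fin r → ℤ) :
    qv H v = W92892t.qf H fun i => (v i : ℝ) := (W92892t.qf_eq_dot H _).symm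

theorem theta_sum {r : ℕ} (H : Matrix (Fin r) (Fin r) ℝ) (hH : H.PosDef) (s : ℝ) (hs : 0 < s) :
    Summable (fun v : Fin r → ℤ => Real.exp (-(Real.pi * s * qv H v))) := by
  simp only [qv_eq]
  exact W92892t.summable_qf hH hs

theorem thetaH_eq_sum {r : ℕ} (H : Matrix (Fin r) (Fin r) ℝ) (s : ℝ) :
    (∑' v : Fin r → ℤ, Real.exp (-(Real.pi * s * qv H v))) = W92892t.thetaH H s := by
  simp only [qv_eq]
  rfl

theorem sq_norm {r : ℕ} (H : Matrix (Fin r) (Fin r) ℝ) (hH : H.PosDef) (s : ℝ) (hs : 0 < s) :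
    (s ^ ((r : ℝ) / 2) * H.det ^ (1 / 2 : ℝ)) ^ 2 = H.det * s ^ r := by
  have hd := hH.det_pos
  rw [mul_pow, ← Real.rpow_natCast, ← Real.rpow_natCast, ← Real.rpow_mul hs.le,
    ← Real.rpow_mul hd.le]
  norm_num
  ring

/-- `Σ_v exp(-π s H(v)) ≥ det(H)^{-1/2} s^{-r/2}`. -/
theorem theta_ge {r : ℕ} (H : Matrix (Fin r) (Fin r) ℝ) (hH : H.PosDef) (s : ℝ) (hs : 0 < s) :
    1 ≤ H.det * s ^ r * (∑' v : Fin r → ℤ, Real.exp (-(Real.pi * s * qv H v))) ^ 2 := by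
  have hd := hH.det_pos
  rw [thetaH_eq_sum, ← sq_norm H hH s hs, ← mul_pow]
  have h := W92892t.thetaH_ge hH hs
  have h2 : 0 < s ^ ((r : ℝ) / 2) * H.det ^ (1 / 2 : ℝ) := by positivity
  have h3 := mul_le_mul_of_nonneg_left h h2.le
  have h4 : s ^ ((r : ℝ) / 2) * H.det ^ (1 / 2 : ℝ) *
      (s ^ (-((r : ℝ) / 2)) * H.det ^ (-(1 / 2 : ℝ))) = 1 := by
    rw [Real.rpow_neg hs.le, Real.rpow_neg hd.le]
    have h1 : s ^ ((r : ℝ) / 2) ≠ 0 := (Real.rpow_pos_of_pos hs _).ne'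
    have h2 : H.det ^ (1 / 2 : ℝ) ≠ 0 := (Real.rpow_pos_of_pos hd _).ne'
    field_simp
  rw [h4] at h3
  exact one_le_pow₀ h3

theorem theta_lim {r : ℕ} (H : Matrix (Fin r) (Fin r) ℝ) (hH : H.PosDef) :
    Tendsto (fun s : ℝ => H.det * s ^ r *
      (∑' v : Fin r → ℤ, Real.exp (-(Real.pi * s * qv H v))) ^ 2) (𝓝[>] 0) (𝓝 1) := by
  have h := (W92892t.thetaH_tendsto hH).pow 2
  rw [one_pow] at h
  refine h.congr' ?_
  filter_upwards [self_mem_nhdsWithin] with s hs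
  rw [thetaH_eq_sum, ← sq_norm H hH s hs, ← mul_pow]

end BSDN
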