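import Pool.Agent.W_92892c_h19n.Stmt
import Pool.Agent.W_92892c_h19n.Theta

set_option autoImplicit false

open MeasureTheory Set Filter Topology

namespace BSDN

/-- The sum over the rational points: `Θ(s) = #T Σ_v exp(-π s H(v))` (transport by `e`,
`tsum_prod`-type lemma, the summand does not depend on the torsion component). -/
theorem pt_theta (W : WeierstrassCurve ℤ) (r : ℕ) (T : Type) [AddCommGroup T] [Finite T]
    (e : BSDX.RatPts W ≃+ (Fin r → ℤ) × T) (H : Matrix (Fin r) (Fin r) ℝ) (hH : H.PosDef)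
    (h : BSDX.RatPts W → ℝ) (hh : ∀ P, h P = qv H (e P).1) (s : ℝ) (hs : 0 < s) :
    BSDX.pointTheta W h s = Nat.card T *
      ∑' v : Fin r → ℤ, Real.exp (-(Real.pi * s * qv H v)) := by
  classical
  have hg : Summable (fun v : Fin r → ℤ => Real.exp (-(Real.pi * s * qv H v))) :=
    theta_sum H hH s hs
  have _ := Fintype.ofFinite T
  have h1 : BSDX.pointTheta W h s =
      ∑' x : (Fin r → ℤ) × T, Real.exp (-(Real.pi * s * qv H x.1)) := by
    rw [← e.toEquiv.tsum_eq (fun x : (Fin r → ℤ) × T => Real.exp (-(Real.pi * s * qv H x.1)))]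
    unfold BSDX.pointTheta
    refine tsum_congr fun P => ?_
    rw [hh P]
    rfl
  have hone : Summable (fun _ : T => (1 : ℝ)) := Summable.of_finite
  have h2 : Summable (fun x : (Fin r → ℤ) × T => Real.exp (-(Real.pi * s * qv H x.1))) := by
    have h3 := Summable.mul_of_nonneg hg hone (fun v => (Real.exp_pos _).le)
      (fun _ => zero_le_one)
    simpa using h3
  rw [h1, h2.tsum_prod, ← tsum_mul_left]
  refine tsum_congr fun v => ?_
  change ∑' _ : T, Real.exp (-(Real.pi * s * qv H v)) = _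
  rw [tsum_fintype, Finset.sum_const, Finset.card_univ, nsmul_eq_mul, Nat.card_eq_fintype_card]

/-- `G(X) = V exp(F(X) - log lam) ρ(s)`, `lam = V det H/(#T)²`, `s = 1/(κ log X)`,
`ρ s = det H s^r (Σ_v)²`. -/
theorem lg_eq (W : WeierstrassCurve ℤ) (A : ℝ) (r : ℕ) (T : Type) [AddCommGroup T] [Finite T]
    (e : BSDX.RatPts W ≃+ (Fin r → ℤ) × T) (H : Matrix (Fin r) (Fin r) ℝ) (hH : H.PosDef)
    (h : BSDX.RatPts W → ℝ) (hh : ∀ P, h P = qv H (e P).1) (V : ℝ) (hV : 0 < V)
    (X : ℝ) (hX : 1 < X) :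
    BSDX.localGlobal W h A X =
      V * Real.exp (BSDX.bsdFun W A r X - Real.log (V * H.det / (Nat.card T : ℝ) ^ 2)) *
        (H.det * (1 / (Real.exp (Real.eulerMascheroniConstant - 3 / 2) * Real.log X)) ^ r *
          (∑' v : Fin r → ℤ, Real.exp (-(Real.pi *
            (1 / (Real.exp (Real.eulerMascheroniConstant - 3 / 2) * Real.log X)) * qv H v))) ^ 2) := by
  have hl : 0 < Real.log X := Real.log_pos hX
  have hκ : 0 < Real.exp (Real.eulerMascheroniConstant - 3 / 2) := Real.exp_pos _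
  have hd : 0 < H.det := hH.det_pos
  have hT : 0 < (Nat.card T : ℝ) := Nat.cast_pos.2 Nat.card_pos
  have hs : 0 < 1 / (Real.exp (Real.eulerMascheroniConstant - 3 / 2) * Real.log X) :=
    one_div_pos.2 (mul_pos hκ hl)
  have hlam : 0 < V * H.det / (Nat.card T : ℝ) ^ 2 := by positivity
  have hexp : Real.exp (BSDX.bsdFun W A r X - Real.log (V * H.det / (Nat.card T : ℝ) ^ 2)) =
      Real.exp (BSDX.squareSum W X + BSDX.archTerm A X) *
        (Real.exp (Real.eulerMascheroniConstant - 3 / 2) * Real.log X) ^ r /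
          (V * H.det / (Nat.card T : ℝ) ^ 2) := by
    rw [Real.exp_sub, Real.exp_log hlam]
    congr 1
    unfold BSDX.bsdFun
    have h9 : Real.exp (Real.log (Real.log X) + Real.eulerMascheroniConstant - 3 / 2) =
        Real.exp (Real.eulerMascheroniConstant - 3 / 2) * Real.log X := by
      rw [add_sub_assoc, Real.exp_add, Real.exp_log hl, mul_comm]
    rw [Real.exp_add, Real.exp_nat_mul, h9]
  unfold BSDX.localGlobal
  rw [pt_theta W r T e H hH h hh _ hs, hexp]
  generalize (∑' v : Fin r → ℤ, Real.exp (-(Real.pi *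
            (1 / (Real.exp (Real.eulerMascheroniConstant - 3 / 2) * Real.log X)) * qv H v))) = th
  generalize Real.exp (BSDX.squareSum W X + BSDX.archTerm A X) = E
  have hq : 0 < Real.exp (Real.eulerMascheroniConstant - 3 / 2) * Real.log X := mul_pos hκ hl
  generalize Real.exp (Real.eulerMascheroniConstant - 3 / 2) * Real.log X = q at hq ⊢
  have hqr : q ^ r ≠ 0 := (pow_pos hq r).ne'
  rw [one_div, inv_pow]
  field_simp

/-- The rank-free form: if `F → log lam` from above then `G → V` from above, and conversely. -/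
theorem rank_free (W : WeierstrassCurve ℤ) (A : ℝ) (r : ℕ) (T : Type) [AddCommGroup T] [Finite T]
    (e : BSDX.RatPts W ≃+ (Fin r → ℤ) × T) (H : Matrix (Fin r) (Fin r) ℝ) (hH : H.PosDef)
    (h : BSDX.RatPts W → ℝ) (hh : ∀ P, h P = qv H (e P).1) (V : ℝ) (hV : 0 < V) :
    ((∀ X : ℝ, 1 < X → Real.log (V * H.det / (Nat.card T : ℝ) ^ 2) < BSDX.bsdFun W A r X) →
      ∀ X : ℝ, 1 < X → V < BSDX.localGlobal W h A X) ∧
    (Tendsto (fun n : ℕ => BSDX.bsdFun W A r n) atTop
      (𝓝 (Real.log (V * H.det / (Nat.card T : ℝ) ^ 2))) ↔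
      Tendsto (fun n : ℕ => BSDX.localGlobal W h A n) atTop (𝓝 V)) := by
  have hκ : 0 < Real.exp (Real.eulerMascheroniConstant - 3 / 2) := Real.exp_pos _
  have hmain := lg_eq W A r T e H hH h hh V hV
  set ℓ : ℝ := Real.log (V * H.det / (Nat.card T : ℝ) ^ 2) with hℓ
  set ρ : ℝ → ℝ := fun s => H.det * s ^ r *
      (∑' v : Fin r → ℤ, Real.exp (-(Real.pi * s * qv H v))) ^ 2 with hρ
  set q : ℝ → ℝ := fun X =>
      1 / (Real.exp (Real.eulerMascheroniConstant - 3 / 2) * Real.log X) with hq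
  have hmain' : ∀ X : ℝ, 1 < X → BSDX.localGlobal W h A X =
      V * Real.exp (BSDX.bsdFun W A r X - ℓ) * ρ (q X) := hmain
  have hqpos : ∀ X : ℝ, 1 < X → 0 < q X := fun X hX =>
    one_div_pos.2 (mul_pos hκ (Real.log_pos hX))
  have hρ1 : ∀ X : ℝ, 1 < X → 1 ≤ ρ (q X) := fun X hX => theta_ge H hH (q X) (hqpos X hX)
  have hqlim : Tendsto (fun n : ℕ => q n) atTop (𝓝[>] 0) := by
    have h1 : Tendsto (fun n : ℕ => Real.log (n : ℝ)) atTop atTop :=
      Real.tendsto_log_atTop.comp tendsto_natCast_atTop_atTop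
    have h2 : Tendsto (fun n : ℕ => Real.exp (Real.eulerMascheroniConstant - 3 / 2) *
        Real.log (n : ℝ)) atTop atTop := h1.const_mul_atTop hκ
    refine tendsto_nhdsWithin_iff.2 ⟨?_, ?_⟩
    · have h3 := h2.inv_tendsto_atTop
      refine h3.congr fun n => ?_
      simp [hq, one_div]
    · filter_upwards [eventually_ge_atTop 2] with n hn
      exact hqpos n (by exact_mod_cast (by omega : 1 < n))
  have hρlim : Tendsto (fun n : ℕ => ρ (q n)) atTop (𝓝 1) := (theta_lim H hH).comp hqlim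
  refine ⟨fun hF X hX => ?_, ?_, ?_⟩
  · rw [hmain' X hX]
    have h1 : 1 < Real.exp (BSDX.bsdFun W A r X - ℓ) :=
      Real.one_lt_exp_iff.2 (sub_pos.2 (hF X hX))
    have h2 := hρ1 X hX
    calc V < V * Real.exp (BSDX.bsdFun W A r X - ℓ) := lt_mul_of_one_lt_right hV h1
      _ ≤ V * Real.exp (BSDX.bsdFun W A r X - ℓ) * ρ (q X) :=
        le_mul_of_one_le_right (by positivity) h2
  · intro hF
    have h1 : Tendsto (fun n : ℕ => Real.exp (BSDX.bsdFun W A r n - ℓ)) atTop (𝓝 1) := by
      have h2 : Tendsto (fun n : ℕ => BSDX.bsdFun W A r n - ℓ) atTop (𝓝 (ℓ - ℓ)) :=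
        hF.sub_const ℓ
      have h3 := (Real.continuous_exp.tendsto (ℓ - ℓ)).comp h2
      rw [sub_self, Real.exp_zero] at h3
      exact h3
    have h2 := (h1.const_mul V).mul hρlim
    rw [mul_one, mul_one] at h2
    refine h2.congr' ?_
    filter_upwards [eventually_ge_atTop 2] with n hn
    exact (hmain' n (by exact_mod_cast (by omega : 1 < n))).symm
  · intro hG
    have h1 : Tendsto (fun n : ℕ => BSDX.localGlobal W h A n / (V * ρ (q n))) atTop (𝓝 1) := by
      have h2 := hG.div (hρlim.const_mul V) (by rw [mul_one]; exact hV.ne')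
      rw [mul_one, div_self hV.ne'] at h2
      exact h2
    have h3 : Tendsto (fun n : ℕ => Real.log (BSDX.localGlobal W h A n / (V * ρ (q n)))) atTop
        (𝓝 0) := by
      have h4 := (Real.continuousAt_log one_ne_zero).tendsto.comp h1
      rw [Real.log_one] at h4
      exact h4
    have h5 := h3.add_const ℓ
    rw [zero_add] at h5
    refine h5.congr' ?_
    filter_upwards [eventually_ge_atTop 2] with n hn
    have hn1 : (1 : ℝ) < n := by exact_mod_cast (by omega : 1 < n)
    have hρp : 0 < ρ (q n) := lt_of_lt_of_le one_pos (hρ1 n hn1)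
    rw [hmain' n hn1]
    have h6 : V * Real.exp (BSDX.bsdFun W A r n - ℓ) * ρ (q n) / (V * ρ (q n)) =
        Real.exp (BSDX.bsdFun W A r n - ℓ) := by
      have := hρp.ne'
      field_simp
    rw [h6, Real.log_exp]
    ring

end BSDN
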