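import Pool.Agent.W_92892c_h19n.Stmt
import Pool.Agent.W_92892c_h19n.Efm
import Pool.Agent.W_92892c_h19.Brg

set_option autoImplicit false

open MeasureTheory Set Filter Topology

namespace BSDN

open BSDS BSDC

variable {ι : Type} {c u : ι → ℝ} {a : ℝ} {L : ℂ → ℂ}

theorem Sq_int1 (c' w U : ℝ) (hw : 0 < w) (k : ℕ) :
    IntegrableOn (fun v : ℝ => if w ≤ v then c' * (v - w) ^ k else 0) (Ioc 0 U) ∧
    ∫ v in Ioc 0 U, (if w ≤ v then c' * (v - w) ^ k else 0) =
      if w ≤ U then c' * (U - w) ^ (k + 1) / (k + 1) else 0 := by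
  have hi : (fun v : ℝ => if w ≤ v then c' * (v - w) ^ k else 0) =
      indicator (Ici w) (fun v : ℝ => c' * (v - w) ^ k) := by
    funext v
    by_cases h : w ≤ v
    · rw [if_pos h, indicator_of_mem (show v ∈ Ici w from h)]
    · rw [if_neg h, indicator_of_notMem (show v ∉ Ici w from h)]
  have hc : Continuous (fun v : ℝ => c' * (v - w) ^ k) := by fun_prop
  rw [hi]
  constructor
  · exact (hc.integrableOn_Ioc).indicator measurableSet_Ici
  · rw [setIntegral_indicator measurableSet_Ici]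
    by_cases h : w ≤ U
    · rw [if_pos h]
      have h1 : Ioc 0 U ∩ Ici w = Icc w U := by
        ext v
        simp only [mem_inter_iff, mem_Ioc, mem_Ici, mem_Icc]
        constructor
        · rintro ⟨⟨_, h2⟩, h3⟩
          exact ⟨h3, h2⟩
        · rintro ⟨h2, h3⟩
          exact ⟨⟨hw.trans_le h2, h3⟩, h2⟩
      rw [h1, integral_Icc_eq_integral_Ioc, ← intervalIntegral.integral_of_le h,
        intervalIntegral.integral_const_mul,
        intervalIntegral.integral_comp_sub_right (fun x : ℝ => x ^ k) w, integral_pow, sub_self,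
        zero_pow (Nat.succ_ne_zero k), sub_zero, mul_div_assoc]
    · rw [if_neg h]
      have h1 : Ioc 0 U ∩ Ici w = ∅ := by
        ext v
        simp only [mem_inter_iff, mem_Ioc, mem_Ici, mem_empty_iff_false, iff_false]
        rintro ⟨⟨_, h2⟩, h3⟩
        exact h (h3.trans h2)
      rw [h1, setIntegral_empty]

theorem Sq_sum (H : Hyp c u a L) (k : ℕ) (U : ℝ) (hU : 0 < U) :
    Summable (fun i => if u i ≤ U then |c i| * (U - u i) ^ k else 0) := by
  have ha := H.apos
  refine Summable.of_nonneg_of_le ?_ ?_ (H.sm.mul_right (Real.exp (a * U) * U ^ k))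
  · intro i
    split_ifs with h
    · exact mul_nonneg (abs_nonneg _) (pow_nonneg (by linarith) _)
    · exact le_rfl
  · intro i
    have hu := H.upos i
    split_ifs with h
    · have h1 : (U - u i) ^ k ≤ U ^ k := pow_le_pow_left₀ (by linarith) (by linarith) k
      have h2 : 1 ≤ Real.exp (-(a * u i)) * Real.exp (a * U) := by
        rw [← Real.exp_add]
        apply Real.one_le_exp
        nlinarith
      have h3 : (U - u i) ^ k ≤ Real.exp (-(a * u i)) * Real.exp (a * U) * U ^ k := by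
        calc (U - u i) ^ k ≤ U ^ k := h1
          _ = 1 * U ^ k := (one_mul _).symm
          _ ≤ _ := mul_le_mul_of_nonneg_right h2 (pow_nonneg hU.le _)
      calc |c i| * (U - u i) ^ k ≤
          |c i| * (Real.exp (-(a * u i)) * Real.exp (a * U) * U ^ k) :=
            mul_le_mul_of_nonneg_left h3 (abs_nonneg _)
        _ = _ := by ring
    · positivity

theorem Sq_sum' (H : Hyp c u a L) (k : ℕ) (U : ℝ) (hU : 0 < U) :
    Summable (fun i => if u i ≤ U then c i * (U - u i) ^ k else 0) := by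
  refine Summable.of_norm_bounded (Sq_sum H k U hU) ?_
  intro i
  split_ifs with h
  · rw [norm_mul, Real.norm_eq_abs, Real.norm_of_nonneg (pow_nonneg (by linarith) _)]
  · rw [norm_zero]

theorem Sq_intsum (H : Hyp c u a L) (k : ℕ) (U : ℝ) (hU : 0 < U) :
    ∫ v in Ioc 0 U, ∑' i, (if u i ≤ v then c i * (v - u i) ^ k else 0) =
      (∑' i, if u i ≤ U then c i * (U - u i) ^ (k + 1) else 0) / (k + 1) := by
  haveI := H.cnt
  have hw : ∀ i, 0 < u i := fun i => by linarith [H.upos i]
  have h1 := hasSum_integral_of_summable_integral_norm (μ := volume.restrict (Ioc 0 U))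
    (F := fun (i : ι) (v : ℝ) => if u i ≤ v then c i * (v - u i) ^ k else 0)
    (fun i => (Sq_int1 (c i) (u i) U (hw i) k).1) (by
      have h2 : ∀ i, ∫ v in Ioc 0 U, ‖(if u i ≤ v then c i * (v - u i) ^ k else 0 : ℝ)‖ =
          (if u i ≤ U then |c i| * (U - u i) ^ (k + 1) else 0) / (k + 1) := by
        intro i
        have h3 : (fun v : ℝ => ‖(if u i ≤ v then c i * (v - u i) ^ k else 0 : ℝ)‖) =
            fun v : ℝ => if u i ≤ v then |c i| * (v - u i) ^ k else 0 := by
          funext v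
          split_ifs with h
          · rw [norm_mul, Real.norm_eq_abs, Real.norm_of_nonneg (pow_nonneg (by linarith) _)]
          · rw [norm_zero]
        rw [h3, (Sq_int1 |c i| (u i) U (hw i) k).2, ite_div, zero_div]
      simp only [h2]
      exact (Sq_sum H (k + 1) U hU).div_const _)
  rw [← h1.tsum_eq, ← tsum_div_const]
  refine tsum_congr fun i => ?_
  rw [(Sq_int1 (c i) (u i) U (hw i) k).2, ite_div, zero_div]

theorem Sq_Tc (v : ℝ) : Tc c u v = ∑' i, (if u i ≤ v then c i * (v - u i) ^ 0 else 0) := by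
  unfold Tc
  refine tsum_congr fun i => ?_
  rw [pow_zero, mul_one]

/-- The second primitive as a sum: `∫_0^U ∫_0^v Tc = Σ_{u i ≤ U} c i (U - u i)²/2` (sum and integral
are interchanged twice, `H.sm`, `H.cnt`), `∫_0^U ∫_0^v (κ + r log w) dw dv = κ U²/2 +
r (U²/2 log U - 3 U²/4)`. -/
theorem E2_sum (H : Hyp c u a L) (κ : ℝ) (r : ℕ) (U : ℝ) (hU : 0 < U) :
    Summable (fun i => if u i ≤ U then c i * (U - u i) ^ 2 else 0) ∧
    2 * E2 c u κ r U = -(∑' i, if u i ≤ U then c i * (U - u i) ^ 2 else 0) - κ * U ^ 2 -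
      r * (U ^ 2 * Real.log U - 3 / 2 * U ^ 2) := by
  refine ⟨Sq_sum' H 2 U hU, ?_⟩
  -- the first primitive
  have hTloc : ∀ V : ℝ, IntegrableOn (Tc c u) (Ioc 0 V) := by
    intro V
    have h1 := ee_loc H 0 0 V
    refine h1.neg.congr (Eventually.of_forall fun v => ?_)
    show -ee c u 0 0 v = Tc c u v
    unfold ee
    push_cast
    ring
  obtain ⟨g, hg⟩ : ∃ g : ℝ → ℝ, ∀ v, g v = ∑' i, (if u i ≤ v then c i * (v - u i) ^ 1 else 0) :=
    ⟨_, fun _ => rfl⟩
  have hgT : ∀ v : ℝ, 0 < v → ∫ t in Ioc 0 v, Tc c u t = g v := by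
    intro v hv
    have h1 := Sq_intsum H 0 v hv
    rw [hg]
    rw [show (fun t : ℝ => Tc c u t) = fun t : ℝ => ∑' i, (if u i ≤ t then c i * (t - u i) ^ 0 else 0)
      from funext Sq_Tc, h1]
    norm_num
  have hE1 : ∀ v : ℝ, 0 < v →
      E1 c u κ r v = -g v - κ * v - r * (v * Real.log v - v) := by
    intro v hv
    have hlog : IntegrableOn Real.log (Ioc 0 v) :=
      (intervalIntegrable_iff_integrableOn_Ioc_of_le hv.le).1
        intervalIntegral.intervalIntegrable_log'
    have hcst : IntegrableOn (fun _ : ℝ => κ) (Ioc 0 v) :=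
      integrableOn_const measure_Ioc_lt_top.ne
    have h1 : E1 c u κ r v = (∫ t in Ioc 0 v, -Tc c u t) - (∫ t in Ioc 0 v, κ) -
        ∫ t in Ioc 0 v, (r : ℝ) * Real.log t := by
      unfold E1 ee
      have h2 : IntegrableOn (fun t => -Tc c u t - κ) (Ioc 0 v) := (hTloc v).neg.sub hcst
      have h3 : IntegrableOn (fun t => (r : ℝ) * Real.log t) (Ioc 0 v) := hlog.const_mul _
      have h4 : IntegrableOn (fun t => -Tc c u t) (Ioc 0 v) := (hTloc v).neg
      rw [integral_sub h2 h3, integral_sub h4 hcst]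
    rw [h1, integral_neg, hgT v hv, integral_const_mul, setIntegral_const,
      ← intervalIntegral.integral_of_le hv.le, integral_log]
    simp [max_eq_left hv.le]
    ring
  -- the second primitive
  have hcong : E2 c u κ r U = ∫ v in Ioc 0 U, (-g v + (-(κ * v) - r * (v * Real.log v - v))) := by
    unfold E2
    refine setIntegral_congr_fun measurableSet_Ioc fun v hv => ?_
    show E1 c u κ r v = _
    rw [hE1 v hv.1]
    ring
  have hgint : IntegrableOn g (Ioc 0 U) := by
    have h1 : IntegrableOn (Tc c u) (Icc 0 U) :=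
      (integrableOn_Icc_iff_integrableOn_Ioc (by simp)).2 (hTloc U)
    have h2 : ContinuousOn (fun v : ℝ => ∫ t in Ioc 0 v, Tc c u t) (Icc 0 U) :=
      intervalIntegral.continuousOn_primitive h1
    have h3 : IntegrableOn (fun v : ℝ => ∫ t in Ioc 0 v, Tc c u t) (Ioc 0 U) :=
      (h2.integrableOn_compact isCompact_Icc).mono_set Ioc_subset_Icc_self
    refine h3.congr_fun (fun v hv => ?_) measurableSet_Ioc
    exact hgT v hv.1
  obtain ⟨q, hq⟩ : ∃ q : ℝ → ℝ, ∀ v, q v = -(κ * v) - r * (v * Real.log v - v) :=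
    ⟨_, fun _ => rfl⟩
  have hqc : Continuous q := by
    rw [show q = fun v => -(κ * v) - r * (v * Real.log v - v) from funext hq]
    have := Real.continuous_mul_log
    fun_prop
  have hqint : IntegrableOn q (Ioc 0 U) := hqc.integrableOn_Ioc
  obtain ⟨Q, hQ⟩ : ∃ Q : ℝ → ℝ, ∀ v, Q v = -(κ * v ^ 2 / 2) -
      r * (v / 2 * (v * Real.log v) - 3 / 4 * v ^ 2) := ⟨_, fun _ => rfl⟩
  have hQv : ∫ v in Ioc 0 U, q v = Q U - Q 0 := by
    rw [← intervalIntegral.integral_of_le hU.le]
    apply intervalIntegral.integral_eq_sub_of_hasDerivAt_of_le hU.le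
    · apply Continuous.continuousOn
      rw [show Q = fun v => -(κ * v ^ 2 / 2) - r * (v / 2 * (v * Real.log v) - 3 / 4 * v ^ 2) from
        funext hQ]
      have := Real.continuous_mul_log
      fun_prop
    · intro v hv
      have hv0 : v ≠ 0 := hv.1.ne'
      have h1 := Real.hasDerivAt_mul_log hv0
      have h2 : HasDerivAt (fun v : ℝ => v / 2) (1 / 2) v := (hasDerivAt_id v).div_const 2
      have h3 := h2.mul h1
      have h4 : HasDerivAt (fun v : ℝ => v ^ 2) (2 * v) v := by
        simpa using hasDerivAt_pow 2 v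
      have h5 := (((h4.const_mul κ).div_const 2).neg).sub
        ((h3.sub (h4.const_mul (3 / 4))).const_mul (r : ℝ))
      rw [show Q = fun v => -(κ * v ^ 2 / 2) - r * (v / 2 * (v * Real.log v) - 3 / 4 * v ^ 2) from
        funext hQ, hq]
      refine h5.congr_deriv ?_
      ring
    · exact (intervalIntegrable_iff_integrableOn_Ioc_of_le hU.le).2 hqint
  have hE2 : E2 c u κ r U = -(∫ v in Ioc 0 U, g v) + (Q U - Q 0) := by
    rw [hcong, ← hQv, ← integral_neg]
    have h6 : IntegrableOn (fun v => -g v) (Ioc 0 U) := hgint.neg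
    have h7 : (fun v => -g v + (-(κ * v) - r * (v * Real.log v - v))) = fun v => -g v + q v := by
      funext v
      rw [hq]
    rw [h7, integral_add h6 hqint]
  have hg2 := Sq_intsum H 1 U hU
  have hg3 : ∫ v in Ioc 0 U, g v = (∑' i, if u i ≤ U then c i * (U - u i) ^ 2 else 0) / 2 := by
    rw [show g = fun v => ∑' i, (if u i ≤ v then c i * (v - u i) ^ 1 else 0) from funext hg, hg2]
    norm_num
  rw [hE2, hg3, hQ, hQ]
  ring

/-- `F(X) - log lam = Ff E2 b (log X)`, for `X > 1`: `E2_sum` with `U = log X`,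
`p^(j+1) ≤ X ↔ uW ≤ log X`, `(1 - uW/U)² U² = (U - uW)²`, `powSum_eq`, `kap lam r = r γ - log lam`. -/
theorem fun_eq (W : WeierstrassCurve ℤ) (H : Hyp (cW W) uW 3 L) (A : ℝ) (r : ℕ) (lam : ℝ)
    (X : ℝ) (hX : 1 < X) :
    BSDX.bsdFun W A r X - Real.log lam =
      Ff (E2 (cW W) uW (kap lam r) r) (Real.log A - Real.eulerMascheroniConstant) (Real.log X) := by
  have hU : 0 < Real.log X := Real.log_pos hX
  have h1 := (E2_sum H (kap lam r) r (Real.log X) hU).2
  have hX0 : 0 < X := by linarith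
  have hsq : BSDX.squareSum W X =
      (∑' i, if uW i ≤ Real.log X then cW W i * (Real.log X - uW i) ^ 2 else 0) /
        Real.log X ^ 2 := by
    unfold BSDX.squareSum
    rw [← tsum_div_const]
    refine tsum_congr fun i => ?_
    have hp : (0 : ℝ) < ((i.1 : ℕ) : ℝ) := by exact_mod_cast i.1.2.pos
    have hiff : ((i.1 : ℕ) : ℝ) ^ (i.2 + 1) ≤ X ↔ uW i ≤ Real.log X := by
      unfold uW
      rw [Real.le_log_iff_exp_le hX0, mul_comm, Real.exp_mul, Real.exp_log hp]
      rw [show ((i.2 : ℝ) + 1) = ((i.2 + 1 : ℕ) : ℝ) by push_cast; ring, Real.rpow_natCast]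
    by_cases h : ((i.1 : ℕ) : ℝ) ^ (i.2 + 1) ≤ X
    · rw [if_pos h, if_pos (hiff.1 h)]
      have h2 : cW W i = (PPM.powSum (PPM.aCoeff W i.1) (PPM.eCoeff W i.1) (i.2 + 1) : ℝ) /
          (((i.2 : ℝ) + 1) * ((i.1 : ℕ) : ℝ) ^ (i.2 + 1)) := by
        unfold cW
        rw [PPM.powSum_eq]
        rfl
      have h3 : Real.log X ≠ 0 := hU.ne'
      have h4 : (1 - ((i.2 : ℝ) + 1) * Real.log ((i.1 : ℕ) : ℝ) / Real.log X) ^ 2 =
          (Real.log X - uW i) ^ 2 / Real.log X ^ 2 := by
        unfold uW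
        rw [← div_pow, sub_div, div_self h3]
      rw [← h2, h4, mul_div_assoc]
    · rw [if_neg h, if_neg (fun h2 => h (hiff.2 h2)), zero_div]
  unfold BSDX.bsdFun Ff BSDX.archTerm
  rw [hsq]
  have h2 : -2 * E2 (cW W) uW (kap lam r) r (Real.log X) =
      (∑' i, if uW i ≤ Real.log X then cW W i * (Real.log X - uW i) ^ 2 else 0) +
        kap lam r * Real.log X ^ 2 + r * (Real.log X ^ 2 * Real.log (Real.log X) -
          3 / 2 * Real.log X ^ 2) := by linarith
  rw [h2]
  unfold kap
  have h3 : Real.log X ≠ 0 := hU.ne'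
  field_simp
  ring

end BSDN
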