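import Pool.Agent.W_92892c_h19n.Asm
import Pool.Agent.W_92892c_h19n.Cal
import Pool.Agent.W_92892c_h19n.One2
import Pool.Agent.W_92892c_h19n.Ar
import Pool.Agent.W_92892c_h19n.Sq
import Pool.Agent.W_92892c_h19n.Rf

set_option autoImplicit false

open MeasureTheory Set Filter Topology

namespace BSDN

open PPM BSDX

/-! ### Translation of the hypotheses -/

theorem Fin_hyp (W : WeierstrassCurve ℤ) (L : ℂ → ℂ) (hL : Differentiable ℂ L)
    (hprod : EulerProduct W L) : BSDS.Hyp (BSDS.cW W) BSDS.uW 3 (fun s => L (1 + s)) :=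
  BSDS.hyp_W W L hL hprod

theorem Fin_zeros (L : ℂ → ℂ) : NoZeros L ↔ ∀ s : ℂ, 0 < s.re → L (1 + s) ≠ 0 := by
  constructor
  · intro h s hs
    exact h (1 + s) (by rw [Complex.add_re, Complex.one_re]; linarith)
  · intro h s hs
    have := h (s - 1) (by rw [Complex.sub_re, Complex.one_re]; linarith)
    simpa using this

theorem Fin_fe (L : ℂ → ℂ) (A : ℝ) (ε : ℂ) (h : FunEq L A ε) :
    FEq (fun s => L (1 + s)) A ε := by
  intro w hw
  have := h w hw
  rw [sub_eq_add_neg 1 w] at this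
  rw [sub_eq_add_neg 1 w]
  exact this

/-! ### From the integers to the reals -/

theorem Fin_int_lim (W : WeierstrassCurve ℤ) (κ : ℝ) (r : ℕ)
    (h : Tendsto (fun n : ℕ => E2 (BSDS.cW W) BSDS.uW κ r (Real.log n) / Real.log n ^ 2) atTop
      (𝓝 0)) :
    Tendsto (fun U : ℝ => E2 (BSDS.cW W) BSDS.uW κ r U / U ^ 2) atTop (𝓝 0) := by
  obtain ⟨K, hK⟩ := osc W κ r
  have h1 : Tendsto (fun U : ℝ => ⌊Real.exp U⌋₊) atTop atTop :=
    tendsto_nat_floor_atTop.comp Real.tendsto_exp_atTop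
  have h2 := (h.comp h1).abs
  rw [abs_zero] at h2
  have h3 : Tendsto (fun U : ℝ => K / U ^ 2) atTop (𝓝 0) :=
    tendsto_const_nhds.div_atTop (tendsto_pow_atTop two_ne_zero)
  have h4 := h2.add h3
  rw [add_zero] at h4
  refine squeeze_zero_norm' ?_ h4
  filter_upwards [eventually_ge_atTop (Real.log 3)] with U hU
  have hl3 : 0 < Real.log 3 := Real.log_pos (by norm_num)
  have hU0 : 0 < U := by linarith
  set n : ℕ := ⌊Real.exp U⌋₊ with hn
  have he : (3 : ℝ) ≤ Real.exp U := by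
    rw [← Real.exp_log (show (0 : ℝ) < 3 by norm_num)]
    exact Real.exp_le_exp.2 hU
  have hn3 : 3 ≤ n := Nat.le_floor (by exact_mod_cast he)
  have hn0 : (0 : ℝ) < n := by
    have : 0 < n := by omega
    exact_mod_cast this
  have hle : (n : ℝ) ≤ Real.exp U := Nat.floor_le (Real.exp_pos _).le
  have hlt : Real.exp U < n + 1 := Nat.lt_floor_add_one _
  have g1 : Real.log n ≤ U := by
    rw [← Real.log_exp U]
    exact Real.log_le_log hn0 hle
  have g2 : U ≤ Real.log (n + 1) := by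
    rw [← Real.log_exp U]
    exact Real.log_le_log (Real.exp_pos _) hlt.le
  have g3 := hK n (by omega) U g1 g2
  have g4 : 0 < Real.log n := Real.log_pos (by
    have : (1 : ℕ) < n := by omega
    exact_mod_cast this)
  show ‖E2 (BSDS.cW W) BSDS.uW κ r U / U ^ 2‖ ≤
    |E2 (BSDS.cW W) BSDS.uW κ r (Real.log n) / Real.log n ^ 2| + K / U ^ 2
  rw [Real.norm_eq_abs, abs_div, abs_div, abs_of_pos (pow_pos hU0 2), abs_of_pos (pow_pos g4 2)]
  have g5 : |E2 (BSDS.cW W) BSDS.uW κ r U| ≤ |E2 (BSDS.cW W) BSDS.uW κ r (Real.log n)| + K := by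
    have := abs_sub_abs_le_abs_sub (E2 (BSDS.cW W) BSDS.uW κ r U)
      (E2 (BSDS.cW W) BSDS.uW κ r (Real.log n))
    linarith
  calc |E2 (BSDS.cW W) BSDS.uW κ r U| / U ^ 2
      ≤ (|E2 (BSDS.cW W) BSDS.uW κ r (Real.log n)| + K) / U ^ 2 :=
        div_le_div_of_nonneg_right g5 (pow_pos hU0 2).le
    _ = |E2 (BSDS.cW W) BSDS.uW κ r (Real.log n)| / U ^ 2 + K / U ^ 2 := add_div _ _ _
    _ ≤ |E2 (BSDS.cW W) BSDS.uW κ r (Real.log n)| / Real.log n ^ 2 + K / U ^ 2 := by
        have : Real.log n ^ 2 ≤ U ^ 2 := pow_le_pow_left₀ g4.le g1 2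
        have := div_le_div_of_nonneg_left (abs_nonneg (E2 (BSDS.cW W) BSDS.uW κ r (Real.log n)))
          (pow_pos g4 2) this
        linarith

/-! ### What the first condition gives -/

theorem Fin_fwd (W : WeierstrassCurve ℤ) (L : ℂ → ℂ) (hL : Differentiable ℂ L)
    (hprod : EulerProduct W L) (hgr : PolyGrowth L) (A : ℝ) (ε : ℂ) (hA : 0 < A)
    (hFE : FunEq L A ε) (r : ℕ) (lam : ℝ) (hlam : 0 < lam)
    (h : NoZeros L ∧ LeadingTerm L r lam) :
    ∃ Z : ℝ, 0 ≤ Z ∧ Z ≤ A * (L 2).re / lam - 1 ∧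
      Exf (E1 (BSDS.cW W) BSDS.uW (BSDC.kap lam r) r) (E2 (BSDS.cW W) BSDS.uW (BSDC.kap lam r) r)
        (Real.log A - Real.eulerMascheroniConstant) Z := by
  have h1 := asm (Fin_hyp W L hL hprod) (BSDC.gro_shift L hgr) A hA ε (Fin_fe L A ε hFE)
    ((Fin_zeros L).1 h.1) r lam hlam ((BSDC.tendsto_shift L r _).1 h.2)
  have e : (1 : ℂ) + 1 = 2 := by norm_num
  simp only [e] at h1
  exact h1

/-- The converse, from the limit along the integers. -/
theorem Fin_bwd (W : WeierstrassCurve ℤ) (L : ℂ → ℂ) (hL : Differentiable ℂ L)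
    (hprod : EulerProduct W L) (A : ℝ) (r : ℕ) (lam : ℝ) (hlam : 0 < lam)
    (h : Tendsto (fun n : ℕ => bsdFun W A r n) atTop (𝓝 (Real.log lam))) :
    NoZeros L ∧ LeadingTerm L r lam := by
  have H := Fin_hyp W L hL hprod
  set b : ℝ := Real.log A - Real.eulerMascheroniConstant with hb
  set e2 : ℝ → ℝ := E2 (BSDS.cW W) BSDS.uW (BSDC.kap lam r) r with he2
  have hlog : Tendsto (fun n : ℕ => Real.log n) atTop atTop :=
    Real.tendsto_log_atTop.comp tendsto_natCast_atTop_atTop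
  have h1 : Tendsto (fun n : ℕ => bsdFun W A r n - Real.log lam) atTop (𝓝 0) := by
    have := h.sub_const (Real.log lam)
    rwa [sub_self] at this
  have h2 : Tendsto (fun n : ℕ => 2 * b / Real.log n) atTop (𝓝 0) :=
    tendsto_const_nhds.div_atTop hlog
  have h3 : Tendsto (fun n : ℕ => Real.pi ^ 2 / (6 * Real.log n ^ 2)) atTop (𝓝 0) := by
    refine tendsto_const_nhds.div_atTop ?_
    exact ((tendsto_pow_atTop two_ne_zero).comp hlog).const_mul_atTop (by norm_num)
  have h4 : Tendsto (fun n : ℕ => e2 (Real.log n) / Real.log n ^ 2) atTop (𝓝 0) := by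
    have h5 := ((h1.sub h2).sub h3).const_mul (-(1 / 2) : ℝ)
    rw [sub_zero, sub_zero, mul_zero] at h5
    refine h5.congr' ?_
    filter_upwards [eventually_ge_atTop 2] with n hn
    have hn1 : (1 : ℝ) < n := by
      have : 1 < n := by omega
      exact_mod_cast this
    rw [fun_eq W H A r lam n hn1]
    unfold Ff
    ring
  obtain ⟨h6, h7⟩ := ces2_main H r lam hlam (Fin_int_lim W _ r h4)
  exact ⟨(Fin_zeros L).2 h6, (BSDC.tendsto_shift L r _).2 h7⟩

/-- The criterion. -/
theorem fin_tfae (W : WeierstrassCurve ℤ) (L : ℂ → ℂ) (hL : Differentiable ℂ L)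
    (hprod : EulerProduct W L) (hgr : PolyGrowth L) (A : ℝ) (ε : ℂ) (hA : 0 < A)
    (hFE : FunEq L A ε) (r : ℕ) (lam : ℝ) (hlam : 0 < lam) :
    List.TFAE [
      NoZeros L ∧ LeadingTerm L r lam,
      ∀ X : ℝ, 2 ≤ X → 0 < bsdFun W A r X - Real.log lam ∧
        bsdFun W A r X - Real.log lam < 4 * A * (L 2).re / (lam * Real.log X ^ 2),
      StrictAntiOn (bsdFun W A r) (Ioi 1) ∧
        Tendsto (bsdFun W A r) atTop (𝓝 (Real.log lam)),
      Tendsto (fun n : ℕ => bsdFun W A r n) atTop (𝓝 (Real.log lam)),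
      ∀ X : ℝ, 2 ≤ X → |(∫ x in (1 : ℝ)..X, bsdError W r lam x / x) -
        (Real.log A - Real.eulerMascheroniConstant)| < 4 * A * (L 2).re / (lam * Real.log X)] := by
  have H := Fin_hyp W L hL hprod
  have hfe := fun (X : ℝ) (hX : 1 < X) => fun_eq W H A r lam X hX
  have hl2 : 0 < Real.log 2 := Real.log_pos (by norm_num)
  have hlog : ∀ X : ℝ, 2 ≤ X → Real.log 2 ≤ Real.log X := fun X hX =>
    Real.log_le_log (by norm_num) hX
  have hZ : ∀ Z : ℝ, Z ≤ A * (L 2).re / lam - 1 → 4 * Z + 1 < 4 * A * (L 2).re / lam := by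
    intro Z hZ
    have : 4 * A * (L 2).re / lam = 4 * (A * (L 2).re / lam) := by ring
    rw [this]
    linarith
  tfae_have 1 → 2 := by
    intro h X hX
    obtain ⟨Z, hZ0, hZ1, hx⟩ := Fin_fwd W L hL hprod hgr A ε hA hFE r lam hlam h
    have hU := hlog X hX
    have hU0 : 0 < Real.log X := by linarith
    rw [hfe X (by linarith)]
    refine ⟨cal_pos hx _ hU0, (cal_up hx _ hU).trans_lt ?_⟩
    have h1 := hZ Z hZ1
    have h2 : 4 * A * (L 2).re / (lam * Real.log X ^ 2) =
        (4 * A * (L 2).re / lam) / Real.log X ^ 2 := by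
      rw [div_div]
    rw [h2]
    exact div_lt_div_of_pos_right h1 (pow_pos hU0 2)
  tfae_have 1 → 3 := by
    intro h
    obtain ⟨Z, hZ0, hZ1, hx⟩ := Fin_fwd W L hL hprod hgr A ε hA hFE r lam hlam h
    constructor
    · intro X hX Y hY hXY
      have hX1 : (1 : ℝ) < X := hX
      have hY1 : (1 : ℝ) < Y := hY
      have h1 := cal_anti hx (show Real.log X ∈ Ioi (0 : ℝ) from Real.log_pos hX1)
        (show Real.log Y ∈ Ioi (0 : ℝ) from Real.log_pos hY1)
        (Real.log_lt_log (by linarith) hXY)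
      rw [← hfe X hX1, ← hfe Y hY1] at h1
      linarith
    · have h1 := (cal_lim hx).comp Real.tendsto_log_atTop
      have h2 := h1.add_const (Real.log lam)
      rw [zero_add] at h2
      refine h2.congr' ?_
      filter_upwards [eventually_gt_atTop (1 : ℝ)] with X hX
      rw [Function.comp_apply, ← hfe X hX]
      ring
  tfae_have 1 → 5 := by
    intro h X hX
    obtain ⟨Z, hZ0, hZ1, hx⟩ := Fin_fwd W L hL hprod hgr A ε hA hFE r lam hlam h
    have hU := hlog X hX
    have hU0 : 0 < Real.log X := by linarith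
    have e1 : bsdError W r lam = BSDC.bsdErr W r lam := funext fun x => bsdError_eq W r lam x
    rw [e1, BSDC.int_one W r lam hlam X (by linarith)]
    refine (cal_one hx _ hU).trans_lt ?_
    have h1 := hZ Z hZ1
    have h2 : 4 * A * (L 2).re / (lam * Real.log X) =
        (4 * A * (L 2).re / lam) / Real.log X := by
      rw [div_div]
    rw [h2]
    exact div_lt_div_of_pos_right h1 hU0
  tfae_have 2 → 4 := by
    intro h
    have hlg : Tendsto (fun n : ℕ => Real.log n) atTop atTop :=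
      Real.tendsto_log_atTop.comp tendsto_natCast_atTop_atTop
    have h1 : Tendsto (fun n : ℕ => 4 * A * (L 2).re / (lam * Real.log n ^ 2)) atTop (𝓝 0) := by
      refine tendsto_const_nhds.div_atTop ?_
      exact ((tendsto_pow_atTop two_ne_zero).comp hlg).const_mul_atTop hlam
    have h2 : Tendsto (fun n : ℕ => bsdFun W A r n - Real.log lam) atTop (𝓝 0) := by
      refine squeeze_zero' ?_ ?_ h1
      · filter_upwards [eventually_ge_atTop 2] with n hn
        exact (h n (by exact_mod_cast hn)).1.le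
      · filter_upwards [eventually_ge_atTop 2] with n hn
        exact (h n (by exact_mod_cast hn)).2.le
    have h3 := h2.add_const (Real.log lam)
    rw [zero_add] at h3
    refine h3.congr fun n => ?_
    ring
  tfae_have 3 → 4 := by
    rintro ⟨-, h⟩
    exact h.comp tendsto_natCast_atTop_atTop
  tfae_have 4 → 1 := fun h => Fin_bwd W L hL hprod A r lam hlam h
  tfae_have 5 → 1 := by
    intro h
    rw [part2 W L hL hprod hgr r lam hlam A ε hA hFE]
    have h1 : Tendsto (fun X : ℝ => 4 * A * (L 2).re / (lam * Real.log X)) atTop (𝓝 0) := by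
      refine tendsto_const_nhds.div_atTop ?_
      exact Real.tendsto_log_atTop.const_mul_atTop hlam
    have h2 : Tendsto (fun X : ℝ => (∫ x in (1 : ℝ)..X, bsdError W r lam x / x) -
        (Real.log A - Real.eulerMascheroniConstant)) atTop (𝓝 0) := by
      refine squeeze_zero_norm' ?_ h1
      filter_upwards [eventually_ge_atTop (2 : ℝ)] with X hX
      rw [Real.norm_eq_abs]
      exact (h X hX).le
    have h3 := h2.add_const (Real.log A - Real.eulerMascheroniConstant)
    rw [zero_add] at h3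
    refine h3.congr fun X => ?_
    ring
  tfae_finish

theorem fin_rank (W : WeierstrassCurve ℤ) (L : ℂ → ℂ) (hL : Differentiable ℂ L)
    (hprod : EulerProduct W L) (hgr : PolyGrowth L) (A : ℝ) (ε : ℂ) (hA : 0 < A)
    (hFE : FunEq L A ε) (r : ℕ) :
    (NoZeros L ∧ ∃ l : ℝ, 0 < l ∧ LeadingTerm L r l) ↔
      (AntitoneOn (bsdFun W A r) (Ioi 1) ∧ ∃ m : ℝ, ∀ X : ℝ, 1 < X → m ≤ bsdFun W A r X) := by
  constructor
  · rintro ⟨h1, l, hl, h2⟩
    have h0 := (fin_tfae W L hL hprod hgr A ε hA hFE r l hl).out 0 2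
    have h3 := h0.1 ⟨h1, h2⟩
    refine ⟨h3.1.antitoneOn, Real.log l, fun X hX => ?_⟩
    refine le_of_tendsto h3.2 ?_
    filter_upwards [eventually_ge_atTop X] with Y hY
    exact h3.1.antitoneOn (show X ∈ Ioi 1 from hX) (show Y ∈ Ioi 1 from hX.trans_le hY) hY
  · rintro ⟨h1, m, hm⟩
    -- the values at the integers `n + 2` form a bounded antitone sequence
    have h2 : Antitone (fun n : ℕ => bsdFun W A r ((n : ℝ) + 2)) := by
      intro n k hnk
      have hn : (0 : ℝ) ≤ n := Nat.cast_nonneg n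
      have hnk' : (n : ℝ) ≤ k := by exact_mod_cast hnk
      exact h1 (show (n : ℝ) + 2 ∈ Ioi 1 from by rw [Set.mem_Ioi]; linarith)
        (show (k : ℝ) + 2 ∈ Ioi 1 from by rw [Set.mem_Ioi]; linarith) (by linarith)
    have h3 : BddBelow (Set.range fun n : ℕ => bsdFun W A r ((n : ℝ) + 2)) := by
      refine ⟨m, ?_⟩
      rintro _ ⟨n, rfl⟩
      have hn : (0 : ℝ) ≤ n := Nat.cast_nonneg n
      exact hm _ (by linarith)
    have h4 := tendsto_atTop_ciInf h2 h3
    set ℓ : ℝ := ⨅ n : ℕ, bsdFun W A r ((n : ℝ) + 2) with hℓ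
    have h5 : Tendsto (fun n : ℕ => bsdFun W A r n) atTop (𝓝 ℓ) := by
      rw [← tendsto_add_atTop_iff_nat 2]
      refine h4.congr fun n => ?_
      push_cast
      rfl
    have h6 : Tendsto (fun n : ℕ => bsdFun W A r n) atTop (𝓝 (Real.log (Real.exp ℓ))) := by
      rwa [Real.log_exp]
    obtain ⟨h7, h8⟩ := Fin_bwd W L hL hprod A r (Real.exp ℓ) (Real.exp_pos _) h6
    exact ⟨h7, _, Real.exp_pos _, h8⟩

theorem fin_one (W : WeierstrassCurve ℤ) (L : ℂ → ℂ) (hL : Differentiable ℂ L)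
    (hprod : EulerProduct W L) (hgr : PolyGrowth L) (A : ℝ) (ε : ℂ) (hA : 0 < A)
    (hFE : FunEq L A ε) (r : ℕ) (lam : ℝ) (hlam : 0 < lam) :
    (NoZeros L ∧ ∃ (n : ℕ) (l : ℝ), 0 < l ∧ LeadingTerm L n l ∧ (n < r ∨ (n = r ∧ lam ≤ l))) ↔
      ∀ᶠ n : ℕ in atTop, Real.log lam ≤ bsdFun W A r n := by
  have H := Fin_hyp W L hL hprod
  have hlg : Tendsto (fun n : ℕ => Real.log n) atTop atTop :=
    Real.tendsto_log_atTop.comp tendsto_natCast_atTop_atTop
  constructor
  · rintro ⟨h1, n, l, hl, h2, hn⟩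
    have h0 := (fin_tfae W L hL hprod hgr A ε hA hFE n l hl).out 0 1
    have h3 := h0.1 ⟨h1, h2⟩
    rcases hn with hn | ⟨rfl, hn⟩
    · -- smaller order
      have h4 : ∀ᶠ k : ℕ in atTop, Real.log lam - Real.log l -
          (Real.eulerMascheroniConstant - 3 / 2) * ((r : ℝ) - n) ≤
          ((r : ℝ) - n) * Real.log (Real.log k) := by
        have hrn : (0 : ℝ) < (r : ℝ) - n := by
          have : (n : ℝ) < r := by exact_mod_cast hn
          linarith
        exact ((Real.tendsto_log_atTop.comp hlg).const_mul_atTop hrn).eventually_ge_atTop _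
      filter_upwards [h4, eventually_ge_atTop 2] with k hk hk2
      have h5 := (h3 k (by exact_mod_cast hk2)).1
      unfold bsdFun at h5 ⊢
      nlinarith
    · filter_upwards [eventually_ge_atTop 2] with k hk2
      have h5 := (h3 k (by exact_mod_cast hk2)).1
      have h6 := Real.log_le_log hlam hn
      linarith
  · intro h
    set b : ℝ := Real.log A - Real.eulerMascheroniConstant with hb
    have h1 : ∀ᶠ n : ℕ in atTop, (1 : ℝ) *
        E2 (BSDS.cW W) BSDS.uW (BSDC.kap lam r) r (Real.log n) ≤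
          b * Real.log n + Real.pi ^ 2 / 12 := by
      filter_upwards [h, eventually_ge_atTop 2] with n hn hn2
      have hn1 : (1 : ℝ) < n := by
        have : 1 < n := by omega
        exact_mod_cast this
      have h2 := fun_eq W H A r lam n hn1
      have hU : 0 < Real.log n := Real.log_pos hn1
      have h3 : 0 ≤ Ff (E2 (BSDS.cW W) BSDS.uW (BSDC.kap lam r) r) b (Real.log n) := by
        rw [← h2]
        linarith
      unfold Ff at h3
      have h4 : 0 ≤ (-2 * E2 (BSDS.cW W) BSDS.uW (BSDC.kap lam r) r (Real.log n) /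
          Real.log n ^ 2 + 2 * b / Real.log n + Real.pi ^ 2 / (6 * Real.log n ^ 2)) *
            (Real.log n ^ 2 / 2) := mul_nonneg h3 (by positivity)
      have h5 : (-2 * E2 (BSDS.cW W) BSDS.uW (BSDC.kap lam r) r (Real.log n) /
          Real.log n ^ 2 + 2 * b / Real.log n + Real.pi ^ 2 / (6 * Real.log n ^ 2)) *
            (Real.log n ^ 2 / 2) = -E2 (BSDS.cW W) BSDS.uW (BSDC.kap lam r) r (Real.log n) +
              b * Real.log n + Real.pi ^ 2 / 12 := by
        field_simp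
        ring
      rw [h5] at h4
      linarith
    obtain ⟨M, hM0, hM⟩ := from_int W (fun s => L (1 + s)) H (BSDC.kap lam r) r b
      (Real.pi ^ 2 / 12) 1 (Or.inl rfl) h1
    simp only [one_mul] at hM
    obtain ⟨h6, n, l, hl, h7, h8⟩ := one2_lead H r lam hlam M hM
    exact ⟨(Fin_zeros L).2 h6, n, l, hl, (BSDC.tendsto_shift L n _).2 h7, h8⟩

theorem fin_free (W : WeierstrassCurve ℤ) (L : ℂ → ℂ) (hL : Differentiable ℂ L)
    (hprod : EulerProduct W L) (hgr : PolyGrowth L) (A : ℝ) (ε : ℂ) (hA : 0 < A)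
    (hFE : FunEq L A ε) (r : ℕ) (T : Type) [AddCommGroup T] [Finite T]
    (e : RatPts W ≃+ (Fin r → ℤ) × T) (H : Matrix (Fin r) (Fin r) ℝ) (hH : H.PosDef)
    (h : RatPts W → ℝ)
    (hh : ∀ P, h P = dotProduct (fun i => ((e P).1 i : ℝ)) (H.mulVec fun i => ((e P).1 i : ℝ)))
    (V : ℝ) (hV : 0 < V) :
    (NoZeros L ∧ LeadingTerm L r (V * H.det / (Nat.card T : ℝ) ^ 2)) ↔
      ((∀ X : ℝ, 1 < X → V < localGlobal W h A X) ∧
        Tendsto (fun n : ℕ => localGlobal W h A n) atTop (𝓝 V)) := by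
  have hT : (0 : ℝ) < Nat.card T := by exact_mod_cast Nat.card_pos
  have hlam : 0 < V * H.det / (Nat.card T : ℝ) ^ 2 :=
    div_pos (mul_pos hV hH.det_pos) (pow_pos hT 2)
  have H' := Fin_hyp W L hL hprod
  obtain ⟨h1, h2⟩ := rank_free W A r T e H hH h hh V hV
  constructor
  · intro h3
    obtain ⟨Z, hZ0, hZ1, hx⟩ := Fin_fwd W L hL hprod hgr A ε hA hFE r _ hlam h3
    refine ⟨h1 fun X hX => ?_, h2.1 ?_⟩
    · have h4 := cal_pos hx _ (Real.log_pos hX)
      rw [← fun_eq W H' A r _ X hX] at h4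
      linarith
    · have h0 := (fin_tfae W L hL hprod hgr A ε hA hFE r _ hlam).out 0 3
      exact h0.1 h3
  · rintro ⟨-, h3⟩
    exact Fin_bwd W L hL hprod A r _ hlam (h2.2 h3)

end BSDN
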