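import Pool.Agent.W_92892c_h19.Stmt

/-!
Definitions used in the statement of the hand-in ExplicitInequality of MP_92892c_nt
(besides those of the module W_92892c_h19.Stmt).
-/

open MeasureTheory Set Filter Topology

namespace BSDX

open PPM

/-- The finite sum `Σ_{q = p^m ≤ X} (α_p^m + β_p^m)/(m q) (1 - log q/log X)^2`
(the index `(p, j)` stands for `q = p^(j+1)`). -/
noncomputable def squareSum (W : WeierstrassCurve ℤ) (X : ℝ) : ℝ :=
  ∑' i : Nat.Primes × ℕ, if (i.1 : ℝ) ^ (i.2 + 1) ≤ X then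
    (powSum (aCoeff W i.1) (eCoeff W i.1) (i.2 + 1) : ℝ) /
      (((i.2 : ℝ) + 1) * (i.1 : ℝ) ^ (i.2 + 1)) *
        (1 - ((i.2 : ℝ) + 1) * Real.log (i.1 : ℝ) / Real.log X) ^ 2 else 0

/-- `2 (log A - γ)/log X + π²/(6 (log X)²)`. -/
noncomputable def archTerm (A X : ℝ) : ℝ :=
  2 * (Real.log A - Real.eulerMascheroniConstant) / Real.log X +
    Real.pi ^ 2 / (6 * Real.log X ^ 2)

/-- `F(X) = S(X) + 2 (log A - γ)/log X + π²/(6 (log X)²) + r (log log X + γ - 3/2)`. -/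
noncomputable def bsdFun (W : WeierstrassCurve ℤ) (A : ℝ) (r : ℕ) (X : ℝ) : ℝ :=
  squareSum W X + archTerm A X +
    r * (Real.log (Real.log X) + Real.eulerMascheroniConstant - 3 / 2)

/-- The group of rational points. -/
abbrev RatPts (W : WeierstrassCurve ℤ) : Type :=
  (W.map (Int.castRingHom ℚ)).toAffine.Point

/-- `Θ(s) = Σ_{P ∈ E(ℚ)} exp(-π s h(P))`. -/
noncomputable def pointTheta (W : WeierstrassCurve ℤ) (h : RatPts W → ℝ) (s : ℝ) : ℝ :=
  ∑' P : RatPts W, Real.exp (-(Real.pi * s * h P))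

/-- `G(X) = Θ(1/(κ log X))^2 exp(S(X) + 2 (log A - γ)/log X + π²/(6 (log X)²))`,
`κ = e^(γ - 3/2)`. -/
noncomputable def localGlobal (W : WeierstrassCurve ℤ) (h : RatPts W → ℝ) (A X : ℝ) : ℝ :=
  pointTheta W h (1 / (Real.exp (Real.eulerMascheroniConstant - 3 / 2) * Real.log X)) ^ 2 *
    Real.exp (squareSum W X + archTerm A X)

end BSDX
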